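import Pool.Agent.SubwordFlip.Defs

open scoped InnerProductSpace

namespace Pool.Agent.SubwordFlip

namespace Tits

/-! ### A Chebyshev-like sequence -/

/-- `u c n` is `sin (n θ) / sin θ` when `c = cos θ`. -/
def u (c : ℝ) : ℕ → ℝ
  | 0 => 0
  | 1 => 1
  | (n + 2) => 2 * c * u c (n + 1) - u c n

theorem u_zero (c : ℝ) : u c 0 = 0 := rfl

theorem u_one (c : ℝ) : u c 1 = 1 := rfl

theorem u_add_two (c : ℝ) (n : ℕ) : u c (n + 2) = 2 * c * u c (n + 1) - u c n := rfl

theorem u_sin (θ : ℝ) (n : ℕ) : u (Real.cos θ) n * Real.sin θ = Real.sin (n * θ) := by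
  induction n using Nat.strong_induction_on with
  | _ n ih =>
    match n, ih with
    | 0, _ => simp [u_zero]
    | 1, _ => simp [u_one]
    | (n + 2), ih =>
      have h1 := ih (n + 1) (by omega)
      have h2 := ih n (by omega)
      rw [u_add_two, sub_mul, mul_assoc, h1, h2]
      have e1 : ((n + 2 : ℕ) : ℝ) * θ = ((n + 1 : ℕ) : ℝ) * θ + θ := by push_cast; ring
      have e2 : ((n : ℕ) : ℝ) * θ = ((n + 1 : ℕ) : ℝ) * θ - θ := by push_cast; ring
      rw [e1, e2, Real.sin_add, Real.sin_sub]
      ring

theorem u_c_one (n : ℕ) : u 1 n = n := by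
  induction n using Nat.strong_induction_on with
  | _ n ih =>
    match n, ih with
    | 0, _ => simp [u_zero]
    | 1, _ => simp [u_one]
    | (n + 2), ih =>
      rw [u_add_two, ih (n + 1) (by omega), ih n (by omega)]
      push_cast; ring

theorem sin_pi_div_pos {m : ℕ} (hm : 2 ≤ m) : 0 < Real.sin (Real.pi / m) := by
  have hm' : (2 : ℝ) ≤ m := by exact_mod_cast hm
  apply Real.sin_pos_of_pos_of_lt_pi
  · have := Real.pi_pos
    positivity
  · rw [div_lt_iff₀ (by linarith)]
    nlinarith [Real.pi_pos]

theorem u_nonneg {m n : ℕ} (hm : m ≠ 1) (h : m = 0 ∨ n ≤ m) :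
    0 ≤ u (Real.cos (Real.pi / m)) n := by
  rcases Nat.eq_zero_or_pos m with h0 | h0
  · subst h0
    simp only [Nat.cast_zero, div_zero, Real.cos_zero]
    rw [u_c_one]; positivity
  · have h1 := u_sin (Real.pi / m) n
    have h2 := sin_pi_div_pos (m := m) (by omega)
    have hm' : (0 : ℝ) < m := by exact_mod_cast h0
    have hn : n ≤ m := by
      rcases h with h | h
      · omega
      · exact h
    have h3 : 0 ≤ Real.sin (n * (Real.pi / m)) := by
      apply Real.sin_nonneg_of_nonneg_of_le_pi
      · have := Real.pi_pos
        positivity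
      · rw [mul_div_assoc', div_le_iff₀ hm']
        have : (n : ℝ) ≤ m := by exact_mod_cast hn
        nlinarith [Real.pi_pos]
    by_contra hcon
    push Not at hcon
    nlinarith

theorem u_two_m {m : ℕ} (hm : 2 ≤ m) : u (Real.cos (Real.pi / m)) (2 * m) = 0 := by
  have h1 := u_sin (Real.pi / m) (2 * m)
  have h2 := sin_pi_div_pos hm
  have hm' : (m : ℝ) ≠ 0 := by
    have : 0 < m := by omega
    positivity
  have h3 : ((2 * m : ℕ) : ℝ) * (Real.pi / m) = 2 * Real.pi := by
    push_cast; field_simp
  rw [h3, Real.sin_two_pi] at h1
  rcases mul_eq_zero.mp h1 with h | h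
  · exact h
  · exact absurd h h2.ne'

theorem u_two_m_add {m : ℕ} (hm : 2 ≤ m) : u (Real.cos (Real.pi / m)) (2 * m + 1) = 1 := by
  have h1 := u_sin (Real.pi / m) (2 * m + 1)
  have h2 := sin_pi_div_pos hm
  have hm' : (m : ℝ) ≠ 0 := by
    have : 0 < m := by omega
    positivity
  have h3 : ((2 * m + 1 : ℕ) : ℝ) * (Real.pi / m) = Real.pi / m + 2 * Real.pi := by
    push_cast; field_simp; ring
  rw [h3, Real.sin_add_two_pi] at h1
  exact mul_right_cancel₀ h2.ne' (h1.trans (one_mul _).symm)

/-! ### The geometric representation -/

section Geom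

set_option linter.unusedSectionVars false

variable {B : Type*} [Fintype B] [DecidableEq B] (M : CoxeterMatrix B)

/-- The entries of the form: `- cos (π / m)`. -/
noncomputable def kk (i j : B) : ℝ := - Real.cos (Real.pi / M i j)

theorem kk_self (i : B) : kk M i i = 1 := by
  unfold kk
  rw [M.diagonal i]
  simp

theorem kk_symm (i j : B) : kk M i j = kk M j i := by
  unfold kk
  rw [M.symmetric]

/-- The standard basis vectors. -/
def e (i : B) : B → ℝ := Pi.single i 1

theorem eq_sum_e (c : B → ℝ) : c = ∑ j, c j • e j := by
  funext b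
  rw [Finset.sum_apply, Finset.sum_eq_single b]
  · simp [e]
  · intro k _ hk; simp [e, hk.symm]
  · intro h; exact absurd (Finset.mem_univ _) h

/-- The linear form `2 B(e i, ·)`. -/
noncomputable def fm (i : B) : Module.Dual ℝ (B → ℝ) :=
  ∑ j, (2 * kk M i j) • LinearMap.proj j

theorem fm_apply (i : B) (v : B → ℝ) : fm M i v = ∑ j, 2 * kk M i j * v j := by
  simp [fm, LinearMap.sum_apply]

theorem fm_e (i j : B) : fm M i (e j) = 2 * kk M i j := by
  rw [fm_apply, Finset.sum_eq_single j]
  · simp [e]
  · intro k _ hk; simp [e, hk]
  · intro h; exact absurd (Finset.mem_univ _) h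

theorem fm_self (i : B) : fm M i (e i) = 2 := by
  rw [fm_e, kk_self]; norm_num

/-- The reflection attached to `i`. -/
noncomputable def sg (i : B) : (B → ℝ) ≃ₗ[ℝ] (B → ℝ) := Module.reflection (fm_self M i)

theorem sg_apply (i : B) (v : B → ℝ) : sg M i v = v - fm M i v • e i := by
  unfold sg
  rw [Module.reflection_apply]

theorem sg_e_self (i : B) : sg M i (e i) = - e i := by
  rw [sg_apply, fm_self]; module

theorem sg_e (i j : B) : sg M i (e j) = e j - (2 * kk M i j) • e i := by
  rw [sg_apply, fm_e]

theorem sg_sg (i : B) : sg M i * sg M i = 1 := by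
  ext v : 1
  show sg M i (sg M i v) = v
  rw [sg_apply M i (sg M i v), sg_apply, map_sub, map_smul, fm_self]
  simp only [smul_eq_mul]
  module

/-- powers of the product of two reflections on the span of `e i`, `e j` -/
theorem pow_e_left (i j : B) (k : ℕ) :
    ((sg M i * sg M j) ^ k) (e i) =
      u (Real.cos (Real.pi / M i j)) (2 * k + 1) • e i
        + u (Real.cos (Real.pi / M i j)) (2 * k) • e j := by
  induction k with
  | zero => simp [u_zero, u_one]
  | succ k ih =>
    rw [pow_succ', LinearEquiv.mul_apply, ih, LinearEquiv.mul_apply]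
    have h1 : sg M j (e i) = e i + (2 * Real.cos (Real.pi / M i j)) • e j := by
      rw [sg_e, kk_symm]; unfold kk; module
    have h2 : sg M i (e j) = e j + (2 * Real.cos (Real.pi / M i j)) • e i := by
      rw [sg_e]; unfold kk; module
    simp only [map_add, map_smul, sg_e_self, h1, h2, map_neg]
    have e1 : 2 * (k + 1) + 1 = (2 * k + 1) + 2 := by ring
    have e2 : 2 * (k + 1) = (2 * k) + 2 := by ring
    rw [e1, e2, u_add_two, u_add_two]
    module

theorem pow_e_right (i j : B) (k : ℕ) :
    ((sg M i * sg M j) ^ (k + 1)) (e j) =
      - (u (Real.cos (Real.pi / M i j)) (2 * k + 2) • e i)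
        - u (Real.cos (Real.pi / M i j)) (2 * k + 1) • e j := by
  have h1 : sg M j (e i) = e i + (2 * Real.cos (Real.pi / M i j)) • e j := by
    rw [sg_e, kk_symm]; unfold kk; module
  have h2 : sg M i (e j) = e j + (2 * Real.cos (Real.pi / M i j)) • e i := by
    rw [sg_e]; unfold kk; module
  induction k with
  | zero =>
    simp only [zero_add, pow_one, LinearEquiv.mul_apply, mul_zero]
    rw [sg_e_self, map_neg, h2, u_add_two, u_one, u_zero]
    module
  | succ k ih =>
    rw [pow_succ', LinearEquiv.mul_apply, ih, LinearEquiv.mul_apply]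
    simp only [map_sub, map_smul, sg_e_self, h1, h2, map_neg, map_add]
    generalize Real.cos (Real.pi / M i j) = c at *
    have e1 : u c (2 * (k + 1) + 1) = 2 * c * u c (2 * k + 2) - u c (2 * k + 1) := rfl
    have e2 : u c (2 * (k + 1) + 2) = 2 * c * u c (2 * (k + 1) + 1) - u c (2 * k + 2) := rfl
    rw [e2, e1]
    module

theorem cos_sq_lt {m : ℕ} (hm : 2 ≤ m) : Real.cos (Real.pi / m) ^ 2 < 1 := by
  have h := sin_pi_div_pos hm
  have h2 := Real.sin_sq_add_cos_sq (Real.pi / m)
  nlinarith

theorem liftable : M.IsLiftable (sg M) := by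
  intro i j
  by_cases hij : i = j
  · subst hij
    rw [M.diagonal, pow_one, sg_sg]
  · rcases Nat.eq_zero_or_pos (M i j) with h0 | h0
    · rw [h0, pow_zero]
    · have hm : 2 ≤ M i j := by
        have := M.off_diagonal i j hij
        omega
      obtain ⟨m, hmm⟩ : ∃ m, M i j = m + 1 := ⟨M i j - 1, by omega⟩
      have hu0 := u_two_m hm
      have hu1 := u_two_m_add hm
      have hl := pow_e_left M i j (M i j)
      rw [hu0, hu1, one_smul, zero_smul, add_zero] at hl
      have hr := pow_e_right M i j m
      rw [← hmm] at hr
      have hu2 : u (Real.cos (Real.pi / M i j)) (2 * m + 2) = 0 := by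
        have : 2 * m + 2 = 2 * M i j := by omega
        rw [this]; exact hu0
      have hu3 : u (Real.cos (Real.pi / M i j)) (2 * m + 1) = -1 := by
        have h3 : u (Real.cos (Real.pi / M i j)) (2 * M i j + 1)
          = 2 * Real.cos (Real.pi / M i j) * u (Real.cos (Real.pi / M i j)) (2 * m + 2)
            - u (Real.cos (Real.pi / M i j)) (2 * m + 1) := by
          have : 2 * M i j + 1 = (2 * m + 1) + 2 := by omega
          rw [this, u_add_two]
        rw [hu1, hu2] at h3
        linarith
      rw [hu2, hu3] at hr
      have hr' : ((sg M i * sg M j) ^ (M i j)) (e j) = e j := by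
        rw [hr]; module
      have hc := cos_sq_lt hm
      set c := Real.cos (Real.pi / M i j) with hcdef
      have hkk : kk M i j = -c := rfl
      have hkk' : kk M j i = -c := by rw [kk_symm]; rfl
      ext v : 1
      rw [LinearEquiv.coe_one, id]
      -- decompose
      set a := (fm M i v + c * fm M j v) / (2 * (1 - c ^ 2)) with ha
      set b := (fm M j v + c * fm M i v) / (2 * (1 - c ^ 2)) with hb
      have hne : (1 - c ^ 2) ≠ 0 := by nlinarith
      set v' := v - a • e i - b • e j with hv'
      have h1 : fm M i v' = 0 := by
        rw [hv', map_sub, map_sub, map_smul, map_smul, fm_self, fm_e, hkk, ha, hb]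
        simp only [smul_eq_mul]
        field_simp
        ring
      have h2 : fm M j v' = 0 := by
        rw [hv', map_sub, map_sub, map_smul, map_smul, fm_self, fm_e, hkk', ha, hb]
        simp only [smul_eq_mul]
        field_simp
        ring
      have h3 : (sg M i * sg M j) v' = v' := by
        rw [LinearEquiv.mul_apply, sg_apply M j, h2, zero_smul, sub_zero, sg_apply, h1]
        simp
      have h4 : ∀ k : ℕ, ((sg M i * sg M j) ^ k) v' = v' := by
        intro k
        induction k with
        | zero => simp
        | succ k ih => rw [pow_succ', LinearEquiv.mul_apply, ih, h3]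
      have h5 : v = v' + a • e i + b • e j := by rw [hv']; module
      conv_lhs => rw [h5]
      rw [map_add, map_add, map_smul, map_smul, h4, hl, hr']
      exact h5.symm

end Geom

section Rep

set_option linter.unusedSectionVars false

variable {B : Type*} [Fintype B] [DecidableEq B] {M : CoxeterMatrix B} {W : Type*} [Group W]
  (cs : CoxeterSystem M W)

/-- The geometric representation. -/
noncomputable def rep : W →* ((B → ℝ) ≃ₗ[ℝ] (B → ℝ)) := cs.lift ⟨sg M, liftable M⟩

theorem rep_simple (i : B) : rep cs (cs.simple i) = sg M i :=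
  cs.lift_apply_simple (liftable M) i

theorem rep_mul (w w' : W) (v : B → ℝ) : rep cs (w * w') v = rep cs w (rep cs w' v) := by
  rw [map_mul]; rfl

theorem rep_one (v : B → ℝ) : rep cs 1 v = v := by
  rw [map_one]; rfl

open CoxeterSystem in
/-- the action of an alternating word on a simple root -/
theorem rep_alternating (s t : B) (p : ℕ) :
    rep cs (cs.wordProd (alternatingWord s t p)) (e s) =
      u (Real.cos (Real.pi / M s t)) (p + 1) • e (if Even p then s else t)
        + u (Real.cos (Real.pi / M s t)) p • e (if Even p then t else s) := by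
  have h1 : sg M t (e s) = e s + (2 * Real.cos (Real.pi / M s t)) • e t := by
    rw [sg_e, kk_symm]; unfold kk; module
  have h2 : sg M s (e t) = e t + (2 * Real.cos (Real.pi / M s t)) • e s := by
    rw [sg_e]; unfold kk; module
  generalize Real.cos (Real.pi / M s t) = c at *
  induction p with
  | zero => simp [alternatingWord, u_zero, u_one]
  | succ p ih =>
    rw [alternatingWord_succ', cs.wordProd_cons, rep_mul, ih, rep_simple, map_add, map_smul,
      map_smul]
    have e1 : u c (p + 1 + 1) = 2 * c * u c (p + 1) - u c p := rfl
    by_cases hp : Even p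
    · have hp' : ¬ Even (p + 1) := by
        rw [Nat.even_add_one]; exact fun h => h hp
      simp only [hp, hp', if_true, if_false]
      rw [h1, sg_e_self, e1]
      module
    · have hp' : Even (p + 1) := by
        rw [Nat.even_add_one]; exact hp
      simp only [hp, hp', if_true, if_false]
      rw [h2, sg_e_self, e1]
      module

open CoxeterSystem in
/-- Tits' theorem: if `ℓ (w s) > ℓ w` then `w (e s)` is a nonnegative combination of the simple
roots. -/
theorem rep_nonneg (w : W) (s : B) (h : cs.length w < cs.length (w * cs.simple s)) :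
    ∀ b, 0 ≤ rep cs w (e s) b := by
  classical
  induction hn : cs.length w using Nat.strong_induction_on generalizing w s with
  | _ n ih =>
    by_cases hw : w = 1
    · subst hw
      intro b
      rw [rep_one]
      unfold e
      by_cases hb : b = s
      · subst hb; simp
      · simp [hb]
    · obtain ⟨t, ht⟩ := cs.exists_rightDescent_of_ne_one hw
      have ht' : cs.length (w * cs.simple t) + 1 = cs.length w := by
        rcases cs.length_mul_simple w t with h1 | h1
        · unfold CoxeterSystem.IsRightDescent at ht; omega
        · exact h1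
      have hst : s ≠ t := by
        rintro rfl; omega
      let P : ℕ → Prop := fun p => ∃ v, w = v * cs.wordProd (alternatingWord s t p) ∧
        cs.length v + p = cs.length w
      have hP1 : P 1 := by
        refine ⟨w * cs.simple t, ?_, ht'⟩
        simp [alternatingWord]
      have hlen1 : 1 ≤ cs.length w := by omega
      set p := Nat.findGreatest P (cs.length w) with hpdef
      have hPp : P p := Nat.findGreatest_spec hlen1 hP1
      have hp1 : 1 ≤ p := Nat.le_findGreatest hlen1 hP1
      obtain ⟨v, hv, hvl⟩ := hPp
      have hnext : ¬ P (p + 1) := by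
        intro hcon
        have h1 : p + 1 ≤ cs.length w := by
          obtain ⟨_, _, h2⟩ := hcon
          omega
        have := Nat.le_findGreatest h1 hcon
        omega
      -- the letter extending the word
      have hx1 : cs.length (v * cs.simple (if Even p then t else s)) = cs.length v + 1 := by
        rcases cs.length_mul_simple v (if Even p then t else s) with h1 | h1
        · exact h1
        · exfalso
          apply hnext
          refine ⟨v * cs.simple (if Even p then t else s), ?_, by omega⟩
          rw [alternatingWord_succ', cs.wordProd_cons, ← mul_assoc, mul_assoc v,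
            cs.simple_mul_simple_self, mul_one]
          exact hv
      -- the first letter
      have hx2 : cs.length (v * cs.simple (if Even p then s else t)) = cs.length v + 1 := by
        rcases cs.length_mul_simple v (if Even p then s else t) with h1 | h1
        · exact h1
        · exfalso
          obtain ⟨q, hq⟩ : ∃ q, p = q + 1 := ⟨p - 1, by omega⟩
          have h2 : w = v * cs.simple (if Even p then s else t)
              * cs.wordProd (alternatingWord s t q) := by
            rw [hv, hq, alternatingWord_succ', cs.wordProd_cons, ← mul_assoc]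
            congr 3
            by_cases hqe : Even q
            · have : ¬ Even (q + 1) := by rw [Nat.even_add_one]; exact fun h => h hqe
              simp [hqe, this]
            · have : Even (q + 1) := by rw [Nat.even_add_one]; exact hqe
              simp [hqe, this]
          have h3 := cs.length_mul_le (v * cs.simple (if Even p then s else t))
            (cs.wordProd (alternatingWord s t q))
          rw [← h2] at h3
          have h4 := cs.length_wordProd_le (alternatingWord s t q)
          rw [length_alternatingWord] at h4
          omega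
      have hvs : cs.length v < cs.length (v * cs.simple s) := by
        by_cases hp : Even p
        · simp only [hp, if_true] at hx2; omega
        · simp only [hp, if_false] at hx1; omega
      have hvt : cs.length v < cs.length (v * cs.simple t) := by
        by_cases hp : Even p
        · simp only [hp, if_true] at hx1; omega
        · simp only [hp, if_false] at hx2; omega
      have hs := ih (cs.length v) (by omega) v s hvs rfl
      have htt := ih (cs.length v) (by omega) v t hvt rfl
      -- the bound on p
      have hbound : M s t = 0 ∨ p + 1 ≤ M s t := by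
        by_contra hcon
        push Not at hcon
        obtain ⟨h0, h1⟩ := hcon
        have h2 : ¬ cs.IsReduced (alternatingWord t s (p + 1)) := by
          apply cs.not_isReduced_alternatingWord
          · rw [M.symmetric]; exact h0
          · rw [M.symmetric]; omega
        have h3 := cs.length_wordProd_le (alternatingWord t s (p + 1))
        rw [length_alternatingWord] at h3
        have h4 : cs.length (cs.wordProd (alternatingWord t s (p + 1))) ≠ p + 1 := by
          intro h5
          apply h2
          unfold CoxeterSystem.IsReduced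
          rw [h5, length_alternatingWord]
        have h5 : w * cs.simple s = v * cs.wordProd (alternatingWord t s (p + 1)) := by
          rw [alternatingWord_succ, cs.wordProd_concat, hv, mul_assoc]
        have h6 := cs.length_mul_le v (cs.wordProd (alternatingWord t s (p + 1)))
        rw [← h5] at h6
        omega
      have hm1 : M s t ≠ 1 := M.off_diagonal s t hst
      have hu1 : 0 ≤ u (Real.cos (Real.pi / M s t)) (p + 1) := u_nonneg hm1 hbound
      have hu0 : 0 ≤ u (Real.cos (Real.pi / M s t)) p := by
        apply u_nonneg hm1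
        rcases hbound with h1 | h1
        · exact Or.inl h1
        · exact Or.inr (by omega)
      intro b
      rw [hv, rep_mul, rep_alternating, map_add, map_smul, map_smul]
      simp only [Pi.add_apply, Pi.smul_apply, smul_eq_mul]
      have g1 : 0 ≤ rep cs v (e (if Even p then s else t)) b := by
        by_cases hp : Even p
        · simp only [hp, if_true]; exact hs b
        · simp only [hp, if_false]; exact htt b
      have g2 : 0 ≤ rep cs v (e (if Even p then t else s)) b := by
        by_cases hp : Even p
        · simp only [hp, if_true]; exact htt b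
        · simp only [hp, if_false]; exact hs b
      positivity

theorem rep_nonpos (w : W) (s : B) (h : cs.length (w * cs.simple s) < cs.length w) :
    ∀ b, rep cs w (e s) b ≤ 0 := by
  intro b
  have h1 : cs.length (w * cs.simple s) < cs.length (w * cs.simple s * cs.simple s) := by
    rw [mul_assoc, cs.simple_mul_simple_self, mul_one]; exact h
  have h2 := rep_nonneg cs _ s h1 b
  rw [rep_mul, rep_simple, sg_e_self, map_neg, Pi.neg_apply] at h2
  linarith

theorem rep_faithful : Function.Injective (rep cs) := by
  rw [injective_iff_map_eq_one]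
  intro w hw
  by_contra hne
  obtain ⟨s, hs⟩ := cs.exists_rightDescent_of_ne_one hne
  have h1 := rep_nonpos cs w s hs s
  rw [hw] at h1
  have h2 : (1 : (B → ℝ) ≃ₗ[ℝ] (B → ℝ)) (e s) s = 1 := by simp [e]
  rw [h2] at h1
  linarith

/-- The invariant bilinear form of Tits. -/
noncomputable def bf (M : CoxeterMatrix B) (x y : B → ℝ) : ℝ := ∑ i, x i * fm M i y

theorem bf_add_left (x x' y : B → ℝ) : bf M (x + x') y = bf M x y + bf M x' y := by
  unfold bf
  rw [← Finset.sum_add_distrib]
  exact Finset.sum_congr rfl fun i _ => by rw [Pi.add_apply]; ring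

theorem bf_smul_left (c : ℝ) (x y : B → ℝ) : bf M (c • x) y = c * bf M x y := by
  unfold bf
  rw [Finset.mul_sum]
  exact Finset.sum_congr rfl fun i _ => by rw [Pi.smul_apply, smul_eq_mul]; ring

theorem bf_symm (x y : B → ℝ) : bf M x y = bf M y x := by
  unfold bf
  simp only [fm_apply, Finset.mul_sum]
  rw [Finset.sum_comm]
  refine Finset.sum_congr rfl fun i _ => Finset.sum_congr rfl fun j _ => ?_
  rw [kk_symm]; ring

theorem bf_e_left (i : B) (y : B → ℝ) : bf M (e i) y = fm M i y := by
  unfold bf
  rw [Finset.sum_eq_single i]
  · simp [e]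
  · intro k _ hk; simp [e, hk]
  · intro h; exact absurd (Finset.mem_univ _) h

theorem bf_e_right (i : B) (y : B → ℝ) : bf M y (e i) = fm M i y := by
  rw [bf_symm, bf_e_left]

theorem bf_sg (i : B) (x y : B → ℝ) : bf M (sg M i x) (sg M i y) = bf M x y := by
  have h1 : ∀ a b : B → ℝ, bf M (a - fm M i a • e i) b = bf M a b - fm M i a * fm M i b := by
    intro a b
    have : a - fm M i a • e i = a + (-(fm M i a)) • e i := by module
    rw [this, bf_add_left, bf_smul_left, bf_e_left]; ring
  rw [sg_apply, h1, bf_symm, sg_apply, h1, bf_symm]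
  rw [map_sub, map_smul, fm_self]
  simp only [smul_eq_mul]
  ring

theorem bf_rep (w : W) (x y : B → ℝ) : bf M (rep cs w x) (rep cs w y) = bf M x y := by
  induction w using cs.simple_induction_left with
  | one => rw [rep_one, rep_one]
  | mul_simple_left w i ih => rw [rep_mul, rep_mul, rep_simple, bf_sg, ih]

/-! ### The averaged inner product -/

/-- A copy of `B → ℝ` without norm. -/
def GV (B : Type*) := B → ℝ

instance : AddCommGroup (GV B) := inferInstanceAs (AddCommGroup (B → ℝ))

instance : Module ℝ (GV B) := inferInstanceAs (Module ℝ (B → ℝ))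

/-- The representation on `GV B`. -/
noncomputable def repG (w : W) : GV B ≃ₗ[ℝ] GV B := rep cs w

theorem repG_mul (w w' : W) (v : GV B) : repG cs (w * w') v = repG cs w (repG cs w' v) :=
  rep_mul cs w w' v

/-- The averaged inner product. -/
noncomputable def ip [Fintype W] (x y : GV B) : ℝ :=
  ∑ w : W, ∑ b : B, (repG cs w x : B → ℝ) b * (repG cs w y : B → ℝ) b

theorem ip_symm [Fintype W] (x y : GV B) : ip cs x y = ip cs y x := by
  unfold ip
  exact Finset.sum_congr rfl fun w _ => Finset.sum_congr rfl fun b _ => mul_comm _ _

theorem ip_add [Fintype W] (x x' y : GV B) : ip cs (x + x') y = ip cs x y + ip cs x' y := by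
  unfold ip
  rw [← Finset.sum_add_distrib]
  refine Finset.sum_congr rfl fun w _ => ?_
  rw [← Finset.sum_add_distrib]
  refine Finset.sum_congr rfl fun b _ => ?_
  rw [map_add]
  exact add_mul _ _ _

theorem ip_smul [Fintype W] (c : ℝ) (x y : GV B) : ip cs (c • x) y = c * ip cs x y := by
  unfold ip
  rw [Finset.mul_sum]
  refine Finset.sum_congr rfl fun w _ => ?_
  rw [Finset.mul_sum]
  refine Finset.sum_congr rfl fun b _ => ?_
  rw [map_smul]
  exact mul_assoc _ _ _

theorem ip_nonneg [Fintype W] (x : GV B) : 0 ≤ ip cs x x :=
  Finset.sum_nonneg fun _ _ => Finset.sum_nonneg fun _ _ => mul_self_nonneg _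

theorem ip_definite [Fintype W] (x : GV B) (h : ip cs x x = 0) : x = 0 := by
  have h0 : ∀ w ∈ (Finset.univ : Finset W),
      0 ≤ ∑ b : B, (repG cs w x : B → ℝ) b * (repG cs w x : B → ℝ) b :=
    fun _ _ => Finset.sum_nonneg fun _ _ => mul_self_nonneg _
  have h1 := (Finset.sum_eq_zero_iff_of_nonneg h0).mp h 1 (Finset.mem_univ _)
  have h2 := (Finset.sum_eq_zero_iff_of_nonneg (fun _ _ => mul_self_nonneg _)).mp h1
  funext b
  have h3 := mul_self_eq_zero.mp (h2 b (Finset.mem_univ _))
  have h4 : (repG cs 1 x : B → ℝ) = x := rep_one cs x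
  rw [h4] at h3
  exact h3

theorem ip_repG [Fintype W] (g : W) (x y : GV B) :
    ip cs (repG cs g x) (repG cs g y) = ip cs x y := by
  unfold ip
  refine Fintype.sum_equiv (Equiv.mulRight g) _ _ fun w => ?_
  simp only [Equiv.coe_mulRight, repG_mul]

/-- The core of the averaged inner product. -/
@[reducible] noncomputable def ipCore [Fintype W] : InnerProductSpace.Core ℝ (GV B) where
  inner := ip cs
  conj_inner_symm x y := by
    simp only [conj_trivial]
    exact ip_symm cs y x
  re_inner_nonneg x := by
    simpa using ip_nonneg cs x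
  add_left x y z := ip_add cs x y z
  smul_left x y r := by
    simp only [conj_trivial]
    exact ip_smul cs r x y
  definite x h := ip_definite cs x h

end Rep

end Tits

/-- Every finite Coxeter system has a root system in the sense of `RootSystemOf`. -/
theorem exists_rootSystem.{u, v} {B : Type u} {W : Type v} [Fintype B] [Group W] [Finite W]
    {M : CoxeterMatrix B} (cs : CoxeterSystem M W) :
    ∃ (V : Type u) (_ : NormedAddCommGroup V) (_ : InnerProductSpace ℝ V),
      Nonempty (RootSystemOf cs V) := by
  classical
  have : Fintype W := Fintype.ofFinite W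
  let core := Tits.ipCore cs
  let i1 : NormedAddCommGroup (Tits.GV B) := core.toNormedAddCommGroup
  let i2 : InnerProductSpace ℝ (Tits.GV B) := InnerProductSpace.ofCore core.toCore
  have hinner : ∀ x y : Tits.GV B, ⟪x, y⟫_ℝ = Tits.ip cs x y := fun _ _ => rfl
  have hinv : ∀ (w : W) (x y : Tits.GV B),
      ⟪Tits.repG cs w x, Tits.repG cs w y⟫_ℝ = ⟪x, y⟫_ℝ := fun w x y => by
    rw [hinner, hinner, Tits.ip_repG]
  have hnorm : ∀ (w : W) (x : Tits.GV B), ‖Tits.repG cs w x‖ = ‖x‖ := fun w x => by
    rw [@norm_eq_sqrt_real_inner, @norm_eq_sqrt_real_inner, hinv]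
  let al : B → Tits.GV B := fun i => (Tits.e i : B → ℝ)
  have hal : ∀ i, al i ≠ 0 := by
    intro i h
    have h1 := congrFun h i
    simp only [al, Tits.e] at h1
    erw [Pi.single_eq_same] at h1
    exact one_ne_zero h1
  have hsum : ∀ c : Tits.GV B, c = ∑ j, (c : B → ℝ) j • al j := by
    intro c
    exact Tits.eq_sum_e c
  have hsimple : ∀ i (v : Tits.GV B), Tits.repG cs (cs.simple i) v
      = v - (Tits.fm M i v) • al i := by
    intro i v
    have h1 := Tits.rep_simple cs i
    have h2 : Tits.rep cs (cs.simple i) v = Tits.sg M i v := by rw [h1]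
    exact h2.trans (Tits.sg_apply M i v)
  refine ⟨Tits.GV B, i1, i2, ⟨{
    ρ := { toFun := fun w => ⟨Tits.repG cs w, hnorm w⟩
           map_one' := by
             ext v : 1
             exact Tits.rep_one cs v
           map_mul' := by
             intro w w'
             ext v : 1
             exact Tits.repG_mul cs w w' v }
    faithful := ?_
    α := al
    linInd := ?_
    simple_apply := ?_
    pos_or_neg := ?_
    reduced := ?_ }⟩⟩
  · intro w w' h
    apply Tits.rep_faithful cs
    ext v : 1
    exact congrArg (fun f : Tits.GV B ≃ₗᵢ[ℝ] Tits.GV B => f v) h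
  · rw [Fintype.linearIndependent_iff]
    intro g hg i
    have h1 := hsum g
    rw [hg] at h1
    exact congrFun h1 i
  · intro i v
    show Tits.repG cs (cs.simple i) v = _
    rw [hsimple]
    have h1 := hinv (cs.simple i) v (al i)
    have h2 : Tits.repG cs (cs.simple i) (al i) = - al i := by
      rw [hsimple]
      have : Tits.fm M i (al i) = 2 := Tits.fm_self M i
      rw [this]; module
    rw [h2, hsimple, inner_sub_left, inner_neg_right, inner_neg_right, inner_smul_left] at h1
    simp only [conj_trivial] at h1
    have h3 : ⟪al i, al i⟫_ℝ ≠ 0 := by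
      rw [Ne, inner_self_eq_zero]; exact hal i
    have h4 : Tits.fm M i v = 2 * ⟪v, al i⟫_ℝ / ⟪al i, al i⟫_ℝ := by
      rw [eq_div_iff h3]; linarith
    rw [h4]
  · intro w i
    rcases cs.length_mul_simple w i with h | h
    · left
      refine ⟨fun j => (Tits.repG cs w (al i) : B → ℝ) j, ?_, hsum _⟩
      exact Tits.rep_nonneg cs w i (by omega)
    · right
      refine ⟨fun j => - (Tits.repG cs w (al i) : B → ℝ) j, ?_, ?_⟩
      · intro j
        have := Tits.rep_nonpos cs w i (by omega) j
        have h2 : (Tits.repG cs w (al i) : B → ℝ) j ≤ 0 := this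
        linarith
      · simp only [neg_smul, Finset.sum_neg_distrib, neg_neg]
        exact hsum _
  · intro w i j c h
    have h1 : Tits.rep cs w (Tits.e i) = c • Tits.e j := h
    have h2 := Tits.bf_rep cs w (Tits.e i) (Tits.e i)
    rw [h1, Tits.bf_smul_left, Tits.bf_symm, Tits.bf_smul_left, Tits.bf_e_left,
      Tits.bf_e_left, Tits.fm_self, Tits.fm_self] at h2
    have h3 : (c - 1) * (c + 1) = 0 := by nlinarith
    rcases mul_eq_zero.mp h3 with h4 | h4
    · left; linarith
    · right; linarith

end Pool.Agent.SubwordFlip
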