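import Pool.Agent.SubwordFlip.Identity

open scoped InnerProductSpace

set_option linter.unusedSectionVars false

namespace Pool.Agent.SubwordFlip

variable {B W V : Type*} [Fintype B] [Group W] {M : CoxeterMatrix B} {cs : CoxeterSystem M W}
  [NormedAddCommGroup V] [InnerProductSpace ℝ V]

namespace RootSystemOf

variable (R : RootSystemOf cs V)

/-- sum of the coordinates -/
noncomputable def ht (v : V) : ℝ := ∑ s, R.coef v s

theorem ht_smul (c : ℝ) (v : V) : R.ht (c • v) = c * R.ht v := by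
  unfold ht
  rw [Finset.mul_sum]
  apply Finset.sum_congr rfl
  intro s _
  rw [map_smul, Pi.smul_apply, smul_eq_mul]

theorem ht_sum {ι : Type*} (A : Finset ι) (f : ι → V) : R.ht (∑ k ∈ A, f k) = ∑ k ∈ A, R.ht (f k) := by
  unfold ht
  rw [Finset.sum_comm]
  apply Finset.sum_congr rfl
  intro s _
  rw [map_sum, Finset.sum_apply]

theorem ht_pos {v : V} (hv : v ∈ R.posRoots) : 0 < R.ht v := by
  have h0 : 0 ≤ R.ht v := Finset.sum_nonneg (fun s _ => R.coef_nonneg hv s)
  rcases h0.lt_or_eq with h | h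
  · exact h
  · exfalso
    apply R.root_ne hv.1
    have h1 : ∀ s ∈ Finset.univ, R.coef v s = 0 :=
      (Finset.sum_eq_zero_iff_of_nonneg (fun s _ => R.coef_nonneg hv s)).mp h.symm
    rw [R.root_eq_sum hv.1]
    apply Finset.sum_eq_zero
    intro s hs
    rw [h1 s hs, zero_smul]

/-- contacts between the two positions of an extremal flip make a nonacute angle with `β` -/
theorem extremal_contacts {m : ℕ} {Q : Fin m → B} (hQ : Alternating cs Q) {ω : W}
    {I : Finset (Fin m)} {i j : Fin m}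
    (hI : IsFacet cs Q ω I) (hi : i ∈ I) (hj : j ∉ I) (hlt : i < j)
    (hr : R.rootFn Q I i = R.rootFn Q I j) {π : W} (hπ : π ∈ R.linExt Q I)
    (hext : SpansExtremeRay (R.cone Q I) (R.rootFn Q I i)) {k₀ : Fin m} (hk₀ : k₀ ∈ I)
    (hk1 : i < k₀) (hk2 : k₀ < j) (hne : R.rootFn Q I k₀ ≠ R.rootFn Q I i) :
    inner ℝ (R.rootFn Q I k₀) (R.rootFn Q I i) ≤ 0 := by
  classical
  obtain ⟨β, hβ⟩ : ∃ β, β = R.rootFn Q I i := ⟨_, rfl⟩
  have hβpos : β ∈ R.posRoots := by rw [hβ, hr]; exact R.rootFn_pos_of_facet hI hj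
  obtain ⟨N, hN⟩ := R.key_identity hQ hI hi hj hlt hr
  rw [← hβ] at hN hext hne ⊢
  rw [mem_linExt] at hπ
  -- positivity of `P_k⁻¹ β`
  have hb : ∀ k : Fin m, k < j → R.ρ (pre cs Q I k.val)⁻¹ β ∈ R.posRoots := by
    intro k hk
    rw [← R.not_mem_Inv hβpos]
    intro h
    have h1 := R.Inv_pre_mono hI (a := k.val) (b := j.val) (le_of_lt hk) j.isLt.le h
    rw [hβ, hr, rootFn_eq] at h1
    exact R.rho_alpha_not_mem_Inv h1
  have hθ : ∀ k : Fin m, k < j → 0 ≤ R.theta Q I β k := fun k hk => R.coef_nonneg (hb k hk) _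
  set A := (between i j.val).filter (fun k => k ∈ I) with hA
  have hAmem : ∀ k, k ∈ A ↔ (i < k ∧ k < j) ∧ k ∈ I := by
    intro k
    rw [hA]
    simp only [between, Finset.mem_filter, Finset.mem_univ, true_and]
    rfl
  have hN0 : 0 ≤ N := by
    have h1 : R.ht (R.ρ π⁻¹ (∑ k ∈ A, R.theta Q I β k • R.rootFn Q I k))
        = N * R.ht (R.ρ π⁻¹ β) := by
      rw [hN, map_smul, ht_smul]
    rw [map_sum, ht_sum] at h1
    have h2 : 0 < R.ht (R.ρ π⁻¹ β) := by
      rw [hβ]; exact R.ht_pos (hπ i hi)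
    have h3 : 0 ≤ ∑ k ∈ A, R.ht (R.ρ π⁻¹ (R.theta Q I β k • R.rootFn Q I k)) := by
      apply Finset.sum_nonneg
      intro k hk
      rw [hAmem] at hk
      rw [map_smul, ht_smul]
      exact mul_nonneg (hθ k hk.1.2) (R.ht_pos (hπ k hk.2)).le
    rw [h1] at h3
    exact nonneg_of_mul_nonneg_left h3 h2
  have hk₀A : k₀ ∈ A := (hAmem k₀).mpr ⟨⟨hk1, hk2⟩, hk₀⟩
  rw [← Finset.add_sum_erase A _ hk₀A] at hN
  have hAI : A ⊆ I := fun k hk => ((hAmem k).mp hk).2
  have hcone1 : R.theta Q I β k₀ • R.rootFn Q I k₀ ∈ R.cone Q I := by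
    refine ⟨fun k => if k = k₀ then R.theta Q I β k₀ else 0, ?_, ?_⟩
    · intro k
      simp only
      split_ifs
      · exact hθ k₀ hk2
      · exact le_rfl
    · rw [Finset.sum_eq_single_of_mem k₀ hk₀]
      · simp
      · intro k _ hk
        simp [hk]
  have hcone2 : ∑ k ∈ A.erase k₀, R.theta Q I β k • R.rootFn Q I k ∈ R.cone Q I := by
    refine ⟨fun k => if k ∈ A.erase k₀ then R.theta Q I β k else 0, ?_, ?_⟩
    · intro k
      simp only
      split_ifs with h
      · exact hθ k ((hAmem k).mp (Finset.mem_of_mem_erase h)).1.2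
      · exact le_rfl
    · rw [← Finset.sum_subset (s₁ := A.erase k₀) (s₂ := I)
        ((Finset.erase_subset _ _).trans hAI)]
      · apply Finset.sum_congr rfl
        intro k hk
        simp only [if_pos hk]
      · intro k _ hk
        simp only [if_neg hk, zero_smul]
  obtain ⟨⟨t, ht0, ht⟩, _⟩ := hext.2.2 _ hcone1 _ hcone2 ⟨N, hN0, hN⟩
  have hθ0 : R.theta Q I β k₀ = 0 := by
    by_contra hne0
    have h1 : R.rootFn Q I k₀ = (t / R.theta Q I β k₀) • β := by
      rw [div_eq_inv_mul, ← smul_smul, ← ht, smul_smul, inv_mul_cancel₀ hne0, one_smul]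
    have h2 : 0 ≤ t / R.theta Q I β k₀ := div_nonneg ht0 (hθ k₀ hk2)
    rcases R.eq_of_smul (R.rootFn_mem Q I k₀) hβpos.1 h1 with h3 | h3
    · rw [h3, one_smul] at h1; exact hne h1
    · rw [h3] at h2; linarith
  -- the inner product
  have hb0 := hb k₀ hk2
  have h1 : inner ℝ (R.rootFn Q I k₀) β
      = inner ℝ (R.α (Q k₀)) (R.ρ (pre cs Q I k₀.val)⁻¹ β) := by
    rw [← R.inner_rho (pre cs Q I k₀.val) (R.α (Q k₀)), rho_rho_inv, ← rootFn_eq]
  rw [h1, R.root_eq_sum hb0.1, inner_sum]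
  apply Finset.sum_nonpos
  intro s _
  rw [real_inner_smul_right]
  by_cases hs : s = Q k₀
  · have : R.coef (R.ρ (pre cs Q I k₀.val)⁻¹ β) s = 0 := by rw [hs]; exact hθ0
    rw [this, zero_mul]
  · exact mul_nonpos_of_nonneg_of_nonpos (R.coef_nonneg hb0 s)
      (R.inner_alpha_nonpos (Ne.symm hs))

/-- the data of a flip between two facets -/
theorem flip_data {m : ℕ} {Q : Fin m → B} {ω : W} {I J : Finset (Fin m)} {i j : Fin m}
    (hI : IsFacet cs Q ω I) (hJ : IsFacet cs Q ω J) (hi : i ∈ I) (hj : j ∈ J) (hlt : i < j)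
    (he : I.erase i = J.erase j) :
    j ∉ I ∧ i ∉ J ∧ IsSwap I J i j ∧ J = insert j (I.erase i) ∧
      R.rootFn Q I i = R.rootFn Q I j := by
  have hne : i ≠ j := ne_of_lt hlt
  have hjI : j ∉ I := by
    intro h
    have : j ∈ I.erase i := Finset.mem_erase.mpr ⟨Ne.symm hne, h⟩
    rw [he] at this
    exact (Finset.mem_erase.mp this).1 rfl
  have hiJ : i ∉ J := by
    intro h
    have : i ∈ J.erase j := Finset.mem_erase.mpr ⟨hne, h⟩
    rw [← he] at this
    exact (Finset.mem_erase.mp this).1 rfl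
  have hJe : J = insert j (I.erase i) := by
    rw [he, Finset.insert_erase hj]
  have hsw : IsSwap I J i j := by rw [hJe]; exact isSwap_up hi hjI hlt
  refine ⟨hjI, hiJ, hsw, hJe, ?_⟩
  have htail : ∀ k : Fin m, j.val + 1 ≤ k.val → (k ∈ I ↔ k ∈ J) := by
    intro k hk
    rw [Fin.lt_def] at hlt
    exact (hsw.other k (by rintro rfl; omega) (by rintro rfl; omega)).symm
  have h1 := pre_eq_of_tail (cs := cs) (Q := Q) j.isLt htail
    (by rw [(isFacet_iff.mp hI).1, (isFacet_iff.mp hJ).1])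
  simp only [Nat.succ_eq_add_one] at h1
  rw [pre_succ_mem Q hj, pre_succ_not_mem Q hjI, hsw.pre_mid hlt le_rfl] at h1
  have h2 : reflAt cs Q I i = reflAt cs Q I j := by
    have : reflAt cs Q I i * pre cs Q I j.val = reflAt cs Q I j * pre cs Q I j.val := by
      rw [reflAt_mul_pre, h1]
    exact mul_right_cancel this
  have h3 := R.rho_reflAt_self Q I i
  rw [h2, rho_reflAt] at h3
  obtain ⟨c, hc⟩ : ∃ c, c = 2 * inner ℝ (R.rootFn Q I i) (R.rootFn Q I j) /
    inner ℝ (R.rootFn Q I j) (R.rootFn Q I j) := ⟨_, rfl⟩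
  rw [← hc] at h3
  have h4 : R.rootFn Q I i = (c / 2) • R.rootFn Q I j := by
    have h5 : (2:ℝ) • R.rootFn Q I i = c • R.rootFn Q I j := by
      rw [two_smul]
      have := sub_eq_iff_eq_add.mp h3
      rw [← sub_eq_iff_eq_add'] at this
      rw [← this]; abel
    have h6 : R.rootFn Q I i = (1/2:ℝ) • ((2:ℝ) • R.rootFn Q I i) := by
      rw [smul_smul]; norm_num
    rw [h6, h5, smul_smul]; congr 1; ring
  rcases R.eq_of_smul (R.rootFn_mem Q I i) (R.rootFn_mem Q I j) h4 with h5 | h5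
  · rw [h5, one_smul] at h4; exact h4
  · exfalso
    rw [h5, neg_smul, one_smul] at h4
    have h6 : R.rootFn Q I i ∈ R.posRoots := by
      rw [← R.swap_rootFn_le hsw le_rfl]
      exact R.rootFn_pos_of_facet hJ hiJ
    have h7 := R.rootFn_pos_of_facet hI hjI
    rw [h4] at h6
    exact R.not_neg_of_pos h7 h6

/-- An extremal increasing flip between strongly acyclic facets is realised by a cover of the weak
order inside `[e, ω]`. -/
theorem exists_arc {m : ℕ} {Q : Fin m → B} (hQ : Alternating cs Q) {ω : W}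
    {I J : Finset (Fin m)} (hI : R.StronglyAcyclic Q ω I) (hJ : R.StronglyAcyclic Q ω J)
    (hflip : R.ExtremalFlip Q I J) :
    ∃ x s, x ∈ R.linExt Q I ∧ R.ρ x (R.α s) ∈ R.posRoots ∧
      R.Inv (x * cs.simple s) ⊆ R.Inv ω ∧ x * cs.simple s ∈ R.linExt Q J := by
  classical
  obtain ⟨hIf, x₀, hx₀, hx₀ω⟩ := hI
  obtain ⟨hJf, y₀, hy₀, hy₀ω⟩ := hJ
  obtain ⟨i, hi, j, hj, hlt, he, hext⟩ := hflip
  obtain ⟨hjI, hiJ, hsw, hJe, hr⟩ := R.flip_data hIf hJf hi hj hlt he
  -- a pair at minimal distance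
  have hex : ∃ n, ∃ x y, x ∈ R.linExt Q I ∧ R.Inv x ⊆ R.Inv ω ∧ y ∈ R.linExt Q J ∧
      R.Inv y ⊆ R.Inv ω ∧ cs.length (y⁻¹ * x) = n := ⟨_, x₀, y₀, hx₀, hx₀ω, hy₀, hy₀ω, rfl⟩
  obtain ⟨x, y, hx, hxω, hy, hyω, hlen⟩ := Nat.find_spec hex
  have hmin := fun n (hn : n < Nat.find hex) => Nat.find_min hex hn
  obtain ⟨β, hβ⟩ : ∃ β, β = R.rootFn Q I i := ⟨_, rfl⟩
  have hJj : R.rootFn Q J j = - β := by
    rw [R.swap_rootFn_mid hsw hlt le_rfl, ← hr, rho_reflAt_self, hβ]
  have hxl := R.mem_linExt.mp hx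
  have hyl := R.mem_linExt.mp hy
  have hyβ : - R.ρ y⁻¹ β ∈ R.posRoots := by
    have := hyl j hj
    rwa [hJj, map_neg] at this
  have hxβ : R.ρ x⁻¹ β ∈ R.posRoots := by rw [hβ]; exact hxl i hi
  have hne : y⁻¹ * x ≠ 1 := by
    intro h
    have h1 : y = x := inv_mul_eq_one.mp h
    rw [h1] at hyβ
    exact R.not_neg_of_pos hxβ hyβ
  obtain ⟨s, hs⟩ := R.exists_neg_of_ne_one hne
  rw [rho_mul] at hs
  have hroot : R.ρ x (R.α s) ∈ R.roots := R.mem_roots_rho (R.alpha_mem s) _
  -- `x s` is again in the interval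
  have hxsω : R.Inv (x * cs.simple s) ⊆ R.Inv ω := by
    rcases R.pos_or_neg' hroot with h | h
    · rw [R.Inv_mul_simple h]
      exact Set.insert_subset (hyω (R.mem_Inv.mpr ⟨h, hs⟩)) hxω
    · have h3 : R.ρ (x * cs.simple s) (R.α s) = - R.ρ x (R.α s) := by
        rw [rho_mul, simple_alpha, map_neg]
      have h4 := R.Inv_mul_simple (w := x * cs.simple s) (i := s) (by rw [h3]; exact h)
      rw [mul_assoc, cs.simple_mul_simple_self, mul_one] at h4
      rw [h4] at hxω
      exact (Set.subset_insert _ _).trans hxω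
  have hlen2 : cs.length (y⁻¹ * (x * cs.simple s)) < Nat.find hex := by
    rw [← hlen, ← mul_assoc]
    have := R.length_of_neg (w := y⁻¹ * x) (i := s) (by rw [rho_mul]; exact hs)
    omega
  have hnot : x * cs.simple s ∉ R.linExt Q I := by
    intro h
    exact hmin _ hlen2 ⟨_, y, h, hxsω, hy, hyω, rfl⟩
  have hex2 : ∃ k ∈ I, R.rootFn Q I k = R.ρ x (R.α s) := by
    by_contra hcon
    push Not at hcon
    exact hnot (R.linExt_step hx hcon)
  obtain ⟨k, hk, hkr⟩ := hex2
  by_cases hkβ : R.ρ x (R.α s) = β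
  · -- the separating wall is `β`
    refine ⟨x, s, hx, ?_, hxsω, ?_⟩
    · rw [hkβ, hβ, hr]
      exact R.rootFn_pos_of_facet hIf hjI
    · have hfirst : ∀ l ∈ I, l < i → R.rootFn Q I l ≠ R.ρ x (R.α s) := by
        intro l hl hli heq
        have hlJ : l ∈ J :=
          (hsw.other l (ne_of_lt hli) (ne_of_lt (hli.trans hlt))).mpr hl
        have h1 := hyl l hlJ
        rw [R.swap_rootFn_le hsw hli.le, heq, hkβ] at h1
        exact R.not_neg_of_pos h1 hyβ
      have hinv : R.ρ x (R.α s) ∈ R.Inv ω := by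
        rw [hkβ, hβ, hr]
        exact R.rootFn_mem_Inv' hIf hjI
      obtain ⟨j', hj', _, hj'r, _, h5⟩ := R.flip_up hIf hx hinv hi (by rw [hkβ, hβ]) hfirst
      have hjj : j' = j := by
        apply R.crossing_inj hIf hjI hj'
        rw [hj'r, hkβ, hβ, hr]
      rw [hjj, ← hJe] at h5
      exact h5
  · exfalso
    have hki : k ≠ i := by
      rintro rfl
      apply hkβ
      rw [← hkr, hβ]
    have hkj : k ≠ j := by rintro rfl; exact hjI hk
    have hkJ : k ∈ J := (hsw.other k hki hkj).mpr hk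
    have h1 := hyl k hkJ
    have hneq : R.rootFn Q J k ≠ R.ρ x (R.α s) := by
      intro h
      rw [h] at h1
      exact R.not_neg_of_pos h1 hs
    have hik : i < k := by
      rcases lt_or_gt_of_ne hki with h | h
      · exact absurd (by rw [R.swap_rootFn_le hsw h.le, hkr]) hneq
      · exact h
    have hkj' : k < j := by
      rcases lt_or_gt_of_ne hkj with h | h
      · exact h
      · exact absurd (by rw [R.swap_rootFn_gt hsw (Or.inl hr) h, hkr]) hneq
    have h2 := R.extremal_contacts hQ hIf hi hjI hlt hr hx hext hk hik hkj'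
      (by rw [hkr, ← hβ]; exact hkβ)
    rw [R.swap_rootFn_mid hsw hik hkj'.le, rho_reflAt, hkr, ← hβ] at h1
    rw [hkr, ← hβ] at h2
    obtain ⟨c, hc⟩ : ∃ c, c = 2 * inner ℝ (R.ρ x (R.α s)) β / inner ℝ β β := ⟨_, rfl⟩
    have hc0 : c ≤ 0 := by
      rw [hc]
      have h3 : 0 < inner ℝ β β := by rw [hβ]; exact R.inner_rootFn_pos Q I i
      apply div_nonpos_of_nonpos_of_nonneg _ h3.le
      linarith
    rw [← hc, map_sub, map_smul] at h1
    have h4 : ∀ t, R.coef (R.ρ y⁻¹ (R.ρ x (R.α s)) - c • R.ρ y⁻¹ β) t ≤ 0 := by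
      intro t
      rw [map_sub, map_smul, Pi.sub_apply, Pi.smul_apply, smul_eq_mul]
      have e1 := R.coef_nonneg hs t
      have e2 := R.coef_nonneg hyβ t
      rw [map_neg, Pi.neg_apply] at e1 e2
      nlinarith
    have h5 : R.ht (R.ρ y⁻¹ (R.ρ x (R.α s)) - c • R.ρ y⁻¹ β) ≤ 0 :=
      Finset.sum_nonpos (fun t _ => h4 t)
    have h6 := R.ht_pos h1
    linarith

/-- Conversely, a cover of the weak order inside `[e, ω]` between linear extensions of different
facets comes from an extremal increasing flip. -/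
theorem arc_converse {m : ℕ} {Q : Fin m → B} {ω : W}
    {I J : Finset (Fin m)} (hI : IsFacet cs Q ω I) (hJ : IsFacet cs Q ω J) (hne : I ≠ J)
    {x : W} {s : B} (hx : x ∈ R.linExt Q I) (hpos : R.ρ x (R.α s) ∈ R.posRoots)
    (hω : R.Inv (x * cs.simple s) ⊆ R.Inv ω) (hxs : x * cs.simple s ∈ R.linExt Q J) :
    R.ExtremalFlip Q I J := by
  classical
  have hinv : R.ρ x (R.α s) ∈ R.Inv ω := hω (by
    rw [R.Inv_mul_simple hpos]; exact Set.mem_insert _ _)
  have hex : ∃ k ∈ I, R.rootFn Q I k = R.ρ x (R.α s) := by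
    by_contra hcon
    push Not at hcon
    exact hne (R.unique_facet _ hω hI hJ (R.linExt_step hx hcon) hxs)
  obtain ⟨i, hi, hir, hfirst⟩ := R.exists_first hex
  obtain ⟨j, hj, hlt, hjr, hF, hL⟩ := R.flip_up hI hx hinv hi hir hfirst
  have hJe := R.unique_facet _ hω hF hJ hL hxs
  have hji : j ∉ I.erase i := fun h => hj (Finset.mem_of_mem_erase h)
  refine ⟨i, hi, j, by rw [← hJe]; exact Finset.mem_insert_self _ _, hlt, ?_, ?_⟩
  · rw [← hJe, Finset.erase_insert hji]
  · have hxl := R.mem_linExt.mp hx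
    -- every element of the cone is a nonnegative combination of the roots `x (α t)`
    have hcone : ∀ a ∈ R.cone Q I, (∀ t, 0 ≤ R.coef (R.ρ x⁻¹ a) t) ∧
        R.ρ x⁻¹ a = ∑ t, R.coef (R.ρ x⁻¹ a) t • R.α t := by
      rintro a ⟨c, hc, rfl⟩
      constructor
      · intro t
        rw [map_sum, map_sum, Finset.sum_apply]
        apply Finset.sum_nonneg
        intro k hk
        rw [map_smul, map_smul, Pi.smul_apply, smul_eq_mul]
        exact mul_nonneg (hc k) (R.coef_nonneg (hxl k hk) t)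
      · rw [map_sum, map_sum]
        have : ∀ k ∈ I, R.ρ x⁻¹ (c k • R.rootFn Q I k)
            = ∑ t, R.coef (R.ρ x⁻¹ (c k • R.rootFn Q I k)) t • R.α t := by
          intro k hk
          rw [map_smul]
          conv_lhs => rw [R.root_eq_sum (hxl k hk).1]
          rw [Finset.smul_sum]
          apply Finset.sum_congr rfl
          intro t _
          rw [map_smul, Pi.smul_apply, smul_eq_mul, smul_smul]
        rw [Finset.sum_congr rfl this, Finset.sum_comm]
        apply Finset.sum_congr rfl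
        intro t _
        rw [Finset.sum_apply, Finset.sum_smul]
    refine ⟨R.root_ne (R.rootFn_mem Q I i), ?_, ?_⟩
    · refine ⟨fun k => if k = i then 1 else 0, ?_, ?_⟩
      · intro k; simp only; split_ifs <;> norm_num
      · rw [Finset.sum_eq_single_of_mem i hi]
        · simp
        · intro k _ hk; simp [hk]
    · intro a ha b hb hab
      obtain ⟨t, ht0, ht⟩ := hab
      have key : ∀ a ∈ R.cone Q I, ∀ b ∈ R.cone Q I, a + b = t • R.rootFn Q I i →
          ∃ t' : ℝ, 0 ≤ t' ∧ a = t' • R.rootFn Q I i := by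
        intro a ha b hb ht
        obtain ⟨ha1, ha2⟩ := hcone a ha
        obtain ⟨hb1, _⟩ := hcone b hb
        refine ⟨R.coef (R.ρ x⁻¹ a) s, ha1 s, ?_⟩
        have h1 : R.ρ x⁻¹ a = R.coef (R.ρ x⁻¹ a) s • R.α s := by
          conv_lhs => rw [ha2]
          rw [Finset.sum_eq_single s]
          · intro t' _ hts
            have h2 : R.coef (R.ρ x⁻¹ (a + b)) t' = 0 := by
              rw [ht, map_smul, hir, rho_inv_rho, map_smul, Pi.smul_apply,
                R.coef_alpha_ne hts, smul_zero]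
            rw [map_add, map_add, Pi.add_apply] at h2
            have h3 : R.coef (R.ρ x⁻¹ a) t' = 0 := by
              have := ha1 t'
              have := hb1 t'
              linarith
            rw [h3, zero_smul]
          · intro h; exact absurd (Finset.mem_univ _) h
        calc a = R.ρ x (R.ρ x⁻¹ a) := (R.rho_rho_inv x a).symm
          _ = R.ρ x (R.coef (R.ρ x⁻¹ a) s • R.α s) := congrArg (R.ρ x) h1
          _ = R.coef (R.ρ x⁻¹ a) s • R.rootFn Q I i := by rw [map_smul, hir]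
      exact ⟨key a ha b hb ht, key b hb a ha (by rw [add_comm]; exact ht)⟩

end RootSystemOf

end Pool.Agent.SubwordFlip
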