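import Pool.Agent.SubwordFlip.Defs

open scoped InnerProductSpace

namespace Pool.Agent.SubwordFlip

variable {B W V : Type*} [Fintype B] [Group W] {M : CoxeterMatrix B} {cs : CoxeterSystem M W}
  [NormedAddCommGroup V] [InnerProductSpace ℝ V]

namespace RootSystemOf

variable (R : RootSystemOf cs V)

theorem rho_mul (u w : W) (v : V) : R.ρ (u * w) v = R.ρ u (R.ρ w v) := by
  rw [map_mul]; rfl

theorem rho_one (v : V) : R.ρ 1 v = v := by
  rw [map_one]; rfl

theorem rho_inv_rho (w : W) (v : V) : R.ρ w⁻¹ (R.ρ w v) = v := by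
  rw [← rho_mul, inv_mul_cancel, rho_one]

theorem rho_rho_inv (w : W) (v : V) : R.ρ w (R.ρ w⁻¹ v) = v := by
  rw [← rho_mul, mul_inv_cancel, rho_one]

theorem inner_rho (w : W) (u v : V) : inner ℝ (R.ρ w u) (R.ρ w v) = inner ℝ u v :=
  (R.ρ w).inner_map_map u v

theorem alpha_ne (i : B) : R.α i ≠ 0 := R.linInd.ne_zero i

theorem inner_alpha_pos (i : B) : 0 < inner ℝ (R.α i) (R.α i) :=
  real_inner_self_pos.mpr (R.alpha_ne i)

theorem simple_alpha (i : B) : R.ρ (cs.simple i) (R.α i) = - R.α i := by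
  rw [R.simple_apply]
  have h := (R.inner_alpha_pos i).ne'
  rw [mul_div_assoc, div_self h]
  module

theorem simple_simple (i : B) (v : V) : R.ρ (cs.simple i) (R.ρ (cs.simple i) v) = v := by
  rw [← rho_mul, cs.simple_mul_simple_self, rho_one]

/-- existence of coordinates -/
theorem exists_coef : ∃ f : V →ₗ[ℝ] (B → ℝ), ∀ c : B → ℝ, f (∑ j, c j • R.α j) = c := by
  classical
  obtain ⟨g, hg⟩ := (Finsupp.linearCombination ℝ R.α).exists_leftInverse_of_injective
    (LinearMap.ker_eq_bot.mpr R.linInd)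
  refine ⟨(Finsupp.linearEquivFunOnFinite ℝ ℝ B).toLinearMap ∘ₗ g, fun c => ?_⟩
  have h1 : ∑ j, c j • R.α j
      = Finsupp.linearCombination ℝ R.α ((Finsupp.linearEquivFunOnFinite ℝ ℝ B).symm c) := by
    rw [Finsupp.linearCombination_apply, Finsupp.sum_fintype _ _ (by simp)]
    rfl
  rw [h1]
  have h2 := LinearMap.congr_fun hg ((Finsupp.linearEquivFunOnFinite ℝ ℝ B).symm c)
  simp only [LinearMap.comp_apply, LinearMap.id_apply] at h2
  simp only [LinearMap.comp_apply, LinearEquiv.coe_coe]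
  rw [h2]
  simp

/-- coordinates with respect to the simple roots -/
noncomputable def coef : V →ₗ[ℝ] (B → ℝ) := Classical.choose R.exists_coef

theorem coef_sum (c : B → ℝ) : R.coef (∑ j, c j • R.α j) = c :=
  Classical.choose_spec R.exists_coef c

theorem coef_alpha [DecidableEq B] (i : B) : R.coef (R.α i) = Pi.single i 1 := by
  have : R.α i = ∑ j, (Pi.single i (1:ℝ) : B → ℝ) j • R.α j := by
    rw [Finset.sum_eq_single i]
    · simp
    · intro b _ hb; simp [hb]
    · intro h; exact absurd (Finset.mem_univ _) h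
  rw [this, coef_sum]

theorem coef_alpha_self (i : B) : R.coef (R.α i) i = 1 := by
  classical
  rw [coef_alpha]; simp

theorem coef_alpha_ne {i j : B} (h : j ≠ i) : R.coef (R.α i) j = 0 := by
  classical
  rw [coef_alpha]; simp [h]

theorem mem_roots_rho {v : V} (hv : v ∈ R.roots) (w : W) : R.ρ w v ∈ R.roots := by
  obtain ⟨u, i, rfl⟩ := hv
  exact ⟨w * u, i, by rw [rho_mul]⟩

theorem alpha_mem (i : B) : R.α i ∈ R.roots := ⟨1, i, by rw [rho_one]⟩

theorem neg_mem_roots {v : V} (hv : v ∈ R.roots) : -v ∈ R.roots := by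
  obtain ⟨u, i, rfl⟩ := hv
  exact ⟨u * cs.simple i, i, by rw [rho_mul, simple_alpha, map_neg]⟩

theorem root_ne {v : V} (hv : v ∈ R.roots) : v ≠ 0 := by
  obtain ⟨u, i, rfl⟩ := hv
  intro h
  have := R.rho_inv_rho u (R.α i)
  rw [h, map_zero] at this
  exact R.alpha_ne i this.symm

theorem root_eq_sum {v : V} (hv : v ∈ R.roots) : v = ∑ j, R.coef v j • R.α j := by
  obtain ⟨u, i, rfl⟩ := hv
  rcases R.pos_or_neg u i with ⟨c, _, h⟩ | ⟨c, _, h⟩
  · rw [h, coef_sum]
  · rw [h, map_neg, coef_sum]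
    simp

theorem coef_ext {u v : V} (hu : u ∈ R.roots) (hv : v ∈ R.roots) (h : R.coef u = R.coef v) :
    u = v := by
  rw [R.root_eq_sum hu, R.root_eq_sum hv, h]

theorem pos_of_coef {v : V} (hv : v ∈ R.roots) (h : ∀ j, 0 ≤ R.coef v j) : v ∈ R.posRoots :=
  ⟨hv, R.coef v, h, R.root_eq_sum hv⟩

theorem coef_nonneg {v : V} (hv : v ∈ R.posRoots) (j : B) : 0 ≤ R.coef v j := by
  obtain ⟨_, c, hc, rfl⟩ := hv
  rw [coef_sum]; exact hc j

theorem pos_or_neg' {v : V} (hv : v ∈ R.roots) : v ∈ R.posRoots ∨ -v ∈ R.posRoots := by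
  obtain ⟨u, i, rfl⟩ := hv
  rcases R.pos_or_neg u i with ⟨c, hc, h⟩ | ⟨c, hc, h⟩
  · exact Or.inl ⟨⟨u, i, rfl⟩, c, hc, h⟩
  · exact Or.inr ⟨R.neg_mem_roots ⟨u, i, rfl⟩, c, hc, by rw [h, neg_neg]⟩

theorem not_neg_of_pos {v : V} (hv : v ∈ R.posRoots) : -v ∉ R.posRoots := by
  intro h
  apply R.root_ne hv.1
  have h0 : R.coef v = 0 := by
    funext j
    have h1 := R.coef_nonneg hv j
    have h2 := R.coef_nonneg h j
    rw [map_neg, Pi.neg_apply] at h2
    simp only [Pi.zero_apply]; linarith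
  rw [R.root_eq_sum hv.1, h0]
  simp

theorem alpha_pos (i : B) : R.α i ∈ R.posRoots := by
  classical
  refine R.pos_of_coef (R.alpha_mem i) fun j => ?_
  rw [coef_alpha]
  by_cases h : j = i
  · subst h; simp
  · simp [h]

theorem neg_of_coef_neg {v : V} (hv : v ∈ R.roots) {j : B} (h : R.coef v j < 0) :
    -v ∈ R.posRoots := by
  rcases R.pos_or_neg' hv with h1 | h1
  · exact absurd (R.coef_nonneg h1 j) (not_le.mpr h)
  · exact h1

theorem pos_of_coef_pos {v : V} (hv : v ∈ R.roots) {j : B} (h : 0 < R.coef v j) :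
    v ∈ R.posRoots := by
  rcases R.pos_or_neg' hv with h1 | h1
  · exact h1
  · have := R.coef_nonneg h1 j
    rw [map_neg, Pi.neg_apply] at this
    linarith

/-- a positive multiple of a root which is a root is that root -/
theorem eq_of_smul {u v : V} (hu : u ∈ R.roots) (hv : v ∈ R.roots) {c : ℝ} (h : u = c • v) :
    c = 1 ∨ c = -1 := by
  obtain ⟨x, i, rfl⟩ := hu
  obtain ⟨y, j, rfl⟩ := hv
  apply R.reduced (y⁻¹ * x) i j c
  rw [rho_mul, h, map_smul, rho_inv_rho]

theorem simple_pos {v : V} (hv : v ∈ R.posRoots) {i : B} (h : v ≠ R.α i) :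
    R.ρ (cs.simple i) v ∈ R.posRoots := by
  -- there is a coordinate other than `i` which is positive
  have h1 : ∃ j, j ≠ i ∧ 0 < R.coef v j := by
    by_contra hcon
    push Not at hcon
    have h2 : v = R.coef v i • R.α i := by
      conv_lhs => rw [R.root_eq_sum hv.1]
      rw [Finset.sum_eq_single i]
      · intro j _ hj
        have : R.coef v j = 0 := le_antisymm (hcon j hj) (R.coef_nonneg hv j)
        rw [this, zero_smul]
      · intro h; exact absurd (Finset.mem_univ _) h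
    rcases R.eq_of_smul hv.1 (R.alpha_mem i) h2 with h3 | h3
    · rw [h3, one_smul] at h2; exact h h2
    · have := R.coef_nonneg hv i
      linarith
  obtain ⟨j, hj, hpos⟩ := h1
  refine R.pos_of_coef_pos (R.mem_roots_rho hv.1 _) (j := j) ?_
  rw [R.simple_apply, map_sub, map_smul, Pi.sub_apply, Pi.smul_apply, R.coef_alpha_ne hj]
  simpa using hpos

/-- the general reflection formula -/
theorem refl_apply (w : W) (i : B) (v : V) :
    R.ρ (w * cs.simple i * w⁻¹) v = v - (2 * inner ℝ v (R.ρ w (R.α i)) /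
      inner ℝ (R.ρ w (R.α i)) (R.ρ w (R.α i))) • R.ρ w (R.α i) := by
  rw [rho_mul, rho_mul, R.simple_apply, map_sub, map_smul, rho_rho_inv, inner_rho]
  have h : inner ℝ (R.ρ w⁻¹ v) (R.α i) = inner ℝ v (R.ρ w (R.α i)) := by
    rw [← R.inner_rho w, rho_rho_inv]
  rw [h]

theorem ext_rho {u w : W} (h : ∀ v, R.ρ u v = R.ρ w v) : u = w :=
  R.faithful (LinearIsometryEquiv.ext h)

theorem refl_eq_of_root_eq {w u : W} {i j : B} (h : R.ρ w (R.α i) = R.ρ u (R.α j)) :
    w * cs.simple i * w⁻¹ = u * cs.simple j * u⁻¹ := by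
  apply R.ext_rho
  intro v
  rw [R.refl_apply, R.refl_apply, h]

theorem refl_eq_of_root_eq_neg {w u : W} {i j : B} (h : R.ρ w (R.α i) = -R.ρ u (R.α j)) :
    w * cs.simple i * w⁻¹ = u * cs.simple j * u⁻¹ := by
  apply R.ext_rho
  intro v
  rw [R.refl_apply, R.refl_apply, h]
  simp only [inner_neg_right, inner_neg_left, neg_neg, smul_neg]
  rw [mul_neg, neg_div, neg_smul, neg_neg]

/-- a word whose product sends `α i` to a negative root can be shortened -/
theorem exists_shorter (l : List B) (i : B) (h : - R.ρ (cs.wordProd l) (R.α i) ∈ R.posRoots) :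
    ∃ l' : List B, cs.wordProd l' = cs.wordProd l * cs.simple i ∧ l'.length + 1 = l.length := by
  induction l with
  | nil =>
    rw [cs.wordProd_nil, rho_one] at h
    exact absurd h (R.not_neg_of_pos (R.alpha_pos i))
  | cons j l ih =>
    rw [cs.wordProd_cons, rho_mul] at h
    have hroot : R.ρ (cs.wordProd l) (R.α i) ∈ R.roots := R.mem_roots_rho (R.alpha_mem i) _
    rcases R.pos_or_neg' hroot with hp | hn
    · by_cases he : R.ρ (cs.wordProd l) (R.α i) = R.α j
      · refine ⟨l, ?_, by simp⟩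
        have h1 : cs.wordProd l * cs.simple i * (cs.wordProd l)⁻¹ = cs.simple j := by
          have := R.refl_eq_of_root_eq (w := cs.wordProd l) (u := 1) (i := i) (j := j)
            (by rw [rho_one]; exact he)
          simpa using this
        have h2 : cs.wordProd l * cs.simple i = cs.simple j * cs.wordProd l := by
          rw [← h1]; group
        rw [cs.wordProd_cons, mul_assoc, h2, ← mul_assoc, cs.simple_mul_simple_self, one_mul]
      · exact absurd h (R.not_neg_of_pos (R.simple_pos hp he))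
    · obtain ⟨l', h1, h2⟩ := ih hn
      refine ⟨j :: l', ?_, by simp [h2]⟩
      rw [cs.wordProd_cons, h1, cs.wordProd_cons, mul_assoc]

theorem length_of_neg {w : W} {i : B} (h : - R.ρ w (R.α i) ∈ R.posRoots) :
    cs.length (w * cs.simple i) + 1 = cs.length w := by
  obtain ⟨l, hl, hw⟩ := cs.exists_isReduced w
  rw [hw] at h
  obtain ⟨l', h1, h2⟩ := R.exists_shorter l i h
  have h3 := cs.length_wordProd_le l'
  rw [h1, ← hw] at h3
  have h4 : cs.length w = l.length := by rw [hw]; exact hl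
  rcases cs.length_mul_simple w i with h5 | h5
  · omega
  · exact h5

theorem length_of_pos {w : W} {i : B} (h : R.ρ w (R.α i) ∈ R.posRoots) :
    cs.length (w * cs.simple i) = cs.length w + 1 := by
  have h1 : - R.ρ (w * cs.simple i) (R.α i) ∈ R.posRoots := by
    rw [rho_mul, simple_alpha, map_neg, neg_neg]; exact h
  have h2 := R.length_of_neg h1
  rw [mul_assoc, cs.simple_mul_simple_self, mul_one] at h2
  exact h2.symm

theorem pos_of_length {w : W} {i : B} (h : cs.length w < cs.length (w * cs.simple i)) :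
    R.ρ w (R.α i) ∈ R.posRoots := by
  rcases R.pos_or_neg' (R.mem_roots_rho (R.alpha_mem i) w) with h1 | h1
  · exact h1
  · have := R.length_of_neg h1
    omega

theorem eq_one_of_pos {w : W} (h : ∀ i, R.ρ w (R.α i) ∈ R.posRoots) : w = 1 := by
  by_contra hne
  obtain ⟨i, hi⟩ := cs.exists_rightDescent_of_ne_one hne
  have h1 := R.length_of_pos (h i)
  unfold CoxeterSystem.IsRightDescent at hi
  omega

theorem exists_neg_of_ne_one {w : W} (h : w ≠ 1) : ∃ i, - R.ρ w (R.α i) ∈ R.posRoots := by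
  by_contra hcon
  push Not at hcon
  apply h
  apply R.eq_one_of_pos
  intro i
  rcases R.pos_or_neg' (R.mem_roots_rho (R.alpha_mem i) w) with h1 | h1
  · exact h1
  · exact absurd h1 (hcon i)

/-! ### inversions and the weak order -/

theorem mem_Inv {w : W} {v : V} :
    v ∈ R.Inv w ↔ v ∈ R.posRoots ∧ - R.ρ w⁻¹ v ∈ R.posRoots := by
  constructor
  · rintro ⟨h1, u, hu, rfl⟩
    refine ⟨h1, ?_⟩
    rw [rho_inv_rho, neg_neg]; exact hu
  · rintro ⟨h1, h2⟩
    exact ⟨h1, _, h2, by rw [neg_neg, rho_rho_inv]⟩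

theorem not_mem_Inv {w : W} {v : V} (hv : v ∈ R.posRoots) :
    v ∉ R.Inv w ↔ R.ρ w⁻¹ v ∈ R.posRoots := by
  rw [mem_Inv]
  constructor
  · intro h
    rcases R.pos_or_neg' (R.mem_roots_rho hv.1 w⁻¹) with h1 | h1
    · exact h1
    · exact absurd ⟨hv, h1⟩ h
  · intro h h2
    exact R.not_neg_of_pos h h2.2

theorem Inv_one : R.Inv 1 = ∅ := by
  ext v
  simp only [mem_Inv, inv_one, rho_one, Set.mem_empty_iff_false, iff_false, not_and]
  exact fun h => R.not_neg_of_pos h

/-- `γ = w (α i)` positive: then it is not an inversion of `w`. -/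
theorem rho_alpha_not_mem_Inv {w : W} {i : B} : R.ρ w (R.α i) ∉ R.Inv w := by
  rw [mem_Inv]
  rintro ⟨_, h⟩
  rw [rho_inv_rho] at h
  exact R.not_neg_of_pos (R.alpha_pos i) h

theorem neg_rho_alpha_mem_Inv {w : W} {i : B} (h : - R.ρ w (R.α i) ∈ R.posRoots) :
    - R.ρ w (R.α i) ∈ R.Inv w := by
  rw [mem_Inv]
  refine ⟨h, ?_⟩
  rw [map_neg, rho_inv_rho, neg_neg]
  exact R.alpha_pos i

theorem Inv_mul_simple {w : W} {i : B} (h : R.ρ w (R.α i) ∈ R.posRoots) :
    R.Inv (w * cs.simple i) = insert (R.ρ w (R.α i)) (R.Inv w) := by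
  ext v
  rw [Set.mem_insert_iff, mem_Inv, mem_Inv, mul_inv_rev, cs.inv_simple, rho_mul]
  constructor
  · rintro ⟨h1, h2⟩
    rcases R.pos_or_neg' (R.mem_roots_rho h1.1 w⁻¹) with h3 | h3
    · left
      by_contra hne
      have h4 : R.ρ w⁻¹ v ≠ R.α i := by
        intro h5; apply hne; rw [← h5, rho_rho_inv]
      exact R.not_neg_of_pos (R.simple_pos h3 h4) h2
    · exact Or.inr ⟨h1, h3⟩
  · rintro (rfl | ⟨h1, h2⟩)
    · refine ⟨h, ?_⟩
      rw [rho_inv_rho, simple_alpha, neg_neg]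
      exact R.alpha_pos i
    · refine ⟨h1, ?_⟩
      rw [← map_neg]
      apply R.simple_pos h2
      intro h3
      have h4 : v = - R.ρ w (R.α i) := by
        rw [← h3, map_neg, rho_rho_inv, neg_neg]
      rw [h4] at h1
      exact R.not_neg_of_pos h h1

theorem Inv_subset_pos {w : W} {v : V} (h : v ∈ R.Inv w) : v ∈ R.posRoots := h.1

/-- Being in `w(Φ⁺)`. -/
theorem mem_image_iff {w : W} {v : V} :
    (∃ u ∈ R.posRoots, v = R.ρ w u) ↔ R.ρ w⁻¹ v ∈ R.posRoots := by
  constructor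
  · rintro ⟨u, hu, rfl⟩
    rw [rho_inv_rho]; exact hu
  · intro h
    exact ⟨_, h, by rw [rho_rho_inv]⟩

/-- going one step up in the weak order towards `u` -/
theorem exists_up {w u : W} (hsub : R.Inv w ⊆ R.Inv u) (hne : w ≠ u) :
    ∃ i, R.ρ w (R.α i) ∈ R.posRoots ∧ R.ρ w (R.α i) ∈ R.Inv u ∧
      R.Inv (w * cs.simple i) ⊆ R.Inv u := by
  have h1 : u⁻¹ * w ≠ 1 := by
    intro h
    exact hne (inv_mul_eq_one.mp h).symm
  obtain ⟨i, hi⟩ := R.exists_neg_of_ne_one h1
  rw [rho_mul] at hi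
  have hroot : R.ρ w (R.α i) ∈ R.roots := R.mem_roots_rho (R.alpha_mem i) _
  rcases R.pos_or_neg' hroot with hp | hn
  · have h2 : R.ρ w (R.α i) ∈ R.Inv u := R.mem_Inv.mpr ⟨hp, hi⟩
    refine ⟨i, hp, h2, ?_⟩
    rw [R.Inv_mul_simple hp]
    exact Set.insert_subset h2 hsub
  · have h2 := hsub (R.neg_rho_alpha_mem_Inv hn)
    rw [mem_Inv, map_neg, neg_neg] at h2
    exact absurd hi (R.not_neg_of_pos h2.2)

/-- going one step down from `u` towards `w` -/
theorem exists_down {w u : W} (hsub : R.Inv w ⊆ R.Inv u) (hne : w ≠ u) :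
    ∃ i, - R.ρ u (R.α i) ∈ R.posRoots ∧ - R.ρ u (R.α i) ∉ R.Inv w ∧
      R.Inv w ⊆ R.Inv (u * cs.simple i) := by
  have h1 : w⁻¹ * u ≠ 1 := by
    intro h
    exact hne (inv_mul_eq_one.mp h)
  obtain ⟨i, hi⟩ := R.exists_neg_of_ne_one h1
  rw [rho_mul] at hi
  have hroot : R.ρ u (R.α i) ∈ R.roots := R.mem_roots_rho (R.alpha_mem i) _
  rcases R.pos_or_neg' hroot with hp | hn
  · have h2 : R.ρ u (R.α i) ∈ R.Inv u := hsub (R.mem_Inv.mpr ⟨hp, hi⟩)
    exact absurd h2 R.rho_alpha_not_mem_Inv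
  · have h2 : - R.ρ u (R.α i) ∉ R.Inv w := by
      rw [R.not_mem_Inv hn, map_neg]; exact hi
    refine ⟨i, hn, h2, ?_⟩
    have h3 : R.ρ (u * cs.simple i) (R.α i) = - R.ρ u (R.α i) := by
      rw [rho_mul, simple_alpha, map_neg]
    have h4 := R.Inv_mul_simple (w := u * cs.simple i) (i := i) (by rw [h3]; exact hn)
    rw [mul_assoc, cs.simple_mul_simple_self, mul_one, h3] at h4
    intro v hv
    have h5 := hsub hv
    rw [h4, Set.mem_insert_iff] at h5
    rcases h5 with h5 | h5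
    · exact absurd (h5 ▸ hv) h2
    · exact h5

theorem Inv_injective {w u : W} (h : R.Inv w = R.Inv u) : w = u := by
  by_contra hne
  obtain ⟨i, hp, h1, _⟩ := R.exists_up h.subset hne
  rw [← h] at h1
  exact R.rho_alpha_not_mem_Inv h1

theorem length_le_of_Inv_subset {w u : W} (h : R.Inv w ⊆ R.Inv u) :
    cs.length w ≤ cs.length u := by
  induction hn : cs.length u using Nat.strong_induction_on generalizing u with
  | _ n ih =>
    by_cases hne : w = u
    · rw [hne, hn]
    · obtain ⟨i, hneg, _, hsub⟩ := R.exists_down h hne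
      have h1 := R.length_of_neg hneg
      have := ih (cs.length (u * cs.simple i)) (by omega) hsub rfl
      omega

theorem length_lt_of_Inv_subset {w u : W} (h : R.Inv w ⊆ R.Inv u) (hne : w ≠ u) :
    cs.length w < cs.length u := by
  obtain ⟨i, hneg, _, hsub⟩ := R.exists_down h hne
  have h1 := R.length_of_neg hneg
  have := R.length_le_of_Inv_subset hsub
  omega

/-- `Inv` is closed under nonnegative combinations of two roots -/
theorem Inv_closed {u : W} {a b g : V} (ha : a ∈ R.Inv u) (hb : b ∈ R.Inv u)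
    (hg : g ∈ R.posRoots) {p q : ℝ} (hp : 0 ≤ p) (hq : 0 ≤ q) (h : g = p • a + q • b) :
    g ∈ R.Inv u := by
  by_contra hcon
  rw [R.not_mem_Inv hg] at hcon
  rw [mem_Inv] at ha hb
  apply R.root_ne hg.1
  have h0 : R.coef (R.ρ u⁻¹ g) = 0 := by
    funext j
    have h1 := R.coef_nonneg hcon j
    have h2 := R.coef_nonneg ha.2 j
    have h3 := R.coef_nonneg hb.2 j
    have h4 : R.coef (R.ρ u⁻¹ g) j
        = -(p * R.coef (- R.ρ u⁻¹ a) j + q * R.coef (- R.ρ u⁻¹ b) j) := by
      rw [h]; simp; ring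
    have h5 := mul_nonneg hp h2
    have h6 := mul_nonneg hq h3
    simp only [Pi.zero_apply]
    linarith
  have h1 : R.ρ u⁻¹ g = 0 := by
    rw [R.root_eq_sum (R.mem_roots_rho hg.1 _), h0]; simp
  have := R.rho_rho_inv u g
  rw [h1, map_zero] at this
  exact this.symm

/-- distinct simple roots have nonpositive inner product -/
theorem inner_alpha_nonpos {i j : B} (h : i ≠ j) : inner ℝ (R.α i) (R.α j) ≤ 0 := by
  have h1 : R.ρ (cs.simple j) (R.α i) ∈ R.posRoots :=
    R.simple_pos (R.alpha_pos i) (fun h2 => h (R.linInd.injective h2))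
  have h2 := R.coef_nonneg h1 j
  rw [R.simple_apply, map_sub, map_smul, Pi.sub_apply, Pi.smul_apply, R.coef_alpha_self,
    R.coef_alpha_ne (Ne.symm h)] at h2
  simp only [smul_eq_mul, mul_one, zero_sub, Left.nonneg_neg_iff] at h2
  have h3 := R.inner_alpha_pos j
  rw [div_nonpos_iff] at h2
  rcases h2 with h2 | h2
  · linarith [h2.2]
  · linarith [h2.1]

end RootSystemOf

end Pool.Agent.SubwordFlip
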