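import Mathlib

open scoped InnerProductSpace

namespace Pool.Agent.SubwordFlip

/-- A root system of the Coxeter system `cs` (with simple reflections `cs.simple i`, `i : B`) in a
real inner product space `V`: a faithful orthogonal action of `W` on `V` and linearly independent
simple roots `α i`, such that `cs.simple i` acts as the orthogonal reflection in `α i`, every
vector `w (α i)` is a nonnegative or a nonpositive combination of the simple roots, and the only
multiples of a root which are roots are plus and minus that root. The roots are the vectors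
`w (α i)`. -/
structure RootSystemOf {B W : Type*} [Fintype B] [Group W] {M : CoxeterMatrix B}
    (cs : CoxeterSystem M W) (V : Type*) [NormedAddCommGroup V] [InnerProductSpace ℝ V] where
  ρ : W →* (V ≃ₗᵢ[ℝ] V)
  faithful : Function.Injective ρ
  α : B → V
  linInd : LinearIndependent ℝ α
  simple_apply : ∀ i v,
    ρ (cs.simple i) v = v - (2 * ⟪v, α i⟫_ℝ / ⟪α i, α i⟫_ℝ) • α i
  pos_or_neg : ∀ w i, (∃ c : B → ℝ, (∀ j, 0 ≤ c j) ∧ ρ w (α i) = ∑ j, c j • α j) ∨
    (∃ c : B → ℝ, (∀ j, 0 ≤ c j) ∧ ρ w (α i) = - ∑ j, c j • α j)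
  reduced : ∀ w i j (c : ℝ), ρ w (α i) = c • α j → c = 1 ∨ c = -1

variable {B W V : Type*} [Fintype B] [Group W] {M : CoxeterMatrix B} {cs : CoxeterSystem M W}
  [NormedAddCommGroup V] [InnerProductSpace ℝ V]

namespace RootSystemOf

/-- The set of roots. -/
def roots (R : RootSystemOf cs V) : Set V := {v | ∃ w i, v = R.ρ w (R.α i)}

/-- The set of positive roots. -/
def posRoots (R : RootSystemOf cs V) : Set V :=
  {v | v ∈ R.roots ∧ ∃ c : B → ℝ, (∀ j, 0 ≤ c j) ∧ v = ∑ j, c j • R.α j}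

/-- The inversion set: the positive roots of the form `w (-u)`, `u` a positive root. -/
def Inv (R : RootSystemOf cs V) (w : W) : Set V :=
  {v | v ∈ R.posRoots ∧ ∃ u ∈ R.posRoots, v = R.ρ w (-u)}

/-- The interval `[e, ω]` of the right weak order: all `σ` with `Inv σ ⊆ Inv ω`. -/
def Interval (R : RootSystemOf cs V) (ω : W) : Type _ := {σ : W // R.Inv σ ⊆ R.Inv ω}

end RootSystemOf

/-- The subword of `Q` formed by the letters at the positions in `A`, in increasing order. -/
def subword {m : ℕ} (Q : Fin m → B) (A : Finset (Fin m)) : List B :=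
  ((List.finRange m).filter (fun k => k ∈ A)).map Q

/-- `Q` is alternating: for any two non-commuting simple reflections `s`, `t`, between two
occurrences of `s` in `Q` there is an occurrence of `t` (and, exchanging `s` and `t`, vice versa). -/
def Alternating (cs : CoxeterSystem M W) {m : ℕ} (Q : Fin m → B) : Prop :=
  ∀ s t : B, cs.simple s * cs.simple t ≠ cs.simple t * cs.simple s →
    ∀ a b : Fin m, a < b → Q a = s → Q b = s → ∃ c, a < c ∧ c < b ∧ Q c = t

/-- `I` is a facet of the subword complex of `(Q, ω)`: the subword of `Q` on the complement of `I`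
is a reduced expression of `ω`. -/
def IsFacet (cs : CoxeterSystem M W) {m : ℕ} (Q : Fin m → B) (ω : W) (I : Finset (Fin m)) : Prop :=
  cs.wordProd (subword Q Iᶜ) = ω ∧ cs.IsReduced (subword Q Iᶜ)

namespace RootSystemOf

/-- The root function `r(I, k)`. -/
def rootFn (R : RootSystemOf cs V) {m : ℕ} (Q : Fin m → B) (I : Finset (Fin m)) (k : Fin m) : V :=
  R.ρ (cs.wordProd (subword Q (Finset.univ.filter (fun l => l < k ∧ l ∉ I)))) (R.α (Q k))

/-- The set `L(I)` of linear extensions of `I`: the `π` in `W` such that every root `r(I, k)`,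
`k ∈ I`, lies in `π(Φ⁺)`. -/
def linExt (R : RootSystemOf cs V) {m : ℕ} (Q : Fin m → B) (I : Finset (Fin m)) : Set W :=
  {π | ∀ k ∈ I, ∃ u ∈ R.posRoots, R.rootFn Q I k = R.ρ π u}

/-- `I` is a strongly acyclic facet. -/
def StronglyAcyclic (R : RootSystemOf cs V) {m : ℕ} (Q : Fin m → B) (ω : W)
    (I : Finset (Fin m)) : Prop :=
  IsFacet cs Q ω I ∧ ∃ π ∈ R.linExt Q I, R.Inv π ⊆ R.Inv ω

/-- The cone generated by the root configuration of `I`. -/
def cone (R : RootSystemOf cs V) {m : ℕ} (Q : Fin m → B) (I : Finset (Fin m)) : Set V :=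
  {v | ∃ c : Fin m → ℝ, (∀ k, 0 ≤ c k) ∧ v = ∑ k ∈ I, c k • R.rootFn Q I k}

end RootSystemOf

/-- The vector `v` spans an extreme ray of the cone `C`. -/
def SpansExtremeRay (C : Set V) (v : V) : Prop :=
  v ≠ 0 ∧ v ∈ C ∧ ∀ a ∈ C, ∀ b ∈ C, (∃ t : ℝ, 0 ≤ t ∧ a + b = t • v) →
    (∃ t : ℝ, 0 ≤ t ∧ a = t • v) ∧ (∃ t : ℝ, 0 ≤ t ∧ b = t • v)

namespace RootSystemOf

/-- There is an extremal increasing flip from `I` to `J`. -/
def ExtremalFlip (R : RootSystemOf cs V) {m : ℕ} (Q : Fin m → B) (I J : Finset (Fin m)) : Prop :=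
  ∃ i ∈ I, ∃ j ∈ J, i < j ∧ I.erase i = J.erase j ∧
    SpansExtremeRay (R.cone Q I) (R.rootFn Q I i)

/-- The relation on `[e, ω]`: two elements are related if they are linear extensions of a common
facet of the subword complex. -/
def SameFacet (R : RootSystemOf cs V) {m : ℕ} (Q : Fin m → B) (ω : W) (x y : R.Interval ω) :
    Prop :=
  ∃ I, IsFacet cs Q ω I ∧ x.1 ∈ R.linExt Q I ∧ y.1 ∈ R.linExt Q I

end RootSystemOf

/-- The quotient of a lattice by a lattice congruence. -/
def QuotLat {α : Type*} [Lattice α] (c : LatticeCon α) : Type _ := Quotient c.toSetoid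

namespace QuotLat

variable {α : Type*} [Lattice α] (c : LatticeCon α)

/-- The class of an element in the quotient lattice. -/
def mk (x : α) : QuotLat c := Quotient.mk c.toSetoid x

instance : Max (QuotLat c) where
  max := Quotient.map₂ (· ⊔ ·) (fun _ _ h _ _ h' => c.sup h h')

instance : Min (QuotLat c) where
  min := Quotient.map₂ (· ⊓ ·) (fun _ _ h _ _ h' => c.inf h h')

theorem mk_surj (X : QuotLat c) : ∃ x, mk c x = X := Quotient.exists_rep X

theorem mk_sup (x y : α) : mk c x ⊔ mk c y = mk c (x ⊔ y) := rfl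

theorem mk_inf (x y : α) : mk c x ⊓ mk c y = mk c (x ⊓ y) := rfl

theorem mk_eq {x y : α} : mk c x = mk c y ↔ c.r x y := Quotient.eq (r := c.toSetoid)

theorem aux_sup_comm (a b : QuotLat c) : a ⊔ b = b ⊔ a := by
  obtain ⟨x, rfl⟩ := mk_surj c a
  obtain ⟨y, rfl⟩ := mk_surj c b
  rw [mk_sup, mk_sup, sup_comm]

theorem aux_inf_comm (a b : QuotLat c) : a ⊓ b = b ⊓ a := by
  obtain ⟨x, rfl⟩ := mk_surj c a
  obtain ⟨y, rfl⟩ := mk_surj c b
  rw [mk_inf, mk_inf, inf_comm]

theorem aux_sup_assoc (a b d : QuotLat c) : a ⊔ b ⊔ d = a ⊔ (b ⊔ d) := by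
  obtain ⟨x, rfl⟩ := mk_surj c a
  obtain ⟨y, rfl⟩ := mk_surj c b
  obtain ⟨z, rfl⟩ := mk_surj c d
  rw [mk_sup, mk_sup, mk_sup, mk_sup, sup_assoc]

theorem aux_inf_assoc (a b d : QuotLat c) : a ⊓ b ⊓ d = a ⊓ (b ⊓ d) := by
  obtain ⟨x, rfl⟩ := mk_surj c a
  obtain ⟨y, rfl⟩ := mk_surj c b
  obtain ⟨z, rfl⟩ := mk_surj c d
  rw [mk_inf, mk_inf, mk_inf, mk_inf, inf_assoc]

theorem aux_sup_inf_self (a b : QuotLat c) : a ⊔ a ⊓ b = a := by
  obtain ⟨x, rfl⟩ := mk_surj c a
  obtain ⟨y, rfl⟩ := mk_surj c b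
  rw [mk_inf, mk_sup, sup_inf_self]

theorem aux_inf_sup_self (a b : QuotLat c) : a ⊓ (a ⊔ b) = a := by
  obtain ⟨x, rfl⟩ := mk_surj c a
  obtain ⟨y, rfl⟩ := mk_surj c b
  rw [mk_sup, mk_inf, inf_sup_self]

/-- The lattice structure on the quotient (`X ≤ Y` means `X ⊔ Y = Y`). -/
instance : Lattice (QuotLat c) :=
  Lattice.mk' (aux_sup_comm c) (aux_sup_assoc c) (aux_inf_comm c) (aux_inf_assoc c)
    (aux_sup_inf_self c) (aux_inf_sup_self c)

theorem mk_le {x y : α} : mk c x ≤ mk c y ↔ c.r (x ⊔ y) y := by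
  have h : mk c x ≤ mk c y ↔ mk c x ⊔ mk c y = mk c y := sup_eq_right.symm
  rw [h, mk_sup, mk_eq]

end QuotLat

end Pool.Agent.SubwordFlip
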