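import Pool.Agent.SubwordFlip.Words

open scoped InnerProductSpace

set_option linter.unusedSectionVars false

namespace Pool.Agent.SubwordFlip

variable {B W V : Type*} [Fintype B] [Group W] {M : CoxeterMatrix B} {cs : CoxeterSystem M W}
  [NormedAddCommGroup V] [InnerProductSpace ℝ V]

theorem IsSwap.card {m : ℕ} {I J : Finset (Fin m)} {a b : Fin m}
    (h : IsSwap I J a b) (hx : b ∈ I ↔ a ∉ I) : J.card = I.card := by
  have hne : a ≠ b := ne_of_lt h.lt
  by_cases ha : a ∈ I
  · have hb : b ∉ I := fun hb => (hx.mp hb) ha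
    have e : J = insert b (I.erase a) := by
      ext k
      rw [Finset.mem_insert, Finset.mem_erase]
      by_cases hka : k = a
      · subst hka
        constructor
        · intro hk; exact absurd ha (h.ha.mp hk)
        · rintro (hk | hk)
          · exact absurd hk hne
          · exact absurd rfl hk.1
      · by_cases hkb : k = b
        · subst hkb
          exact ⟨fun _ => Or.inl rfl, fun _ => h.hb.mpr hb⟩
        · rw [h.other k hka hkb]
          tauto
    rw [e, Finset.card_insert_of_notMem, Finset.card_erase_add_one ha]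
    rw [Finset.mem_erase]; tauto
  · have hb : b ∈ I := hx.mpr ha
    have e : J = insert a (I.erase b) := by
      ext k
      rw [Finset.mem_insert, Finset.mem_erase]
      by_cases hkb : k = b
      · subst hkb
        constructor
        · intro hk; exact absurd hb (h.hb.mp hk)
        · rintro (hk | hk)
          · exact absurd hk.symm hne
          · exact absurd rfl hk.1
      · by_cases hka : k = a
        · subst hka
          exact ⟨fun _ => Or.inl rfl, fun _ => h.ha.mpr ha⟩
        · rw [h.other k hka hkb]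
          tauto
    rw [e, Finset.card_insert_of_notMem, Finset.card_erase_add_one hb]
    rw [Finset.mem_erase]; tauto

/-- moving `i ∈ I` to `j ∉ I` with `i < j` -/
theorem isSwap_up {m : ℕ} {I : Finset (Fin m)} {i j : Fin m} (hi : i ∈ I) (hj : j ∉ I)
    (hlt : i < j) : IsSwap I (insert j (I.erase i)) i j where
  lt := hlt
  other := by
    intro k h1 h2
    rw [Finset.mem_insert, Finset.mem_erase]; tauto
  ha := by
    rw [Finset.mem_insert, Finset.mem_erase]
    constructor
    · rintro (h | h)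
      · exact absurd h (ne_of_lt hlt)
      · exact absurd rfl h.1
    · intro h; exact absurd hi h
  hb := by
    rw [Finset.mem_insert]; tauto

/-- moving `j ∈ J` to `i ∉ J` with `i < j` -/
theorem isSwap_down {m : ℕ} {J : Finset (Fin m)} {i j : Fin m} (hj : j ∈ J) (hi : i ∉ J)
    (hlt : i < j) : IsSwap J (insert i (J.erase j)) i j where
  lt := hlt
  other := by
    intro k h1 h2
    rw [Finset.mem_insert, Finset.mem_erase]; tauto
  ha := by
    rw [Finset.mem_insert]; tauto
  hb := by
    rw [Finset.mem_insert, Finset.mem_erase]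
    constructor
    · rintro (h | h)
      · exact absurd h.symm (ne_of_lt hlt)
      · exact absurd rfl h.1
    · intro h; exact absurd hj h

namespace RootSystemOf

variable (R : RootSystemOf cs V)

theorem rho_reflAt {m : ℕ} (Q : Fin m → B) (I : Finset (Fin m)) (a : Fin m) (v : V) :
    R.ρ (reflAt cs Q I a) v = v - (2 * inner ℝ v (R.rootFn Q I a) /
      inner ℝ (R.rootFn Q I a) (R.rootFn Q I a)) • R.rootFn Q I a := by
  rw [rootFn_eq]
  exact R.refl_apply _ _ _

theorem inner_rootFn_pos {m : ℕ} (Q : Fin m → B) (I : Finset (Fin m)) (a : Fin m) :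
    0 < inner ℝ (R.rootFn Q I a) (R.rootFn Q I a) :=
  real_inner_self_pos.mpr (R.root_ne (R.rootFn_mem Q I a))

theorem rho_reflAt_self {m : ℕ} (Q : Fin m → B) (I : Finset (Fin m)) (a : Fin m) :
    R.ρ (reflAt cs Q I a) (R.rootFn Q I a) = - R.rootFn Q I a := by
  rw [rho_reflAt, mul_div_assoc, div_self (R.inner_rootFn_pos Q I a).ne']
  module

theorem reflAt_eq {m : ℕ} {Q : Fin m → B} {I : Finset (Fin m)} {a b : Fin m}
    (h : R.rootFn Q I a = R.rootFn Q I b ∨ R.rootFn Q I a = - R.rootFn Q I b) :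
    reflAt cs Q I a = reflAt cs Q I b := by
  rcases h with h | h
  · exact R.refl_eq_of_root_eq h
  · exact R.refl_eq_of_root_eq_neg h

theorem swap_facet {m : ℕ} {Q : Fin m → B} {ω : W} {I J : Finset (Fin m)} {a b : Fin m}
    (hI : IsFacet cs Q ω I) (h : IsSwap I J a b) (hx : b ∈ I ↔ a ∉ I)
    (hr : R.rootFn Q I a = R.rootFn Q I b ∨ R.rootFn Q I a = - R.rootFn Q I b) :
    IsFacet cs Q ω J := by
  rw [isFacet_iff] at hI ⊢
  refine ⟨?_, ?_⟩
  · rw [h.pre_gt (R.reflAt_eq hr) b.isLt le_rfl, hI.1]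
  · rw [← hI.2, length_subword, length_subword, posn_last, posn_last, Finset.card_compl,
      Finset.card_compl, h.card hx]

theorem swap_rootFn_le {m : ℕ} {Q : Fin m → B} {I J : Finset (Fin m)} {a b : Fin m}
    (h : IsSwap I J a b) {k : Fin m} (hk : k ≤ a) : R.rootFn Q J k = R.rootFn Q I k := by
  rw [rootFn_eq, rootFn_eq, h.pre_le hk]

theorem swap_rootFn_mid {m : ℕ} {Q : Fin m → B} {I J : Finset (Fin m)} {a b : Fin m}
    (h : IsSwap I J a b) {k : Fin m} (hk : a < k) (hkb : k ≤ b) :
    R.rootFn Q J k = R.ρ (reflAt cs Q I a) (R.rootFn Q I k) := by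
  rw [rootFn_eq, rootFn_eq, h.pre_mid hk hkb, rho_mul]

theorem swap_rootFn_gt {m : ℕ} {Q : Fin m → B} {I J : Finset (Fin m)} {a b : Fin m}
    (h : IsSwap I J a b)
    (hr : R.rootFn Q I a = R.rootFn Q I b ∨ R.rootFn Q I a = - R.rootFn Q I b)
    {k : Fin m} (hk : b < k) :
    R.rootFn Q J k = R.rootFn Q I k := by
  rw [rootFn_eq, rootFn_eq, h.pre_gt (R.reflAt_eq hr) hk k.isLt.le]

theorem mem_linExt {m : ℕ} {Q : Fin m → B} {I : Finset (Fin m)} {x : W} :
    x ∈ R.linExt Q I ↔ ∀ k ∈ I, R.ρ x⁻¹ (R.rootFn Q I k) ∈ R.posRoots := by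
  unfold linExt
  rw [Set.mem_ofPred_eq]
  constructor
  · intro h k hk; exact R.mem_image_iff.mp (h k hk)
  · intro h k hk; exact R.mem_image_iff.mpr (h k hk)

/-- If `γ = x (α s)` is not in the root configuration then `x s` is again a linear extension. -/
theorem linExt_step {m : ℕ} {Q : Fin m → B} {I : Finset (Fin m)} {x : W} {s : B}
    (hx : x ∈ R.linExt Q I) (h : ∀ k ∈ I, R.rootFn Q I k ≠ R.ρ x (R.α s)) :
    x * cs.simple s ∈ R.linExt Q I := by
  rw [mem_linExt] at hx ⊢
  intro k hk
  rw [mul_inv_rev, cs.inv_simple, rho_mul]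
  apply R.simple_pos (hx k hk)
  intro h2
  apply h k hk
  rw [← h2, rho_rho_inv]

/-- the reflection in `γ = x (α s)` -/
theorem simple_inv_reflAt {m : ℕ} {Q : Fin m → B} {I : Finset (Fin m)} {x : W} {s : B} {a : Fin m}
    (h : R.rootFn Q I a = R.ρ x (R.α s)) (v : V) :
    R.ρ (x * cs.simple s)⁻¹ (R.ρ (reflAt cs Q I a) v) = R.ρ x⁻¹ v := by
  have h1 : reflAt cs Q I a = x * cs.simple s * x⁻¹ := by
    unfold reflAt
    exact R.refl_eq_of_root_eq h
  rw [h1, ← rho_mul]
  congr 2
  rw [mul_inv_rev, cs.inv_simple]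
  calc cs.simple s * x⁻¹ * (x * cs.simple s * x⁻¹)
      = (cs.simple s * cs.simple s) * x⁻¹ := by group
    _ = x⁻¹ := by rw [cs.simple_mul_simple_self, one_mul]

/-- The flip upwards: if `γ = x (α s)` is a positive root in `Inv ω` and lies in the root
configuration of the facet `I` with `x ∈ L(I)`, flipping the first such position gives a facet
whose linear extensions include `x s`. -/
theorem flip_up {m : ℕ} {Q : Fin m → B} {ω : W} {I : Finset (Fin m)}
    (hI : IsFacet cs Q ω I) {x : W} {s : B} (hx : x ∈ R.linExt Q I)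
    (hinv : R.ρ x (R.α s) ∈ R.Inv ω) {i : Fin m} (hi : i ∈ I)
    (hir : R.rootFn Q I i = R.ρ x (R.α s))
    (hfirst : ∀ k ∈ I, k < i → R.rootFn Q I k ≠ R.ρ x (R.α s)) :
    ∃ j, j ∉ I ∧ i < j ∧ R.rootFn Q I j = R.ρ x (R.α s) ∧
      IsFacet cs Q ω (insert j (I.erase i)) ∧
      x * cs.simple s ∈ R.linExt Q (insert j (I.erase i)) := by
  obtain ⟨j, hj, hjr⟩ := R.exists_crossing' hI hinv
  have hlt : i < j := by
    have h1 := R.lt_of_contact_eq hI hj (hir.trans hjr.symm)
    have h2 : i ≠ j := by rintro rfl; exact hj hi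
    exact lt_of_le_of_ne h1 h2
  have hsw := isSwap_up hi hj hlt
  have hr : R.rootFn Q I i = R.rootFn Q I j ∨ R.rootFn Q I i = - R.rootFn Q I j :=
    Or.inl (hir.trans hjr.symm)
  refine ⟨j, hj, hlt, hjr, R.swap_facet hI hsw (by tauto) hr, ?_⟩
  rw [mem_linExt] at hx ⊢
  intro k hk
  rcases le_or_gt k i with h1 | h1
  · have hki : k ≠ i := by
      rintro rfl
      rw [Finset.mem_insert, Finset.mem_erase] at hk
      rcases hk with hk | hk
      · exact absurd hk (ne_of_lt hlt)
      · exact hk.1 rfl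
    have hkI : k ∈ I := by
      have := (hsw.other k hki (by rintro rfl; exact absurd hlt (not_lt.mpr h1))).mp hk
      exact this
    rw [R.swap_rootFn_le hsw h1, mul_inv_rev, cs.inv_simple, rho_mul]
    apply R.simple_pos (hx k hkI)
    intro h2
    apply hfirst k hkI (lt_of_le_of_ne h1 hki)
    rw [← h2, rho_rho_inv]
  · rcases le_or_gt k j with h2 | h2
    · rw [R.swap_rootFn_mid hsw h1 h2, R.simple_inv_reflAt hir]
      by_cases hkj : k = j
      · subst hkj
        rw [hjr, rho_inv_rho]; exact R.alpha_pos s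
      · have hkI := (hsw.other k (ne_of_gt h1) hkj).mp hk
        exact hx k hkI
    · have hkI := (hsw.other k (ne_of_gt h1) (ne_of_gt h2)).mp hk
      rw [R.swap_rootFn_gt hsw hr h2, mul_inv_rev, cs.inv_simple, rho_mul]
      apply R.simple_pos (hx k hkI)
      intro h3
      have h4 : R.rootFn Q I k = R.rootFn Q I j := by
        rw [hjr, ← h3, rho_rho_inv]
      exact absurd (R.lt_of_contact_eq hI hj h4) (not_le.mpr h2)

/-- The flip downwards. -/
theorem flip_down {m : ℕ} {Q : Fin m → B} {ω : W} {J : Finset (Fin m)}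
    (hJ : IsFacet cs Q ω J) {x : W} {s : B}
    (hx : x * cs.simple s ∈ R.linExt Q J)
    (hinv : R.ρ x (R.α s) ∈ R.Inv ω) {j : Fin m} (hj : j ∈ J)
    (hjr : R.rootFn Q J j = - R.ρ x (R.α s))
    (hlast : ∀ k ∈ J, j < k → R.rootFn Q J k ≠ - R.ρ x (R.α s)) :
    ∃ i, i ∉ J ∧ i < j ∧ R.rootFn Q J i = R.ρ x (R.α s) ∧
      IsFacet cs Q ω (insert i (J.erase j)) ∧
      x ∈ R.linExt Q (insert i (J.erase j)) := by
  obtain ⟨i, hi, hir⟩ := R.exists_crossing' hJ hinv
  have hlt : i < j := R.lt_of_contact_eq_neg hJ hi (by rw [hjr, hir])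
  have hsw := isSwap_down hj hi hlt
  have hr : R.rootFn Q J i = R.rootFn Q J j ∨ R.rootFn Q J i = - R.rootFn Q J j :=
    Or.inr (by rw [hjr, hir, neg_neg])
  refine ⟨i, hi, hlt, hir, R.swap_facet hJ hsw (by tauto) hr, ?_⟩
  have hx' : ∀ k ∈ J, R.ρ (cs.simple s) (R.ρ x⁻¹ (R.rootFn Q J k)) ∈ R.posRoots := by
    rw [mem_linExt] at hx
    intro k hk
    have := hx k hk
    rwa [mul_inv_rev, cs.inv_simple, rho_mul] at this
  -- a contact root different from `-γ` stays positive
  have key : ∀ k ∈ J, R.rootFn Q J k ≠ - R.ρ x (R.α s) →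
      R.ρ x⁻¹ (R.rootFn Q J k) ∈ R.posRoots := by
    intro k hk hne
    have h1 := hx' k hk
    have h2 : R.ρ (cs.simple s) (R.ρ x⁻¹ (R.rootFn Q J k)) ≠ R.α s := by
      intro h3
      apply hne
      have h4 : R.ρ x⁻¹ (R.rootFn Q J k) = - R.α s := by
        rw [← R.simple_simple s (R.ρ x⁻¹ (R.rootFn Q J k)), h3, simple_alpha]
      rw [← R.rho_rho_inv x (R.rootFn Q J k), h4, map_neg]
    have h3 := R.simple_pos h1 h2
    rwa [simple_simple] at h3
  rw [mem_linExt]
  intro k hk
  rcases le_or_gt k i with h1 | h1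
  · rw [R.swap_rootFn_le hsw h1]
    by_cases hki : k = i
    · subst hki
      rw [hir, rho_inv_rho]; exact R.alpha_pos s
    · have hkJ : k ∈ J := by
        exact (hsw.other k hki (by rintro rfl; exact absurd hlt (not_lt.mpr h1))).mp hk
      apply key k hkJ
      intro h2
      have h3 := R.lt_of_contact_eq_neg hJ hi (l := k) (by rw [h2, hir])
      exact absurd h3 (not_lt.mpr h1)
  · rcases le_or_gt k j with h2 | h2
    · have hkj : k ≠ j := by
        rintro rfl
        rw [Finset.mem_insert, Finset.mem_erase] at hk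
        rcases hk with hk | hk
        · exact absurd hk (ne_of_gt hlt)
        · exact hk.1 rfl
      have hkJ := (hsw.other k (ne_of_gt h1) hkj).mp hk
      rw [R.swap_rootFn_mid hsw h1 h2]
      have h3 := R.simple_inv_reflAt hir (R.ρ (reflAt cs Q J i) (R.rootFn Q J k))
      rw [← h3, ← R.rho_mul (reflAt cs Q J i), reflAt_sq, rho_one]
      rw [mem_linExt] at hx
      exact hx k hkJ
    · have hkJ := (hsw.other k (ne_of_gt h1) (ne_of_gt h2)).mp hk
      rw [R.swap_rootFn_gt hsw hr h2]
      exact key k hkJ (hlast k hkJ h2)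

end RootSystemOf

end Pool.Agent.SubwordFlip
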