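import Pool.Agent.SubwordFlip.Basic

open scoped InnerProductSpace

set_option linter.unusedSectionVars false

namespace Pool.Agent.SubwordFlip

variable {B W V : Type*} [Fintype B] [Group W] {M : CoxeterMatrix B} {cs : CoxeterSystem M W}
  [NormedAddCommGroup V] [InnerProductSpace ℝ V]

namespace RootSystemOf

variable (R : RootSystemOf cs V)

/-- neighbours make an angle of at least 120 degrees -/
theorem inner_sq_ge {s t : B} (h : s ≠ t) (hne : inner ℝ (R.α s) (R.α t) ≠ 0) :
    inner ℝ (R.α s) (R.α s) * inner ℝ (R.α t) (R.α t) ≤ 4 * (inner ℝ (R.α s) (R.α t))^2 := by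
  have hs := R.inner_alpha_pos s
  have ht := R.inner_alpha_pos t
  have hst := R.inner_alpha_nonpos h
  have hneg : inner ℝ (R.α s) (R.α t) < 0 := lt_of_le_of_ne hst hne
  set p := inner ℝ (R.α s) (R.α t) with hp
  have hp' : inner ℝ (R.α t) (R.α s) = p := real_inner_comm _ _
  set ns := inner ℝ (R.α s) (R.α s) with hns
  set nt := inner ℝ (R.α t) (R.α t) with hnt
  have h1 : R.ρ (cs.simple t) (R.ρ (cs.simple s) (R.α t))
      = (-(2 * p / ns)) • R.α s + (4 * p^2 / (ns * nt) - 1) • R.α t := by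
    rw [R.simple_apply s, map_sub, map_smul, R.simple_alpha, R.simple_apply t, hp', ← hnt, ← hp,
      ← hns]
    have : (4 * p^2 / (ns * nt) - 1) = (2 * p / ns) * (2 * p / nt) - 1 := by
      field_simp; ring
    rw [this]
    module
  have hroot : R.ρ (cs.simple t) (R.ρ (cs.simple s) (R.α t)) ∈ R.roots :=
    R.mem_roots_rho (R.mem_roots_rho (R.alpha_mem t) _) _
  have hcs : R.coef (R.ρ (cs.simple t) (R.ρ (cs.simple s) (R.α t))) s = -(2 * p / ns) := by
    rw [h1, map_add, map_smul, map_smul, Pi.add_apply, Pi.smul_apply, Pi.smul_apply,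
      R.coef_alpha_self, R.coef_alpha_ne h]
    simp
  have hct : R.coef (R.ρ (cs.simple t) (R.ρ (cs.simple s) (R.α t))) t
      = 4 * p^2 / (ns * nt) - 1 := by
    rw [h1, map_add, map_smul, map_smul, Pi.add_apply, Pi.smul_apply, Pi.smul_apply,
      R.coef_alpha_self, R.coef_alpha_ne (Ne.symm h)]
    simp
  have hpos : R.ρ (cs.simple t) (R.ρ (cs.simple s) (R.α t)) ∈ R.posRoots := by
    apply R.pos_of_coef_pos hroot (j := s)
    rw [hcs]
    have : 2 * p / ns < 0 := div_neg_of_neg_of_pos (by linarith) hs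
    linarith
  have h2 := R.coef_nonneg hpos t
  rw [hct] at h2
  have h3 : 1 ≤ 4 * p^2 / (ns * nt) := by linarith
  rwa [le_div_iff₀ (mul_pos hs ht), one_mul] at h3

/-- normalised simple roots -/
theorem inner_unit_le {s t : B} (h : s ≠ t) (hne : inner ℝ (R.α s) (R.α t) ≠ 0) :
    inner ℝ ((‖R.α s‖⁻¹) • R.α s) ((‖R.α t‖⁻¹) • R.α t) ≤ -(1/2 : ℝ) := by
  have hs : 0 < ‖R.α s‖ := norm_pos_iff.mpr (R.alpha_ne s)
  have ht : 0 < ‖R.α t‖ := norm_pos_iff.mpr (R.alpha_ne t)
  have h1 := R.inner_sq_ge h hne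
  have h2 := R.inner_alpha_nonpos h
  rw [real_inner_self_eq_norm_sq, real_inner_self_eq_norm_sq] at h1
  rw [real_inner_smul_left, real_inner_smul_right]
  have h3 : ‖R.α s‖ * ‖R.α t‖ ≤ - 2 * inner ℝ (R.α s) (R.α t) := by
    apply le_of_sq_le_sq _ (by linarith)
    nlinarith [h1]
  have h4 : ‖R.α s‖⁻¹ * (‖R.α t‖⁻¹ * inner ℝ (R.α s) (R.α t))
      = inner ℝ (R.α s) (R.α t) / (‖R.α s‖ * ‖R.α t‖) := by
    field_simp
  rw [h4, div_le_iff₀ (mul_pos hs ht)]
  linarith

theorem inner_unit_self (s : B) :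
    inner ℝ ((‖R.α s‖⁻¹) • R.α s) ((‖R.α s‖⁻¹) • R.α s) = (1 : ℝ) := by
  have hs : 0 < ‖R.α s‖ := norm_pos_iff.mpr (R.alpha_ne s)
  rw [real_inner_smul_left, real_inner_smul_right, real_inner_self_eq_norm_sq]
  field_simp

theorem inner_unit_nonpos {s t : B} (h : s ≠ t) :
    inner ℝ ((‖R.α s‖⁻¹) • R.α s) ((‖R.α t‖⁻¹) • R.α t) ≤ (0 : ℝ) := by
  rw [real_inner_smul_left, real_inner_smul_right]
  have h2 := R.inner_alpha_nonpos h
  have h3 : 0 ≤ ‖R.α s‖⁻¹ := inv_nonneg.mpr (norm_nonneg _)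
  have h4 : 0 ≤ ‖R.α t‖⁻¹ := inv_nonneg.mpr (norm_nonneg _)
  exact mul_nonpos_of_nonneg_of_nonpos h3 (mul_nonpos_of_nonneg_of_nonpos h4 h2)

/-- every nonempty set of simple roots has an element with at most one neighbour -/
theorem exists_leaf (T : Finset B) (hT : T.Nonempty) :
    ∃ s ∈ T, ∀ t ∈ T, ∀ t' ∈ T, t ≠ s → t' ≠ s → inner ℝ (R.α s) (R.α t) ≠ 0 →
      inner ℝ (R.α s) (R.α t') ≠ 0 → t = t' := by
  classical
  by_contra hcon
  push Not at hcon
  set u : B → V := fun s => (‖R.α s‖⁻¹) • R.α s with hu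
  have hv : ∀ s ∈ T, inner ℝ (u s) (∑ t ∈ T, u t) ≤ (0:ℝ) := by
    intro s hs
    obtain ⟨t, ht, t', ht', h1, h2, h3, h4, h5⟩ := hcon s hs
    rw [inner_sum]
    rw [← Finset.add_sum_erase T (fun t => inner ℝ (u s) (u t)) hs]
    have hte : t ∈ T.erase s := Finset.mem_erase.mpr ⟨h1, ht⟩
    rw [← Finset.add_sum_erase (T.erase s) (fun t => inner ℝ (u s) (u t)) hte]
    have hte' : t' ∈ (T.erase s).erase t :=
      Finset.mem_erase.mpr ⟨Ne.symm h5, Finset.mem_erase.mpr ⟨h2, ht'⟩⟩
    rw [← Finset.add_sum_erase ((T.erase s).erase t) (fun t => inner ℝ (u s) (u t)) hte']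
    have e1 : inner ℝ (u s) (u s) = (1:ℝ) := R.inner_unit_self s
    have e2 : inner ℝ (u s) (u t) ≤ -(1/2:ℝ) := R.inner_unit_le (Ne.symm h1) h3
    have e3 : inner ℝ (u s) (u t') ≤ -(1/2:ℝ) := R.inner_unit_le (Ne.symm h2) h4
    have e4 : ∑ x ∈ ((T.erase s).erase t).erase t', inner ℝ (u s) (u x) ≤ (0:ℝ) := by
      apply Finset.sum_nonpos
      intro x hx
      rw [Finset.mem_erase, Finset.mem_erase, Finset.mem_erase] at hx
      exact R.inner_unit_nonpos (Ne.symm hx.2.2.1)
    linarith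
  have h0 : inner ℝ (∑ t ∈ T, u t) (∑ t ∈ T, u t) ≤ (0:ℝ) := by
    rw [sum_inner]
    exact Finset.sum_nonpos hv
  have h1 : ∑ t ∈ T, u t = 0 := by
    have h5 : inner ℝ (∑ t ∈ T, u t) (∑ t ∈ T, u t) = (0:ℝ) :=
      le_antisymm h0 real_inner_self_nonneg
    exact inner_self_eq_zero.mp h5
  have h2 : ∑ t ∈ T, (‖R.α t‖⁻¹) • R.α t = 0 := h1
  have h3 := linearIndependent_iff'.mp R.linInd T (fun t => ‖R.α t‖⁻¹) h2
  obtain ⟨s, hs⟩ := hT
  have h4 := h3 s hs
  have hs' : 0 < ‖R.α s‖ := norm_pos_iff.mpr (R.alpha_ne s)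
  exact (inv_pos.mpr hs').ne' h4

/-- potentials on the Coxeter graph, which is a forest -/
theorem exists_potential (δ : B → B → ℝ) (hδ : ∀ s t, δ t s = - δ s t) (T : Finset B) :
    ∃ c : B → ℝ, ∀ s ∈ T, ∀ t ∈ T, s ≠ t → inner ℝ (R.α s) (R.α t) ≠ 0 → c t = c s + δ s t := by
  classical
  induction T using Finset.strongInduction with
  | H T ih =>
    by_cases hT : T.Nonempty
    · obtain ⟨s, hs, hleaf⟩ := R.exists_leaf T hT
      obtain ⟨c, hc⟩ := ih (T.erase s) (Finset.erase_ssubset hs)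
      by_cases hn : ∃ t ∈ T, t ≠ s ∧ inner ℝ (R.α s) (R.α t) ≠ 0
      · obtain ⟨t, ht, hts, hst⟩ := hn
        refine ⟨Function.update c s (c t - δ s t), ?_⟩
        intro a ha b hb hab hne
        by_cases has : a = s
        · subst has
          have hb' : b = t := (hleaf b hb t ht (Ne.symm hab) hts hne hst)
          subst hb'
          rw [Function.update_self, Function.update_of_ne (Ne.symm hab)]
          ring
        · by_cases hbs : b = s
          · subst hbs
            have hne' : inner ℝ (R.α b) (R.α a) ≠ 0 := by rwa [real_inner_comm]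
            have ha' : a = t := (hleaf a ha t ht hab hts hne' hst)
            subst ha'
            rw [Function.update_self, Function.update_of_ne hab, hδ b a]
            ring
          · rw [Function.update_of_ne has, Function.update_of_ne hbs]
            exact hc a (Finset.mem_erase.mpr ⟨has, ha⟩) b (Finset.mem_erase.mpr ⟨hbs, hb⟩) hab hne
      · push Not at hn
        refine ⟨c, ?_⟩
        intro a ha b hb hab hne
        by_cases has : a = s
        · subst has
          exact absurd (hn b hb (Ne.symm hab)) hne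
        · by_cases hbs : b = s
          · subst hbs
            have hne' : inner ℝ (R.α b) (R.α a) ≠ 0 := by rwa [real_inner_comm]
            exact absurd (hn a ha hab) hne'
          · exact hc a (Finset.mem_erase.mpr ⟨has, ha⟩) b (Finset.mem_erase.mpr ⟨hbs, hb⟩) hab hne
    · rw [Finset.not_nonempty_iff_eq_empty] at hT
      subst hT
      exact ⟨0, fun s hs => absurd hs (Finset.notMem_empty _)⟩

theorem noncomm_of_inner_ne {s t : B} (h : s ≠ t) (hne : inner ℝ (R.α s) (R.α t) ≠ 0) :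
    cs.simple s * cs.simple t ≠ cs.simple t * cs.simple s := by
  intro hcomm
  have h1 : R.ρ (cs.simple s) (R.ρ (cs.simple t) (R.α t))
      = R.ρ (cs.simple t) (R.ρ (cs.simple s) (R.α t)) := by
    rw [← rho_mul, ← rho_mul, hcomm]
  have h2 : R.coef (R.ρ (cs.simple s) (R.ρ (cs.simple t) (R.α t))) s
      = R.coef (R.ρ (cs.simple t) (R.ρ (cs.simple s) (R.α t))) s := by rw [h1]
  rw [R.simple_alpha, R.simple_apply s (R.α t), map_sub, R.simple_alpha, map_smul,
    R.simple_apply t (R.α s), map_neg, R.simple_apply s (R.α t)] at h2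
  simp only [map_sub, map_smul, map_neg, Pi.sub_apply, Pi.smul_apply, Pi.neg_apply,
    R.coef_alpha_self, R.coef_alpha_ne h, smul_eq_mul, mul_one, mul_zero, sub_zero, neg_zero,
    zero_sub, neg_neg] at h2
  have h3 : 2 * inner ℝ (R.α t) (R.α s) / inner ℝ (R.α s) (R.α s) = 0 := by linarith
  have h4 := R.inner_alpha_pos s
  rw [div_eq_zero_iff] at h3
  rcases h3 with h3 | h3
  · apply hne
    rw [real_inner_comm]; linarith
  · exact h4.ne' h3

end RootSystemOf

/-- the next letter of `Q` at or after `n` among `s`, `t` is `s` -/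
def NextIs {m : ℕ} (Q : Fin m → B) (n : ℕ) (s t : B) : Prop :=
  ∃ a : Fin m, n ≤ a.val ∧ Q a = s ∧ ∀ b : Fin m, n ≤ b.val → b ≤ a → Q b ≠ t

theorem NextIs.asymm {m : ℕ} {Q : Fin m → B} {n : ℕ} {s t : B} (h : NextIs Q n s t)
    (h' : NextIs Q n t s) : False := by
  obtain ⟨a, h1, h2, h3⟩ := h
  obtain ⟨b, h4, h5, h6⟩ := h'
  rcases le_total a b with h | h
  · exact h6 a h1 h h2
  · exact h3 b h4 h h5

namespace RootSystemOf

variable (R : RootSystemOf cs V)

open Classical in
/-- the height function of an alternating word -/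
theorem exists_height {m : ℕ} (Q : Fin m → B) (hQ : Alternating cs Q) :
    ∃ x : ℕ → B → ℝ,
      (∀ k : Fin m, x (k.val + 1) = x k.val + Pi.single (Q k) 1) ∧
      (∀ k : Fin m, ∀ t, t ≠ Q k → inner ℝ (R.α (Q k)) (R.α t) ≠ 0 →
        x k.val t = x k.val (Q k) + 1/2) := by
  obtain ⟨c, hc⟩ := R.exists_potential
    (fun s t => if NextIs Q 0 s t then 1/2 else if NextIs Q 0 t s then -(1/2) else 0)
    (by
      intro s t
      by_cases h1 : NextIs Q 0 s t
      · have h2 : ¬ NextIs Q 0 t s := fun h => h1.asymm h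
        rw [if_pos h1, if_neg h2, if_pos h1]
      · by_cases h2 : NextIs Q 0 t s
        · rw [if_pos h2, if_neg h1, if_pos h2, neg_neg]
        · rw [if_neg h1, if_neg h2, if_neg h2, if_neg h1, neg_zero]) Finset.univ
  let x : ℕ → B → ℝ := fun n => Nat.rec c
    (fun n xn => xn + (if h : n < m then Pi.single (Q ⟨n, h⟩) 1 else 0)) n
  have hx0 : x 0 = c := rfl
  have hxs : ∀ k : Fin m, x (k.val + 1) = x k.val + Pi.single (Q k) 1 := by
    intro k
    have : x (k.val + 1) = x k.val + (if h : k.val < m then Pi.single (Q ⟨k.val, h⟩) 1 else 0) :=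
      rfl
    rw [this, dif_pos k.isLt]
  have hinv : ∀ n, n ≤ m → ∀ s t, s ≠ t → inner ℝ (R.α s) (R.α t) ≠ 0 → NextIs Q n s t →
      x n t = x n s + 1/2 := by
    intro n
    induction n with
    | zero =>
      intro _ s t hst hne hnext
      rw [hx0, hc s (Finset.mem_univ _) t (Finset.mem_univ _) hst hne, if_pos hnext]
    | succ n ih =>
      intro hn s t hst hne hnext
      have e := hxs ⟨n, hn⟩
      simp only at e
      rw [e]
      by_cases h1 : Q ⟨n, hn⟩ = t
      · have hnx : NextIs Q n t s := by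
          refine ⟨⟨n, hn⟩, le_rfl, h1, ?_⟩
          intro b hb1 hb2
          have : b = ⟨n, hn⟩ := by
            apply le_antisymm hb2
            rw [Fin.le_def]; exact hb1
          rw [this, h1]; exact Ne.symm hst
        have h2 := ih (by omega) t s (Ne.symm hst) (by rwa [real_inner_comm]) hnx
        rw [Pi.add_apply, Pi.add_apply, h1, Pi.single_eq_same, Pi.single_eq_of_ne hst, h2]
        ring
      · by_cases h3 : Q ⟨n, hn⟩ = s
        · exfalso
          obtain ⟨a, ha1, ha2, ha3⟩ := hnext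
          obtain ⟨d, hd1, hd2, hd3⟩ := hQ s t (R.noncomm_of_inner_ne hst hne) ⟨n, hn⟩ a
            (by rw [Fin.lt_def]; simp only; omega) h3 ha2
          rw [Fin.lt_def] at hd1
          simp only at hd1
          exact ha3 d (by omega) hd2.le hd3
        · have hnx : NextIs Q n s t := by
            obtain ⟨a, ha1, ha2, ha3⟩ := hnext
            refine ⟨a, by omega, ha2, ?_⟩
            intro b hb1 hb2
            by_cases hb : b = ⟨n, hn⟩
            · rw [hb]; exact h1
            · apply ha3 b _ hb2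
              have : b.val ≠ n := fun h => hb (Fin.ext h)
              omega
          have h2 := ih (by omega) s t hst hne hnx
          rw [Pi.add_apply, Pi.add_apply, Pi.single_eq_of_ne (Ne.symm h1),
            Pi.single_eq_of_ne (Ne.symm h3), h2]
          ring
  refine ⟨x, hxs, ?_⟩
  intro k t ht hne
  apply hinv k.val k.isLt.le (Q k) t (Ne.symm ht) hne
  refine ⟨k, le_rfl, rfl, ?_⟩
  intro b hb1 hb2
  have : b = k := le_antisymm hb2 (by rw [Fin.le_def]; exact hb1)
  rw [this]; exact Ne.symm ht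

end RootSystemOf

end Pool.Agent.SubwordFlip
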