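import Pool.Agent.SubwordFlip.Part
import Pool.Agent.SubwordFlip.Height

open scoped InnerProductSpace

set_option linter.unusedSectionVars false

namespace Pool.Agent.SubwordFlip

variable {B W V : Type*} [Fintype B] [Group W] {M : CoxeterMatrix B} {cs : CoxeterSystem M W}
  [NormedAddCommGroup V] [InnerProductSpace ℝ V]

namespace RootSystemOf

variable (R : RootSystemOf cs V)

/-- the diagonal operator with eigenvalues `x` in the basis of simple roots -/
noncomputable def diag (x : B → ℝ) (b : V) : V := ∑ s, (x s * R.coef b s) • R.α s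

theorem diag_alpha (x : B → ℝ) (i : B) : R.diag x (R.α i) = x i • R.α i := by
  classical
  unfold diag
  rw [Finset.sum_eq_single i]
  · rw [R.coef_alpha_self, mul_one]
  · intro j _ hj
    rw [R.coef_alpha_ne hj, mul_zero, zero_smul]
  · intro h; exact absurd (Finset.mem_univ _) h

theorem diag_single [DecidableEq B] (x : B → ℝ) (i : B) (b : V) :
    R.diag (x + Pi.single i 1) b = R.diag x b + R.coef b i • R.α i := by
  unfold diag
  have : ∀ s, ((x + (Pi.single i 1 : B → ℝ)) s * R.coef b s) • R.α s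
      = (x s * R.coef b s) • R.α s + ((Pi.single i 1 : B → ℝ) s * R.coef b s) • R.α s := by
    intro s
    rw [Pi.add_apply]; module
  simp_rw [this]
  rw [Finset.sum_add_distrib]
  congr 1
  rw [Finset.sum_eq_single i]
  · rw [Pi.single_eq_same, one_mul]
  · intro j _ hj
    rw [Pi.single_eq_of_ne hj, zero_mul, zero_smul]
  · intro h; exact absurd (Finset.mem_univ _) h

theorem diag_sub_smul (x : B → ℝ) (i : B) (b : V) (c : ℝ) :
    R.diag x (b - c • R.α i) = R.diag x b - (c * x i) • R.α i := by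
  have h1 : R.diag x (b - c • R.α i) = R.diag x b - c • R.diag x (R.α i) := by
    unfold diag
    rw [Finset.smul_sum, ← Finset.sum_sub_distrib]
    apply Finset.sum_congr rfl
    intro s _
    rw [map_sub, map_smul, Pi.sub_apply, Pi.smul_apply, smul_eq_mul]
    module
  rw [h1, diag_alpha, smul_smul]

/-- the crossing step -/
theorem diag_cross [DecidableEq B] (x : B → ℝ) (i : B) (b : V)
    (hb : b = ∑ s, R.coef b s • R.α s)
    (hx : ∀ t, t ≠ i → inner ℝ (R.α i) (R.α t) ≠ 0 → x t = x i + 1/2) :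
    R.ρ (cs.simple i) (R.diag (x + Pi.single i 1) (R.ρ (cs.simple i) b))
      = R.diag x b + (inner ℝ b (R.α i) / inner ℝ (R.α i) (R.α i)) • R.α i := by
  have hN := (R.inner_alpha_pos i).ne'
  set N := inner ℝ (R.α i) (R.α i) with hNdef
  set p := inner ℝ b (R.α i) with hp
  have h1 : inner ℝ (R.diag x b) (R.α i) = (x i + 1/2) * p - 1/2 * R.coef b i * N := by
    have e1 : p = ∑ s, R.coef b s * inner ℝ (R.α s) (R.α i) := by
      rw [hp]
      conv_lhs => rw [hb]
      rw [sum_inner]
      apply Finset.sum_congr rfl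
      intro s _
      rw [real_inner_smul_left]
    have e2 : inner ℝ (R.diag x b) (R.α i)
        = ∑ s, (x s * R.coef b s) * inner ℝ (R.α s) (R.α i) := by
      unfold diag
      rw [sum_inner]
      apply Finset.sum_congr rfl
      intro s _
      rw [real_inner_smul_left]
    rw [e2, e1, Finset.mul_sum, ← Finset.add_sum_erase _ _ (Finset.mem_univ i),
      ← Finset.add_sum_erase (Finset.univ) (fun s => (x i + 1/2) *
        (R.coef b s * inner ℝ (R.α s) (R.α i))) (Finset.mem_univ i)]
    have e3 : ∑ s ∈ Finset.univ.erase i, (x s * R.coef b s) * inner ℝ (R.α s) (R.α i)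
        = ∑ s ∈ Finset.univ.erase i, (x i + 1/2) *
          (R.coef b s * inner ℝ (R.α s) (R.α i)) := by
      apply Finset.sum_congr rfl
      intro s hs
      rw [Finset.mem_erase] at hs
      by_cases hne : inner ℝ (R.α i) (R.α s) = 0
      · have : inner ℝ (R.α s) (R.α i) = 0 := by rwa [real_inner_comm]
        rw [this]; ring
      · rw [hx s hs.1 hne]; ring
    rw [e3]
    ring
  have hsb : R.ρ (cs.simple i) b = b - (2 * p / N) • R.α i := R.simple_apply i b
  rw [hsb, diag_single, diag_sub_smul, map_add, map_sub, map_smul, map_smul, R.simple_alpha,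
    R.simple_apply i (R.diag x b), h1, map_sub, map_smul, Pi.sub_apply, Pi.smul_apply,
    R.coef_alpha_self, ← hNdef]
  have e4 : R.diag x b - (2 * ((x i + 1/2) * p - 1/2 * R.coef b i * N) / N) • R.α i
      - (2 * p / N * x i) • -R.α i + (R.coef b i - (2 * p / N) • 1) • -R.α i
      = R.diag x b + (-(2 * ((x i + 1/2) * p - 1/2 * R.coef b i * N) / N)
        + (2 * p / N * x i) - (R.coef b i - (2 * p / N))) • R.α i := by
    simp only [smul_eq_mul, mul_one]
    module
  rw [e4]
  congr 2
  field_simp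
  ring

section sums

variable {m : ℕ} (Q : Fin m → B) (I : Finset (Fin m))

/-- the coefficient `θ_k` -/
noncomputable def theta (β : V) (k : Fin m) : ℝ :=
  R.coef (R.ρ (pre cs Q I k.val)⁻¹ β) (Q k)

/-- the contribution of the position `k` -/
noncomputable def term (β : V) (k : Fin m) : V :=
  if k ∈ I then R.theta Q I β k • R.rootFn Q I k
  else (inner ℝ β (R.rootFn Q I k) / inner ℝ (R.rootFn Q I k) (R.rootFn Q I k)) • R.rootFn Q I k

/-- the conserved quantity -/
noncomputable def cons (x : ℕ → B → ℝ) (β : V) (n : ℕ) : V :=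
  R.ρ (pre cs Q I n) (R.diag (x n) (R.ρ (pre cs Q I n)⁻¹ β))

open Classical in
theorem cons_succ {x : ℕ → B → ℝ}
    (hx1 : ∀ k : Fin m, x (k.val + 1) = x k.val + Pi.single (Q k) 1)
    (hx2 : ∀ k : Fin m, ∀ t, t ≠ Q k → inner ℝ (R.α (Q k)) (R.α t) ≠ 0 →
        x k.val t = x k.val (Q k) + 1/2) {β : V} (hβ : β ∈ R.roots) (k : Fin m) :
    R.cons Q I x β (k.val + 1) = R.cons Q I x β k.val + R.term Q I β k := by
  unfold cons term
  by_cases hk : k ∈ I
  · rw [if_pos hk, pre_succ_mem Q hk, hx1, diag_single, map_add, map_smul, rootFn_eq]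
    rfl
  · rw [if_neg hk, pre_succ_not_mem Q hk, hx1, mul_inv_rev, cs.inv_simple, rho_mul, rho_mul,
      R.diag_cross (x k.val) (Q k) _ (R.root_eq_sum (R.mem_roots_rho hβ _)) (hx2 k), map_add,
      map_smul, ← rootFn_eq]
    congr 3
    · rw [← R.inner_rho (pre cs Q I k.val), rho_rho_inv, ← rootFn_eq]
    · rw [rootFn_eq, inner_rho]

/-- positions strictly after `i` and before `n` -/
def between (i : Fin m) (n : ℕ) : Finset (Fin m) :=
  Finset.univ.filter (fun k => i < k ∧ k.val < n)

open Classical in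
theorem cons_sum {x : ℕ → B → ℝ}
    (hx1 : ∀ k : Fin m, x (k.val + 1) = x k.val + Pi.single (Q k) 1)
    (hx2 : ∀ k : Fin m, ∀ t, t ≠ Q k → inner ℝ (R.α (Q k)) (R.α t) ≠ 0 →
        x k.val t = x k.val (Q k) + 1/2) {β : V} (hβ : β ∈ R.roots) (i : Fin m) {n : ℕ}
    (hn : i.val + 1 ≤ n) (hnm : n ≤ m) :
    R.cons Q I x β n = R.cons Q I x β (i.val + 1) + ∑ k ∈ between i n, R.term Q I β k := by
  induction n, hn using Nat.le_induction with
  | base =>
    have : between i (i.val + 1) = (∅ : Finset (Fin m)) := by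
      ext k
      simp only [between, Finset.mem_filter, Finset.mem_univ, true_and, Finset.notMem_empty,
        iff_false, not_and, not_lt]
      intro h
      rw [Fin.lt_def] at h; omega
    rw [this, Finset.sum_empty, add_zero]
  | succ n hn ih =>
    have h1 := R.cons_succ Q I hx1 hx2 hβ ⟨n, hnm⟩
    simp only at h1
    rw [h1, ih (by omega), add_assoc]
    congr 1
    have h2 : between i (n + 1) = insert (⟨n, hnm⟩ : Fin m) (between i n) := by
      ext k
      simp only [between, Finset.mem_filter, Finset.mem_univ, true_and, Finset.mem_insert]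
      constructor
      · rintro ⟨h3, h4⟩
        by_cases hk : k = ⟨n, hnm⟩
        · exact Or.inl hk
        · right
          refine ⟨h3, ?_⟩
          have : k.val ≠ n := fun h => hk (Fin.ext h)
          omega
      · rintro (h3 | ⟨h3, h4⟩)
        · subst h3
          refine ⟨?_, by simp⟩
          rw [Fin.lt_def]; simp only; omega
        · exact ⟨h3, by omega⟩
    rw [h2, Finset.sum_insert, add_comm]
    simp [between]

end sums

/-- summing a function of the crossing roots does not depend on the facet -/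
theorem sum_crossings {m : ℕ} {Q : Fin m → B} {ω : W} {I J : Finset (Fin m)}
    (hI : IsFacet cs Q ω I) (hJ : IsFacet cs Q ω J) (g : V → V) :
    ∑ k ∈ Iᶜ, g (R.rootFn Q I k) = ∑ k ∈ Jᶜ, g (R.rootFn Q J k) := by
  classical
  have e1 : ∀ {K : Finset (Fin m)}, IsFacet cs Q ω K →
      ∑ k ∈ Kᶜ, g (R.rootFn Q K k) = ∑ v ∈ (Kᶜ).image (R.rootFn Q K), g v := by
    intro K hK
    rw [Finset.sum_image]
    intro a ha b hb hab
    rw [Finset.mem_coe, Finset.mem_compl] at ha hb
    exact R.crossing_inj hK hb ha hab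
  rw [e1 hI, e1 hJ]
  apply Finset.sum_congr _ (fun _ _ => rfl)
  ext v
  simp only [Finset.mem_image, Finset.mem_compl]
  constructor
  · rintro ⟨k, hk, rfl⟩
    exact R.exists_crossing' hJ (R.rootFn_mem_Inv' hI hk)
  · rintro ⟨k, hk, rfl⟩
    exact R.exists_crossing' hI (R.rootFn_mem_Inv' hJ hk)

/-- the crossing part of the sum is a multiple of `β` -/
theorem crossing_part {m : ℕ} {Q : Fin m → B} {ω : W} {I : Finset (Fin m)} {i j : Fin m}
    (hI : IsFacet cs Q ω I) (hi : i ∈ I) (hj : j ∉ I) (hlt : i < j)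
    (hr : R.rootFn Q I i = R.rootFn Q I j) :
    ∃ N : ℝ, ∑ k ∈ (between i j.val).filter (fun k => k ∉ I),
      (inner ℝ (R.rootFn Q I i) (R.rootFn Q I k) /
        inner ℝ (R.rootFn Q I k) (R.rootFn Q I k)) • R.rootFn Q I k = N • R.rootFn Q I i := by
  classical
  obtain ⟨β, hβ⟩ : ∃ β, β = R.rootFn Q I i := ⟨_, rfl⟩
  have hsw := isSwap_up hi hj hlt
  obtain ⟨J, hJdef⟩ : ∃ J, J = insert j (I.erase i) := ⟨_, rfl⟩
  rw [← hJdef] at hsw
  have hJ : IsFacet cs Q ω J := R.swap_facet hI hsw (by tauto) (Or.inl hr)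
  obtain ⟨g, hg⟩ : ∃ g : V → V, g = fun v => (inner ℝ β v / inner ℝ v v) • v := ⟨_, rfl⟩
  have hsum := R.sum_crossings hI hJ g
  -- rewrite both sums as sums over all positions
  have e1 : ∀ K : Finset (Fin m), ∑ k ∈ Kᶜ, g (R.rootFn Q K k)
      = ∑ k, if k ∉ K then g (R.rootFn Q K k) else 0 := by
    intro K
    rw [← Finset.sum_filter]
    apply Finset.sum_congr _ (fun _ _ => rfl)
    ext k; simp
  rw [e1, e1, ← sub_eq_zero, ← Finset.sum_sub_distrib] at hsum
  rw [← hβ]
  have hrβ : reflAt cs Q I i = reflAt cs Q I j := R.reflAt_eq (Or.inl hr)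
  -- split off `i` and `j`
  rw [← Finset.add_sum_erase _ _ (Finset.mem_univ i),
    ← Finset.add_sum_erase (Finset.univ.erase i) _
      (Finset.mem_erase.mpr ⟨ne_of_gt hlt, Finset.mem_univ j⟩)] at hsum
  have hiJ : i ∉ J := fun h => (hsw.ha.mp h) hi
  have hjJ : j ∈ J := hsw.hb.mpr hj
  rw [if_neg (not_not.mpr hi), if_pos hiJ, if_pos hj, if_neg (not_not.mpr hjJ),
    R.swap_rootFn_le hsw le_rfl, ← hr, ← hβ] at hsum
  have hgs : ∀ v : V, g v - g (R.ρ (reflAt cs Q I i) v) = (2:ℝ) • g v -
      (inner ℝ β v / inner ℝ v v * (2 * inner ℝ v β / inner ℝ β β)) • β := by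
    intro v
    have h1 : inner ℝ β (R.ρ (reflAt cs Q I i) v) = - inner ℝ β v := by
      have h2 : β = - R.ρ (reflAt cs Q I i) β := by
        rw [hβ, rho_reflAt_self, neg_neg]
      conv_lhs => rw [h2]
      rw [inner_neg_left, inner_rho]
    have h3 : inner ℝ (R.ρ (reflAt cs Q I i) v) (R.ρ (reflAt cs Q I i) v) = inner ℝ v v :=
      R.inner_rho _ _ _
    rw [hg]
    simp only
    rw [h1, h3, rho_reflAt, ← hβ]
    module
  have hmid : ∑ k ∈ (Finset.univ.erase i).erase j,
      ((if k ∉ I then g (R.rootFn Q I k) else 0) - (if k ∉ J then g (R.rootFn Q J k) else 0))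
      = ∑ k ∈ (between i j.val).filter (fun k => k ∉ I),
        (g (R.rootFn Q I k) - g (R.ρ (reflAt cs Q I i) (R.rootFn Q I k))) := by
    have hsub : (between i j.val).filter (fun k => k ∉ I) ⊆ (Finset.univ.erase i).erase j := by
      intro k hk
      simp only [between, Finset.mem_filter, Finset.mem_univ, true_and] at hk
      rw [Finset.mem_erase, Finset.mem_erase]
      exact ⟨by rintro rfl; omega, ne_of_gt hk.1.1, Finset.mem_univ _⟩
    rw [← Finset.sum_subset hsub]
    · apply Finset.sum_congr rfl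
      intro k hk
      simp only [between, Finset.mem_filter, Finset.mem_univ, true_and] at hk
      have hkj : k < j := hk.1.2
      have h1 := hsw.other k (ne_of_gt hk.1.1) (ne_of_lt hkj)
      rw [if_pos hk.2, if_pos (fun h => hk.2 (h1.mp h)), R.swap_rootFn_mid hsw hk.1.1 hkj.le]
    · intro k hk hk2
      rw [Finset.mem_erase, Finset.mem_erase] at hk
      simp only [between, Finset.mem_filter, Finset.mem_univ, true_and, not_and, not_not] at hk2
      have h1 := hsw.other k hk.2.1 hk.1
      by_cases hkI : k ∈ I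
      · rw [if_neg (not_not.mpr hkI), if_neg (not_not.mpr (h1.mpr hkI)), sub_zero]
      · rw [if_pos hkI, if_pos (fun h => hkI (h1.mp h))]
        rcases lt_or_gt_of_ne hk.2.1 with h2 | h2
        · rw [R.swap_rootFn_le hsw h2.le, sub_self]
        · rcases lt_or_gt_of_ne hk.1 with h3 | h3
          · exact absurd (hk2 ⟨h2, h3⟩) hkI
          · rw [R.swap_rootFn_gt hsw (Or.inl hr) h3, sub_self]
  rw [hmid] at hsum
  simp_rw [hgs] at hsum
  rw [Finset.sum_sub_distrib, ← Finset.smul_sum, ← Finset.sum_smul] at hsum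
  refine ⟨(1/2) * ∑ k ∈ (between i j.val).filter (fun k => k ∉ I),
    (inner ℝ β (R.rootFn Q I k) / inner ℝ (R.rootFn Q I k) (R.rootFn Q I k)
      * (2 * inner ℝ (R.rootFn Q I k) β / inner ℝ β β)), ?_⟩
  have h5 : (2:ℝ) • ∑ k ∈ (between i j.val).filter (fun k => k ∉ I), g (R.rootFn Q I k)
      = (∑ k ∈ (between i j.val).filter (fun k => k ∉ I),
    (inner ℝ β (R.rootFn Q I k) / inner ℝ (R.rootFn Q I k) (R.rootFn Q I k)
      * (2 * inner ℝ (R.rootFn Q I k) β / inner ℝ β β))) • β := by
    rw [← sub_eq_zero]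
    rw [← hsum]
    abel
  have h6 : ∑ k ∈ (between i j.val).filter (fun k => k ∉ I), g (R.rootFn Q I k)
      = (1/2 : ℝ) • ((2:ℝ) • ∑ k ∈ (between i j.val).filter (fun k => k ∉ I),
        g (R.rootFn Q I k)) := by
    rw [smul_smul]; norm_num
  rw [hg] at h6 h5
  simp only at h6 h5
  rw [h6, h5, smul_smul]

/-- The key identity: the contact roots between `i` and `j`, weighted by `θ`, add up to a multiple
of `β`. -/
theorem key_identity {m : ℕ} {Q : Fin m → B} (hQ : Alternating cs Q) {ω : W}
    {I : Finset (Fin m)} {i j : Fin m}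
    (hI : IsFacet cs Q ω I) (hi : i ∈ I) (hj : j ∉ I) (hlt : i < j)
    (hr : R.rootFn Q I i = R.rootFn Q I j) :
    ∃ N : ℝ, ∑ k ∈ (between i j.val).filter (fun k => k ∈ I),
      R.theta Q I (R.rootFn Q I i) k • R.rootFn Q I k = N • R.rootFn Q I i := by
  classical
  obtain ⟨x, hx1, hx2⟩ := R.exists_height Q hQ
  obtain ⟨N₁, hN₁⟩ := R.crossing_part hI hi hj hlt hr
  have hroot : R.rootFn Q I i ∈ R.roots := R.rootFn_mem Q I i
  have h1 := R.cons_sum Q I hx1 hx2 hroot i (n := j.val) hlt j.isLt.le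
  have h2 : R.cons Q I x (R.rootFn Q I i) (i.val + 1)
      = x (i.val+1) (Q i) • R.rootFn Q I i := by
    unfold cons
    rw [pre_succ_mem Q hi, rootFn_eq, rho_inv_rho, diag_alpha, map_smul]
  have h3 : R.cons Q I x (R.rootFn Q I i) j.val = x j.val (Q j) • R.rootFn Q I i := by
    unfold cons
    rw [hr, rootFn_eq, rho_inv_rho, diag_alpha, map_smul]
  have h4 : ∑ k ∈ between i j.val, R.term Q I (R.rootFn Q I i) k
      = ∑ k ∈ (between i j.val).filter (fun k => k ∈ I),
          R.theta Q I (R.rootFn Q I i) k • R.rootFn Q I k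
        + ∑ k ∈ (between i j.val).filter (fun k => k ∉ I),
      (inner ℝ (R.rootFn Q I i) (R.rootFn Q I k) /
        inner ℝ (R.rootFn Q I k) (R.rootFn Q I k)) • R.rootFn Q I k := by
    rw [← Finset.sum_filter_add_sum_filter_not (between i j.val) (fun k => k ∈ I)]
    congr 1
    · apply Finset.sum_congr rfl
      intro k hk
      rw [Finset.mem_filter] at hk
      unfold term
      rw [if_pos hk.2]
    · apply Finset.sum_congr rfl
      intro k hk
      rw [Finset.mem_filter] at hk
      unfold term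
      rw [if_neg hk.2]
  rw [h2, h3, h4, hN₁] at h1
  refine ⟨x j.val (Q j) - x (i.val+1) (Q i) - N₁, ?_⟩
  rw [sub_smul, sub_smul, h1]
  abel

end RootSystemOf

end Pool.Agent.SubwordFlip
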