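import Pool.Agent.SubwordFlip.WeakLub

open scoped InnerProductSpace

set_option linter.unusedSectionVars false

namespace Pool.Agent.SubwordFlip

variable {B W V : Type*} [Fintype B] [Group W] {M : CoxeterMatrix B} {cs : CoxeterSystem M W}
  [NormedAddCommGroup V] [InnerProductSpace ℝ V]

namespace RootSystemOf

variable (R : RootSystemOf cs V)

/-- greatest lower bounds in the weak order -/
theorem exists_glb {ω x y : W} (hx : R.Inv x ⊆ R.Inv ω) (hy : R.Inv y ⊆ R.Inv ω) :
    ∃ z, R.Inv z ⊆ R.Inv ω ∧ R.Inv z ⊆ R.Inv x ∧ R.Inv z ⊆ R.Inv y ∧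
      ∀ u, R.Inv u ⊆ R.Inv ω → R.Inv u ⊆ R.Inv x → R.Inv u ⊆ R.Inv y → R.Inv u ⊆ R.Inv z := by
  classical
  have hex : ∃ n, ∃ u, R.Inv u ⊆ R.Inv x ∧ R.Inv u ⊆ R.Inv y ∧
      cs.length x - cs.length u = n :=
    ⟨_, 1, by rw [Inv_one]; exact Set.empty_subset _, by rw [Inv_one]; exact Set.empty_subset _,
      rfl⟩
  obtain ⟨z, hzx, hzy, hzn⟩ := Nat.find_spec hex
  refine ⟨z, hzx.trans hx, hzx, hzy, fun u huω hux huy => ?_⟩
  obtain ⟨v, hvω, hzv, huv, hmin⟩ := R.exists_lub (hzx.trans hx) huω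
  have hvx := hmin x hx hzx hux
  have hvy := hmin y hy hzy huy
  by_cases hne : z = v
  · rw [hne]; exact huv
  · exfalso
    have h1 := R.length_lt_of_Inv_subset hzv hne
    have h2 := R.length_le_of_Inv_subset hvx
    exact Nat.find_min hex (m := cs.length x - cs.length v) (by omega) ⟨v, hvx, hvy, rfl⟩

variable {R} in
/-- the right weak order on `[e, ω]` -/
instance instPartialOrderInterval {ω : W} : PartialOrder (R.Interval ω) where
  le x y := R.Inv x.1 ⊆ R.Inv y.1
  le_refl _ := Set.Subset.rfl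
  le_trans _ _ _ h h' := Set.Subset.trans h h'
  le_antisymm _ _ h h' := Subtype.ext (R.Inv_injective (Set.Subset.antisymm h h'))

theorem interval_le {ω : W} {x y : R.Interval ω} : x ≤ y ↔ R.Inv x.1 ⊆ R.Inv y.1 := Iff.rfl

theorem interval_lub {ω : W} (x y : R.Interval ω) :
    ∃ z : R.Interval ω, x ≤ z ∧ y ≤ z ∧ ∀ u, x ≤ u → y ≤ u → z ≤ u := by
  obtain ⟨z, hz, h1, h2, h3⟩ := R.exists_lub x.2 y.2
  exact ⟨⟨z, hz⟩, h1, h2, fun u hu hu' => h3 u.1 u.2 hu hu'⟩

theorem interval_glb {ω : W} (x y : R.Interval ω) :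
    ∃ z : R.Interval ω, z ≤ x ∧ z ≤ y ∧ ∀ u, u ≤ x → u ≤ y → u ≤ z := by
  obtain ⟨z, hz, h1, h2, h3⟩ := R.exists_glb x.2 y.2
  exact ⟨⟨z, hz⟩, h1, h2, fun u hu hu' => h3 u.1 u.2 hu hu'⟩

variable {R} in
/-- `[e, ω]` with the right weak order is a lattice -/
noncomputable instance instLatticeInterval {ω : W} : Lattice (R.Interval ω) where
  sup x y := (R.interval_lub x y).choose
  le_sup_left x y := (R.interval_lub x y).choose_spec.1
  le_sup_right x y := (R.interval_lub x y).choose_spec.2.1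
  sup_le x y z h h' := (R.interval_lub x y).choose_spec.2.2 z h h'
  inf x y := (R.interval_glb x y).choose
  inf_le_left x y := (R.interval_glb x y).choose_spec.1
  inf_le_right x y := (R.interval_glb x y).choose_spec.2.1
  le_inf x y z h h' := (R.interval_glb y z).choose_spec.2.2 x h h'

theorem Inv_finite (w : W) : (R.Inv w).Finite := by
  induction hn : cs.length w generalizing w with
  | zero =>
    rw [cs.length_eq_zero_iff] at hn
    subst hn
    rw [Inv_one]; exact Set.finite_empty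
  | succ n ih =>
    have hne : w ≠ 1 := by
      rintro rfl; rw [cs.length_one] at hn; omega
    obtain ⟨i, hi⟩ := R.exists_neg_of_ne_one hne
    have hl := R.length_of_neg hi
    have h3 : R.ρ (w * cs.simple i) (R.α i) = - R.ρ w (R.α i) := by
      rw [rho_mul, simple_alpha, map_neg]
    have h4 := R.Inv_mul_simple (w := w * cs.simple i) (i := i) (by rw [h3]; exact hi)
    rw [mul_assoc, cs.simple_mul_simple_self, mul_one] at h4
    rw [h4]
    exact (ih (w * cs.simple i) (by omega)).insert _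

instance instFiniteInterval {ω : W} : Finite (R.Interval ω) := by
  have h1 : ((R.Inv ω).powerset).Finite := (R.Inv_finite ω).finite_subsets
  have : Finite ((R.Inv ω).powerset) := h1
  exact Finite.of_injective (β := (R.Inv ω).powerset) (fun x => ⟨R.Inv x.1, x.2⟩)
    (fun x y h => Subtype.ext (R.Inv_injective (congrArg Subtype.val h)))

/-- covers in `[e, ω]` -/
theorem interval_covBy {ω : W} {x y : R.Interval ω} (h : x ⋖ y) :
    ∃ s, R.ρ x.1 (R.α s) ∈ R.posRoots ∧ y.1 = x.1 * cs.simple s := by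
  obtain ⟨s, hs, _, hsub⟩ := R.exists_up (h.1.le : R.Inv x.1 ⊆ R.Inv y.1)
    (fun h' => h.1.ne (Subtype.ext h'))
  refine ⟨s, hs, ?_⟩
  obtain ⟨z, hz⟩ : ∃ z : R.Interval ω, z.1 = x.1 * cs.simple s :=
    ⟨⟨x.1 * cs.simple s, hsub.trans y.2⟩, rfl⟩
  rw [← hz] at hsub ⊢
  have hxz : x < z := by
    rw [lt_iff_le_and_ne]
    constructor
    · change R.Inv x.1 ⊆ R.Inv z.1
      rw [hz, R.Inv_mul_simple hs]; exact Set.subset_insert _ _
    · intro h'
      have h2 : x.1 = z.1 := congrArg Subtype.val h'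
      have h3 : cs.length x.1 = cs.length z.1 := congrArg _ h2
      have h4 := R.length_of_pos hs
      rw [hz] at h3
      omega
  have hzy : z ≤ y := hsub
  rcases hzy.lt_or_eq with h5 | h5
  · exact absurd h5 (h.2 hxz)
  · exact (congrArg Subtype.val h5).symm

theorem interval_covBy_mk {ω : W} {x y : R.Interval ω} {s : B}
    (hs : R.ρ x.1 (R.α s) ∈ R.posRoots) (hy : y.1 = x.1 * cs.simple s) : x ⋖ y := by
  have h4 := R.length_of_pos hs
  constructor
  · rw [lt_iff_le_and_ne]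
    constructor
    · change R.Inv x.1 ⊆ R.Inv y.1
      rw [hy, R.Inv_mul_simple hs]; exact Set.subset_insert _ _
    · intro h'
      have h2 : x.1 = y.1 := congrArg Subtype.val h'
      have h3 : cs.length x.1 = cs.length y.1 := congrArg _ h2
      rw [hy] at h3
      omega
  · intro z hxz hzy
    have h5 := R.length_lt_of_Inv_subset (hxz.le : R.Inv x.1 ⊆ R.Inv z.1)
      (fun h => hxz.ne (Subtype.ext h))
    have h6 := R.length_lt_of_Inv_subset (hzy.le : R.Inv z.1 ⊆ R.Inv y.1)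
      (fun h => hzy.ne (Subtype.ext h))
    rw [hy] at h6
    omega

end RootSystemOf

namespace QuotLat

variable {α : Type*} [Lattice α] (c : LatticeCon α)

theorem mk_mono {x y : α} (h : x ≤ y) : mk c x ≤ mk c y := by
  rw [mk_le, sup_eq_right.mpr h]

/-- a cover in the quotient lifts to a cover -/
theorem exists_cov_of_cov [Finite α] {X Y : QuotLat c} (h : X ⋖ Y) :
    ∃ x y : α, mk c x = X ∧ mk c y = Y ∧ x ⋖ y := by
  obtain ⟨x₀, rfl⟩ := mk_surj c X
  obtain ⟨y₀, rfl⟩ := mk_surj c Y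
  have hy : mk c (x₀ ⊔ y₀) = mk c y₀ := by
    rw [← mk_sup]; exact sup_eq_right.mpr h.1.le
  -- a maximal element of the class of `x₀` below `x₀ ⊔ y₀`
  obtain ⟨x, ⟨hx1, hx2⟩, hmax⟩ := (Set.toFinite {x : α | mk c x = mk c x₀ ∧ x ≤ x₀ ⊔ y₀}).exists_maximal
    ⟨x₀, rfl, le_sup_left⟩
  have hlt : x < x₀ ⊔ y₀ := by
    rcases hx2.lt_or_eq with h1 | h1
    · exact h1
    · exfalso
      rw [h1, hy] at hx1
      exact h.1.ne hx1.symm
  obtain ⟨y, hxy, hyle⟩ := exists_covBy_le_of_lt hlt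
  refine ⟨x, y, hx1, ?_, hxy⟩
  have h1 : mk c x₀ ≤ mk c y := by rw [← hx1]; exact mk_mono c hxy.le
  have h2 : mk c y ≤ mk c y₀ := by rw [← hy]; exact mk_mono c hyle
  have h3 : mk c x₀ < mk c y := by
    rw [lt_iff_le_and_ne]
    refine ⟨h1, fun h4 => ?_⟩
    exact absurd (hmax ⟨h4.symm, hyle⟩ hxy.le) (not_le_of_gt hxy.lt)
  rcases h2.lt_or_eq with h4 | h4
  · exact absurd h4 (h.2 h3)
  · exact h4

/-- a cover maps to a cover of the quotient or is contracted -/
theorem cov_of_cov {x y : α} (h : x ⋖ y) (hne : mk c x ≠ mk c y) : mk c x ⋖ mk c y := by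
  constructor
  · exact lt_iff_le_and_ne.mpr ⟨mk_mono c h.le, hne⟩
  · intro Z hxz hzy
    obtain ⟨z, rfl⟩ := mk_surj c Z
    have e1 : mk c z ⊔ mk c x = mk c z := sup_eq_left.mpr hxz.le
    have e2 : mk c z ⊓ mk c y = mk c z := inf_eq_left.mpr hzy.le
    have h1 : mk c ((z ⊔ x) ⊓ y) = mk c z := by
      rw [← mk_inf, ← mk_sup, e1, e2]
    have h2 : x ≤ (z ⊔ x) ⊓ y := le_inf le_sup_right h.le
    have h3 : (z ⊔ x) ⊓ y ≤ y := inf_le_right
    rcases h2.lt_or_eq with h4 | h4
    · rcases h3.lt_or_eq with h5 | h5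
      · exact h.2 h4 h5
      · rw [h5] at h1; exact hzy.ne h1.symm
    · rw [← h4] at h1; exact hxz.ne h1

end QuotLat

end Pool.Agent.SubwordFlip
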