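import Pool.Agent.SubwordFlip.Arc
import Pool.Agent.SubwordFlip.Lattice



namespace Pool.Agent.SubwordFlip

open RootSystemOf

theorem main_iso {B W V : Type*} [Fintype B] [Group W] {M : CoxeterMatrix B}
    {cs : CoxeterSystem M W} [NormedAddCommGroup V] [InnerProductSpace ℝ V]
    (R : RootSystemOf cs V) {m : ℕ} (Q : Fin m → B) (ω : W) (hQ : Alternating cs Q)
    (hne : ∃ I : Finset (Fin m), IsFacet cs Q ω I)
    (c : LatticeCon (R.Interval ω))
    (hc : ∀ x y : R.Interval ω, c.r x y ↔ R.SameFacet Q ω x y) :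
    ∃ e : {I : Finset (Fin m) // R.StronglyAcyclic Q ω I} ≃ QuotLat c,
      (∀ I (x : R.Interval ω), x.1 ∈ R.linExt Q I.1 ↔ QuotLat.mk c x = e I) ∧
      ∀ I J : {I : Finset (Fin m) // R.StronglyAcyclic Q ω I},
        R.ExtremalFlip Q I.1 J.1 ↔ e I ⋖ e J := by
  classical
  -- the facet of an element
  have hfac : ∀ x : R.Interval ω, ∃ I : {I : Finset (Fin m) // R.StronglyAcyclic Q ω I},
      x.1 ∈ R.linExt Q I.1 := by
    intro x
    obtain ⟨I, hI, hx⟩ := R.exists_facet hne x.1 x.2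
    exact ⟨⟨I, hI, x.1, hx, x.2⟩, hx⟩
  have huniq : ∀ (x : R.Interval ω) (I J : {I : Finset (Fin m) // R.StronglyAcyclic Q ω I}),
      x.1 ∈ R.linExt Q I.1 → x.1 ∈ R.linExt Q J.1 → I = J := by
    intro x I J h1 h2
    exact Subtype.ext (R.unique_facet x.1 x.2 I.2.1 J.2.1 h1 h2)
  -- an element of a strongly acyclic facet
  have hrep : ∀ I : {I : Finset (Fin m) // R.StronglyAcyclic Q ω I},
      ∃ x : R.Interval ω, x.1 ∈ R.linExt Q I.1 := by
    rintro ⟨I, hI, π, hπ, hπω⟩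
    exact ⟨⟨π, hπω⟩, hπ⟩
  choose f hf using hrep
  have hmk : ∀ (I : {I : Finset (Fin m) // R.StronglyAcyclic Q ω I}) (x : R.Interval ω),
      x.1 ∈ R.linExt Q I.1 ↔ QuotLat.mk c x = QuotLat.mk c (f I) := by
    intro I x
    rw [QuotLat.mk_eq, hc]
    constructor
    · intro h
      exact ⟨I.1, I.2.1, h, hf I⟩
    · rintro ⟨K, hK, h1, h2⟩
      have h3 : K = I.1 := R.unique_facet (f I).1 (f I).2 hK I.2.1 h2 (hf I)
      rw [← h3]; exact h1
  have hbij : Function.Bijective (fun I : {I : Finset (Fin m) // R.StronglyAcyclic Q ω I} =>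
      QuotLat.mk c (f I)) := by
    constructor
    · intro I J h
      exact huniq (f I) I J (hf I) ((hmk J (f I)).mpr h)
    · intro X
      obtain ⟨x, rfl⟩ := QuotLat.mk_surj c X
      obtain ⟨I, hI⟩ := hfac x
      exact ⟨I, ((hmk I x).mp hI).symm⟩
  refine ⟨Equiv.ofBijective _ hbij, fun I x => hmk I x, fun I J => ?_⟩
  change R.ExtremalFlip Q I.1 J.1 ↔ QuotLat.mk c (f I) ⋖ QuotLat.mk c (f J)
  constructor
  · intro h
    obtain ⟨x, s, hx, hs, hω, hy⟩ := R.exists_arc hQ I.2 J.2 h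
    have hxω : R.Inv x ⊆ R.Inv ω := by
      refine Set.Subset.trans ?_ hω
      rw [R.Inv_mul_simple hs]; exact Set.subset_insert _ _
    obtain ⟨x', hx'⟩ : ∃ x' : R.Interval ω, x'.1 = x := ⟨⟨x, hxω⟩, rfl⟩
    obtain ⟨y', hy'⟩ : ∃ y' : R.Interval ω, y'.1 = x * cs.simple s := ⟨⟨_, hω⟩, rfl⟩
    have hcov : x' ⋖ y' := R.interval_covBy_mk (s := s) (by rw [hx']; exact hs)
      (by rw [hy', hx'])
    have h1 : QuotLat.mk c x' = QuotLat.mk c (f I) := (hmk I x').mp (by rw [hx']; exact hx)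
    have h2 : QuotLat.mk c y' = QuotLat.mk c (f J) := (hmk J y').mp (by rw [hy']; exact hy)
    rw [← h1, ← h2]
    apply QuotLat.cov_of_cov c hcov
    rw [h1, h2]
    intro h3
    have h4 : I = J := hbij.1 h3
    obtain ⟨i, hi, j, hj, hij, he, _⟩ := h
    rw [← h4] at hj he
    have : j ∈ I.1.erase j := by
      rw [← he]; exact Finset.mem_erase.mpr ⟨Ne.symm (ne_of_lt hij), hj⟩
    exact (Finset.mem_erase.mp this).1 rfl
  · intro h
    obtain ⟨x, y, hx, hy, hxy⟩ := QuotLat.exists_cov_of_cov c h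
    obtain ⟨s, hs, hys⟩ := R.interval_covBy hxy
    have hne' : I.1 ≠ J.1 := by
      intro h1
      have h2 : I = J := Subtype.ext h1
      exact h.1.ne (by rw [h2])
    exact R.arc_converse I.2.1 J.2.1 hne' ((hmk I x).mpr hx) hs (by rw [← hys]; exact y.2)
      (by rw [← hys]; exact (hmk J y).mpr hy)

end Pool.Agent.SubwordFlip
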