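import Pool.Agent.SubwordFlip.Flip

open scoped InnerProductSpace

set_option linter.unusedSectionVars false

namespace Pool.Agent.SubwordFlip

variable {B W V : Type*} [Fintype B] [Group W] {M : CoxeterMatrix B} {cs : CoxeterSystem M W}
  [NormedAddCommGroup V] [InnerProductSpace ℝ V]

theorem pre_eq_of_tail {m : ℕ} {Q : Fin m → B} {I J : Finset (Fin m)} {n : ℕ} (hn : n ≤ m)
    (h : ∀ k : Fin m, n ≤ k.val → (k ∈ I ↔ k ∈ J)) (ht : pre cs Q I m = pre cs Q J m) :
    pre cs Q I n = pre cs Q J n := by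
  induction hn using Nat.decreasingInduction with
  | self => exact ht
  | of_succ n hn ih =>
    have ih' := ih (fun k hk => h k (by omega))
    have h1 := h ⟨n, hn⟩ le_rfl
    by_cases hI : (⟨n, hn⟩ : Fin m) ∈ I
    · have e1 := pre_succ_mem (cs := cs) Q hI
      have e2 := pre_succ_mem (cs := cs) Q (h1.mp hI)
      simp only at e1 e2
      rw [← e1, ← e2, ih']
    · have e1 := pre_succ_not_mem (cs := cs) Q hI
      have e2 := pre_succ_not_mem (cs := cs) Q (fun hJ => hI (h1.mpr hJ))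
      simp only at e1 e2
      rw [e1, e2] at ih'
      exact mul_right_cancel ih'

namespace RootSystemOf

variable (R : RootSystemOf cs V)

theorem unique_base {m : ℕ} {Q : Fin m → B} {ω : W} {I J : Finset (Fin m)}
    (hI : IsFacet cs Q ω I) (hJ : IsFacet cs Q ω J) (h1I : (1:W) ∈ R.linExt Q I)
    (h1J : (1:W) ∈ R.linExt Q J) : I = J := by
  by_contra hne
  have hne' : (symmDiff I J).Nonempty := by
    rw [Finset.nonempty_iff_ne_empty]
    intro h
    exact hne (symmDiff_eq_bot.mp h)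
  obtain ⟨k, hk, hmax⟩ := (symmDiff I J).exists_max_image id hne'
  have htail : ∀ l : Fin m, k.val + 1 ≤ l.val → (l ∈ I ↔ l ∈ J) := by
    intro l hl
    by_contra hcon
    have h1 : l ∈ symmDiff I J := by
      rw [Finset.mem_symmDiff]; tauto
    have h2 := hmax l h1
    simp only [id] at h2
    rw [Fin.le_def] at h2
    omega
  have hpre := pre_eq_of_tail (cs := cs) (Q := Q) k.isLt htail
    (by rw [(isFacet_iff.mp hI).1, (isFacet_iff.mp hJ).1])
  simp only [Nat.succ_eq_add_one] at hpre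
  rw [mem_linExt] at h1I h1J
  rw [Finset.mem_symmDiff] at hk
  rcases hk with ⟨ha, hb⟩ | ⟨ha, hb⟩
  · have e1 := h1I k ha
    have e2 := R.rootFn_pos_of_facet hJ hb
    rw [inv_one, rho_one, rootFn_eq, ← pre_succ_mem Q ha, hpre, pre_succ_not_mem Q hb, rho_mul,
      simple_alpha, map_neg, ← rootFn_eq] at e1
    exact R.not_neg_of_pos e2 e1
  · have e1 := h1J k ha
    have e2 := R.rootFn_pos_of_facet hI hb
    rw [inv_one, rho_one, rootFn_eq, ← pre_succ_mem Q ha, ← hpre, pre_succ_not_mem Q hb, rho_mul,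
      simple_alpha, map_neg, ← rootFn_eq] at e1
    exact R.not_neg_of_pos e2 e1

/-- the first position of `I` with root `γ` -/
theorem exists_first {m : ℕ} {Q : Fin m → B} {I : Finset (Fin m)} {γ : V}
    (h : ∃ k ∈ I, R.rootFn Q I k = γ) :
    ∃ i ∈ I, R.rootFn Q I i = γ ∧ ∀ k ∈ I, k < i → R.rootFn Q I k ≠ γ := by
  classical
  obtain ⟨k, hk, hkγ⟩ := h
  obtain ⟨i, hi, hmin⟩ := (I.filter (fun k => R.rootFn Q I k = γ)).exists_min_image id
    ⟨k, by rw [Finset.mem_filter]; exact ⟨hk, hkγ⟩⟩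
  rw [Finset.mem_filter] at hi
  refine ⟨i, hi.1, hi.2, fun l hl hlt he => ?_⟩
  have := hmin l (by rw [Finset.mem_filter]; exact ⟨hl, he⟩)
  exact absurd hlt (not_lt.mpr this)

theorem exists_last {m : ℕ} {Q : Fin m → B} {I : Finset (Fin m)} {γ : V}
    (h : ∃ k ∈ I, R.rootFn Q I k = γ) :
    ∃ i ∈ I, R.rootFn Q I i = γ ∧ ∀ k ∈ I, i < k → R.rootFn Q I k ≠ γ := by
  classical
  obtain ⟨k, hk, hkγ⟩ := h
  obtain ⟨i, hi, hmax⟩ := (I.filter (fun k => R.rootFn Q I k = γ)).exists_max_image id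
    ⟨k, by rw [Finset.mem_filter]; exact ⟨hk, hkγ⟩⟩
  rw [Finset.mem_filter] at hi
  refine ⟨i, hi.1, hi.2, fun l hl hlt he => ?_⟩
  have := hmax l (by rw [Finset.mem_filter]; exact ⟨hl, he⟩)
  exact absurd hlt (not_lt.mpr this)

/-- descending one step keeps being a linear extension of some facet -/
theorem down_cases {m : ℕ} {Q : Fin m → B} {ω : W} {J : Finset (Fin m)}
    (hJ : IsFacet cs Q ω J) {x : W} {s : B}
    (hx : x * cs.simple s ∈ R.linExt Q J)
    (hinv : R.ρ x (R.α s) ∈ R.Inv ω) :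
    x ∈ R.linExt Q J ∨
    ∃ j ∈ J, ∃ i, i ∉ J ∧ i < j ∧ R.rootFn Q J i = R.ρ x (R.α s) ∧
      R.rootFn Q J j = - R.ρ x (R.α s) ∧
      IsFacet cs Q ω (insert i (J.erase j)) ∧
      x ∈ R.linExt Q (insert i (J.erase j)) := by
  by_cases h : ∃ k ∈ J, R.rootFn Q J k = - R.ρ x (R.α s)
  · obtain ⟨j, hj, hjr, hlast⟩ := R.exists_last h
    obtain ⟨i, h1, h2, h3, h4, h5⟩ := R.flip_down hJ hx hinv hj hjr hlast
    exact Or.inr ⟨j, hj, i, h1, h2, h3, hjr, h4, h5⟩
  · left
    push Not at h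
    have h1 := R.linExt_step (s := s) hx (by
      intro k hk
      rw [rho_mul, simple_alpha, map_neg]
      exact h k hk)
    rwa [mul_assoc, cs.simple_mul_simple_self, mul_one] at h1

theorem unique_facet {m : ℕ} {Q : Fin m → B} {ω : W} (π : W) (hπ : R.Inv π ⊆ R.Inv ω)
    {I J : Finset (Fin m)} (hI : IsFacet cs Q ω I) (hJ : IsFacet cs Q ω J)
    (h1 : π ∈ R.linExt Q I) (h2 : π ∈ R.linExt Q J) : I = J := by
  induction hn : cs.length π generalizing π I J with
  | zero =>
    rw [cs.length_eq_zero_iff] at hn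
    subst hn
    exact R.unique_base hI hJ h1 h2
  | succ n ih =>
    have hne : π ≠ 1 := by
      rintro rfl; rw [cs.length_one] at hn; omega
    obtain ⟨s, hs⟩ := R.exists_neg_of_ne_one hne
    obtain ⟨x, hx⟩ : ∃ x, x = π * cs.simple s := ⟨_, rfl⟩
    have hπx : π = x * cs.simple s := by
      rw [hx, mul_assoc, cs.simple_mul_simple_self, mul_one]
    have hxα : R.ρ x (R.α s) = - R.ρ π (R.α s) := by
      rw [hx, rho_mul, simple_alpha, map_neg]
    have hxpos : R.ρ x (R.α s) ∈ R.posRoots := by rw [hxα]; exact hs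
    have hInv := R.Inv_mul_simple hxpos
    rw [← hπx] at hInv
    have hγ : R.ρ x (R.α s) ∈ R.Inv ω := hπ (by rw [hInv]; exact Set.mem_insert _ _)
    have hxω : R.Inv x ⊆ R.Inv ω := by
      refine subset_trans ?_ hπ
      rw [hInv]; exact Set.subset_insert _ _
    have hlen : cs.length x = n := by
      have := R.length_of_pos hxpos
      rw [← hπx] at this; omega
    rw [hπx] at h1 h2
    -- a facet with `π` as linear extension does not contain `γ`
    have hnoγ : ∀ {K : Finset (Fin m)}, x * cs.simple s ∈ R.linExt Q K → ∀ k ∈ K,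
        R.rootFn Q K k ≠ R.ρ x (R.α s) := by
      intro K hK k hk he
      rw [mem_linExt] at hK
      have := hK k hk
      rw [he, mul_inv_rev, cs.inv_simple, rho_mul, rho_inv_rho, simple_alpha] at this
      exact R.not_neg_of_pos (R.alpha_pos s) this
    rcases R.down_cases hI h1 hγ with hI1 | ⟨j₁, hj₁, i₁, hi₁, hlt₁, hir₁, hjr₁, hF₁, hL₁⟩
    · rcases R.down_cases hJ h2 hγ with hJ1 | ⟨j₂, hj₂, i₂, hi₂, hlt₂, hir₂, hjr₂, hF₂, hL₂⟩
      · exact ih x hxω hI hJ hI1 hJ1 hlen
      · exfalso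
        have he := ih x hxω hI hF₂ hI1 hL₂ hlen
        have hsw := isSwap_down hj₂ hi₂ hlt₂
        have h3 : i₂ ∈ I := by rw [he]; exact Finset.mem_insert_self _ _
        apply hnoγ h1 i₂ h3
        rw [he, R.swap_rootFn_le hsw le_rfl, hir₂]
    · rcases R.down_cases hJ h2 hγ with hJ1 | ⟨j₂, hj₂, i₂, hi₂, hlt₂, hir₂, hjr₂, hF₂, hL₂⟩
      · exfalso
        have he := ih x hxω hJ hF₁ hJ1 hL₁ hlen
        have hsw := isSwap_down hj₁ hi₁ hlt₁
        have h3 : i₁ ∈ J := by rw [he]; exact Finset.mem_insert_self _ _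
        apply hnoγ h2 i₁ h3
        rw [he, R.swap_rootFn_le hsw le_rfl, hir₁]
      · have he := ih x hxω hF₁ hF₂ hL₁ hL₂ hlen
        have hsw₁ := isSwap_down hj₁ hi₁ hlt₁
        have hsw₂ := isSwap_down hj₂ hi₂ hlt₂
        have hneg : ∀ (v : V), R.rootFn Q I j₁ = -v → R.ρ (reflAt cs Q I i₁) (R.rootFn Q I j₁) =
            R.rootFn Q I i₁ := by
          intro v _
          rw [hjr₁, ← hir₁, map_neg, rho_reflAt_self, neg_neg]
        -- the crossing of `γ` in the common facet
        have hc₁ : R.rootFn Q (insert i₁ (I.erase j₁)) j₁ = R.ρ x (R.α s) := by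
          rw [R.swap_rootFn_mid hsw₁ hlt₁ le_rfl, hjr₁, ← hir₁, map_neg, rho_reflAt_self, neg_neg]
        have hc₂ : R.rootFn Q (insert i₂ (J.erase j₂)) j₂ = R.ρ x (R.α s) := by
          rw [R.swap_rootFn_mid hsw₂ hlt₂ le_rfl, hjr₂, ← hir₂, map_neg, rho_reflAt_self, neg_neg]
        have hn₁ : j₁ ∉ insert i₁ (I.erase j₁) := fun h => (hsw₁.hb.mp h) hj₁
        have hn₂ : j₂ ∉ insert i₂ (J.erase j₂) := fun h => (hsw₂.hb.mp h) hj₂
        have hjj : j₁ = j₂ := by
          rw [← he] at hc₂ hn₂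
          exact R.crossing_inj hF₁ hn₂ hn₁ (hc₁.trans hc₂.symm)
        have hii : i₁ = i₂ := by
          by_contra hne2
          -- the larger of the two would keep the smaller as a contact with root `γ`
          rcases lt_or_gt_of_ne hne2 with hlt | hlt
          · -- `i₁ < i₂`: `i₁ ∈ J` with root `γ`
            have h3 : i₁ ∈ insert i₂ (J.erase j₂) := by
              rw [← he]; exact Finset.mem_insert_self _ _
            have h4 : i₁ ∈ J := by
              have h5 := (hsw₂.other i₁ hne2 (by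
                rw [← hjj]; exact ne_of_lt hlt₁)).mp h3
              exact h5
            apply hnoγ h2 i₁ h4
            rw [← R.swap_rootFn_le hsw₂ hlt.le, ← he, R.swap_rootFn_le hsw₁ le_rfl, hir₁]
          · have h3 : i₂ ∈ insert i₁ (I.erase j₁) := by
              rw [he]; exact Finset.mem_insert_self _ _
            have h4 : i₂ ∈ I := by
              have h5 := (hsw₁.other i₂ (Ne.symm hne2) (by
                rw [hjj]; exact ne_of_lt hlt₂)).mp h3
              exact h5
            apply hnoγ h1 i₂ h4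
            rw [← R.swap_rootFn_le hsw₁ hlt.le, he, R.swap_rootFn_le hsw₂ le_rfl, hir₂]
        subst hjj hii
        -- recover `I` and `J`
        ext k
        by_cases hk1 : k = i₁
        · subst hk1; exact ⟨fun h => absurd h hi₁, fun h => absurd h hi₂⟩
        · by_cases hk2 : k = j₁
          · subst hk2; exact ⟨fun _ => hj₂, fun _ => hj₁⟩
          · rw [← hsw₁.other k hk1 hk2, he, hsw₂.other k hk1 hk2]

theorem exists_base {m : ℕ} {Q : Fin m → B} {ω : W}
    (hne : ∃ I : Finset (Fin m), IsFacet cs Q ω I) :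
    ∃ I : Finset (Fin m), IsFacet cs Q ω I ∧ (1:W) ∈ R.linExt Q I := by
  classical
  obtain ⟨I₀, hI₀⟩ := hne
  obtain ⟨I, hI, hmin⟩ := ((Finset.univ : Finset (Finset (Fin m))).filter
    (fun I => IsFacet cs Q ω I)).exists_min_image (fun I => ∑ k ∈ I, k.val)
    ⟨I₀, by rw [Finset.mem_filter]; exact ⟨Finset.mem_univ _, hI₀⟩⟩
  rw [Finset.mem_filter] at hI
  refine ⟨I, hI.2, ?_⟩
  rw [mem_linExt]
  intro j hj
  rw [inv_one, rho_one]
  rcases R.pos_or_neg' (R.rootFn_mem Q I j) with h | h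
  · exact h
  · exfalso
    have h1 : - R.rootFn Q I j ∈ R.Inv (pre cs Q I j.val) := R.neg_rho_alpha_mem_Inv h
    obtain ⟨i, hij, hi, hir⟩ := R.exists_crossing hI.2 j.isLt.le h1
    have hlt : i < j := hij
    have hsw := isSwap_down hj hi hlt
    have hr : R.rootFn Q I i = R.rootFn Q I j ∨ R.rootFn Q I i = - R.rootFn Q I j :=
      Or.inr hir
    have hF := R.swap_facet hI.2 hsw (by tauto) hr
    have h2 := hmin _ (by rw [Finset.mem_filter]; exact ⟨Finset.mem_univ _, hF⟩)
    rw [Finset.sum_insert (by rw [Finset.mem_erase]; tauto),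
      ← Finset.add_sum_erase I (fun k => k.val) hj] at h2
    omega

theorem exists_facet {m : ℕ} {Q : Fin m → B} {ω : W}
    (hne : ∃ I : Finset (Fin m), IsFacet cs Q ω I) (π : W) (hπ : R.Inv π ⊆ R.Inv ω) :
    ∃ I : Finset (Fin m), IsFacet cs Q ω I ∧ π ∈ R.linExt Q I := by
  induction hn : cs.length π generalizing π with
  | zero =>
    rw [cs.length_eq_zero_iff] at hn
    subst hn
    exact R.exists_base hne
  | succ n ih =>
    have hne1 : π ≠ 1 := by
      rintro rfl; rw [cs.length_one] at hn; omega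
    obtain ⟨s, hs⟩ := R.exists_neg_of_ne_one hne1
    obtain ⟨x, hx⟩ : ∃ x, x = π * cs.simple s := ⟨_, rfl⟩
    have hπx : π = x * cs.simple s := by
      rw [hx, mul_assoc, cs.simple_mul_simple_self, mul_one]
    have hxα : R.ρ x (R.α s) = - R.ρ π (R.α s) := by
      rw [hx, rho_mul, simple_alpha, map_neg]
    have hxpos : R.ρ x (R.α s) ∈ R.posRoots := by rw [hxα]; exact hs
    have hInv := R.Inv_mul_simple hxpos
    rw [← hπx] at hInv
    have hγ : R.ρ x (R.α s) ∈ R.Inv ω := hπ (by rw [hInv]; exact Set.mem_insert _ _)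
    have hxω : R.Inv x ⊆ R.Inv ω := by
      refine subset_trans ?_ hπ
      rw [hInv]; exact Set.subset_insert _ _
    have hlen : cs.length x = n := by
      have := R.length_of_pos hxpos
      rw [← hπx] at this; omega
    obtain ⟨I, hI, hxI⟩ := ih x hxω hlen
    by_cases h : ∃ k ∈ I, R.rootFn Q I k = R.ρ x (R.α s)
    · obtain ⟨i, hi, hir, hfirst⟩ := R.exists_first h
      obtain ⟨j, _, _, _, h4, h5⟩ := R.flip_up hI hxI hγ hi hir hfirst
      exact ⟨_, h4, by rw [hπx]; exact h5⟩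
    · push Not at h
      exact ⟨I, hI, by rw [hπx]; exact R.linExt_step hxI h⟩

end RootSystemOf

end Pool.Agent.SubwordFlip
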