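import Pool.Agent.SubwordFlip.Basic

open scoped InnerProductSpace

set_option linter.unusedSectionVars false

namespace Pool.Agent.SubwordFlip

variable {B W V : Type*} [Fintype B] [Group W] {M : CoxeterMatrix B} {cs : CoxeterSystem M W}
  [NormedAddCommGroup V] [InnerProductSpace ℝ V]

namespace RootSystemOf

variable (R : RootSystemOf cs V)

/-- a root in the span of two distinct simple roots has coordinates of one sign -/
theorem same_sign {i j : B} (hij : i ≠ j) {v : V} (hv : v ∈ R.roots) {a b : ℝ}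
    (h : v = a • R.α i + b • R.α j) : (0 ≤ a ∧ 0 ≤ b) ∨ (a ≤ 0 ∧ b ≤ 0) := by
  have ha : R.coef v i = a := by
    rw [h, map_add, map_smul, map_smul]
    simp only [Pi.add_apply, Pi.smul_apply, smul_eq_mul, R.coef_alpha_self, R.coef_alpha_ne hij]
    ring
  have hb : R.coef v j = b := by
    rw [h, map_add, map_smul, map_smul]
    simp only [Pi.add_apply, Pi.smul_apply, smul_eq_mul, R.coef_alpha_self,
      R.coef_alpha_ne (Ne.symm hij)]
    ring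
  rcases R.pos_or_neg' hv with h1 | h1
  · left
    exact ⟨ha ▸ R.coef_nonneg h1 i, hb ▸ R.coef_nonneg h1 j⟩
  · right
    have h2 := R.coef_nonneg h1 i
    have h3 := R.coef_nonneg h1 j
    rw [map_neg, Pi.neg_apply] at h2 h3
    constructor <;> linarith

/-- `p • a + q • b` with `p, q ≤ 0` and `a, b` positive is not a positive root -/
theorem not_pos_of_nonpos {a b g : V} (ha : a ∈ R.posRoots) (hb : b ∈ R.posRoots)
    (hg : g ∈ R.posRoots) {p q : ℝ} (hp : p ≤ 0) (hq : q ≤ 0) (h : g = p • a + q • b) :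
    False := by
  apply R.root_ne hg.1
  have h0 : R.coef g = 0 := by
    funext j
    have h1 := R.coef_nonneg hg j
    have h2 := R.coef_nonneg ha j
    have h3 := R.coef_nonneg hb j
    have h4 : R.coef g j = p * R.coef a j + q * R.coef b j := by
      rw [h]; simp
    have h5 := mul_nonneg (neg_nonneg.mpr hp) h2
    have h6 := mul_nonneg (neg_nonneg.mpr hq) h3
    simp only [Pi.zero_apply]
    linarith
  rw [R.root_eq_sum hg.1, h0]; simp

/-- the span of the images of two simple roots is unchanged by a reflection in one of them -/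
theorem span_step {i j : B} {z u : W} {v : V}
    (hi : ∃ a b : ℝ, R.ρ u (R.α i) = a • R.ρ z (R.α i) + b • R.ρ z (R.α j))
    (hj : ∃ a b : ℝ, R.ρ u (R.α j) = a • R.ρ z (R.α i) + b • R.ρ z (R.α j)) (k : B)
    (hk : k = i ∨ k = j) (hv : v = R.α i ∨ v = R.α j) :
    ∃ a b : ℝ, R.ρ (u * cs.simple k) v = a • R.ρ z (R.α i) + b • R.ρ z (R.α j) := by
  obtain ⟨a₁, b₁, h₁⟩ := hi
  obtain ⟨a₂, b₂, h₂⟩ := hj
  have hv' : ∃ a b : ℝ, R.ρ u v = a • R.ρ z (R.α i) + b • R.ρ z (R.α j) := by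
    rcases hv with rfl | rfl
    · exact ⟨_, _, h₁⟩
    · exact ⟨_, _, h₂⟩
  have hk' : ∃ a b : ℝ, R.ρ u (R.α k) = a • R.ρ z (R.α i) + b • R.ρ z (R.α j) := by
    rcases hk with rfl | rfl
    · exact ⟨_, _, h₁⟩
    · exact ⟨_, _, h₂⟩
  obtain ⟨p, q, hpq⟩ := hv'
  obtain ⟨p', q', hpq'⟩ := hk'
  rw [rho_mul, simple_apply, map_sub, map_smul, hpq, hpq']
  obtain ⟨t, ht⟩ : ∃ t, t = 2 * ⟪v, R.α k⟫_ℝ / ⟪R.α k, R.α k⟫_ℝ := ⟨_, rfl⟩
  rw [← ht]
  refine ⟨p - t * p', q - t * q', ?_⟩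
  module

theorem span_step' {i j : B} {u : W} {v : V} (k : B) (hk : k = i ∨ k = j)
    (h : ∃ a b : ℝ, v = a • R.ρ u (R.α i) + b • R.ρ u (R.α j)) :
    ∃ a b : ℝ, v = a • R.ρ (u * cs.simple k) (R.α i) + b • R.ρ (u * cs.simple k) (R.α j) := by
  obtain ⟨a₁, b₁, h₁⟩ := R.span_step (i := i) (j := j) (z := u * cs.simple k)
    (u := u * cs.simple k) (v := R.α i) ⟨1, 0, by simp⟩ ⟨0, 1, by simp⟩ k hk (Or.inl rfl)
  obtain ⟨a₂, b₂, h₂⟩ := R.span_step (i := i) (j := j) (z := u * cs.simple k)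
    (u := u * cs.simple k) (v := R.α j) ⟨1, 0, by simp⟩ ⟨0, 1, by simp⟩ k hk (Or.inr rfl)
  rw [mul_assoc, cs.simple_mul_simple_self, mul_one] at h₁ h₂
  obtain ⟨a, b, hab⟩ := h
  refine ⟨a * a₁ + b * a₂, a * b₁ + b * b₂, ?_⟩
  rw [hab, h₁, h₂]
  module

theorem pair_lub {z x : W} {i j : B} (hij : i ≠ j) (hzi : R.ρ z (R.α i) ∈ R.posRoots)
    (hzj : R.ρ z (R.α j) ∈ R.posRoots) (hzx : R.Inv z ⊆ R.Inv x)
    (hix : R.ρ z (R.α i) ∈ R.Inv x) (hjx : R.ρ z (R.α j) ∈ R.Inv x) :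
    ∃ u, R.Inv z ⊆ R.Inv u ∧ R.ρ z (R.α i) ∈ R.Inv u ∧ R.ρ z (R.α j) ∈ R.Inv u ∧
      ∀ y, R.Inv z ⊆ R.Inv y → R.ρ z (R.α i) ∈ R.Inv y → R.ρ z (R.α j) ∈ R.Inv y →
        R.Inv u ⊆ R.Inv y := by
  classical
  let P : W → Prop := fun u => R.Inv z ⊆ R.Inv u ∧ R.Inv u ⊆ R.Inv x ∧
    (∀ g ∈ R.Inv u, g ∈ R.Inv z ∨ ∃ a b : ℝ, 0 ≤ a ∧ 0 ≤ b ∧
      g = a • R.ρ z (R.α i) + b • R.ρ z (R.α j)) ∧
    (∃ a b : ℝ, R.ρ u (R.α i) = a • R.ρ z (R.α i) + b • R.ρ z (R.α j)) ∧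
    (∃ a b : ℝ, R.ρ u (R.α j) = a • R.ρ z (R.α i) + b • R.ρ z (R.α j)) ∧
    (∃ a b : ℝ, R.ρ z (R.α i) = a • R.ρ u (R.α i) + b • R.ρ u (R.α j)) ∧
    (∃ a b : ℝ, R.ρ z (R.α j) = a • R.ρ u (R.α i) + b • R.ρ u (R.α j))
  have hPz : P z := ⟨Set.Subset.rfl, hzx, fun g hg => Or.inl hg, ⟨1, 0, by simp⟩,
    ⟨0, 1, by simp⟩, ⟨1, 0, by simp⟩, ⟨0, 1, by simp⟩⟩
  have hex : ∃ n, ∃ u, P u ∧ cs.length x - cs.length u = n := ⟨_, z, hPz, rfl⟩
  obtain ⟨u, ⟨h1, h2, h3, h4, h5, h6, h7⟩, hun⟩ := Nat.find_spec hex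
  -- both roots at `u` are negative
  have hneg : ∀ k, (k = i ∨ k = j) → - R.ρ u (R.α k) ∈ R.posRoots := by
    intro k hk
    have hroot : R.ρ u (R.α k) ∈ R.roots := R.mem_roots_rho (R.alpha_mem k) u
    rcases R.pos_or_neg' hroot with hp | hn
    swap
    · exact hn
    exfalso
    have hk' : ∃ a b : ℝ, R.ρ u (R.α k) = a • R.ρ z (R.α i) + b • R.ρ z (R.α j) := by
      rcases hk with rfl | rfl
      · exact h4
      · exact h5
    obtain ⟨a, b, hab⟩ := hk'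
    have hab' : R.ρ z⁻¹ (R.ρ u (R.α k)) = a • R.α i + b • R.α j := by
      rw [hab, map_add, map_smul, map_smul, rho_inv_rho, rho_inv_rho]
    rcases R.same_sign hij (R.mem_roots_rho hroot z⁻¹) hab' with ⟨ha, hb⟩ | ⟨ha, hb⟩
    swap
    · exact R.not_pos_of_nonpos hzi hzj hp ha hb hab
    have hmx : R.ρ u (R.α k) ∈ R.Inv x := R.Inv_closed hix hjx hp ha hb hab
    have hnot : R.ρ u (R.α k) ∉ R.Inv u := R.rho_alpha_not_mem_Inv
    have hP : P (u * cs.simple k) := by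
      refine ⟨?_, ?_, ?_, ?_, ?_, ?_, ?_⟩
      · rw [R.Inv_mul_simple hp]; exact h1.trans (Set.subset_insert _ _)
      · rw [R.Inv_mul_simple hp]; exact Set.insert_subset hmx h2
      · rw [R.Inv_mul_simple hp]
        rintro g (rfl | hg)
        · exact Or.inr ⟨a, b, ha, hb, hab⟩
        · exact h3 g hg
      · exact R.span_step h4 h5 k hk (Or.inl rfl)
      · exact R.span_step h4 h5 k hk (Or.inr rfl)
      · exact R.span_step' k hk h6
      · exact R.span_step' k hk h7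
    have hl := R.length_of_pos hp
    have hle := R.length_le_of_Inv_subset hP.2.1
    exact Nat.find_min hex (m := cs.length x - cs.length (u * cs.simple k)) (by omega)
      ⟨u * cs.simple k, hP, rfl⟩
  have hni := hneg i (Or.inl rfl)
  have hnj := hneg j (Or.inr rfl)
  have hmem : ∀ v, v ∈ R.posRoots → (∃ a b : ℝ, v = a • R.ρ u (R.α i) + b • R.ρ u (R.α j)) →
      v ∈ R.Inv u := by
    rintro v hv ⟨a, b, hab⟩
    have hab' : R.ρ u⁻¹ v = a • R.α i + b • R.α j := by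
      rw [hab, map_add, map_smul, map_smul, rho_inv_rho, rho_inv_rho]
    rw [mem_Inv]
    refine ⟨hv, ?_⟩
    rcases R.pos_or_neg' (R.mem_roots_rho hv.1 u⁻¹) with hp | hn
    swap
    · exact hn
    exfalso
    rcases R.same_sign hij (R.mem_roots_rho hv.1 u⁻¹) hab' with ⟨ha, hb⟩ | ⟨ha, hb⟩
    · refine R.not_pos_of_nonpos hni hnj hv (neg_nonpos.mpr ha) (neg_nonpos.mpr hb) ?_
      rw [hab]; module
    · exact R.not_pos_of_nonpos (R.alpha_pos i) (R.alpha_pos j) hp ha hb hab'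
  refine ⟨u, h1, hmem _ hzi h6, hmem _ hzj h7, fun y hzy hiy hjy g hg => ?_⟩
  rcases h3 g hg with h | ⟨a, b, ha, hb, hab⟩
  · exact hzy h
  · exact R.Inv_closed hiy hjy (R.Inv_subset_pos hg) ha hb hab

theorem exists_lub {ω x y : W} (hx : R.Inv x ⊆ R.Inv ω) (hy : R.Inv y ⊆ R.Inv ω) :
    ∃ z, R.Inv z ⊆ R.Inv ω ∧ R.Inv x ⊆ R.Inv z ∧ R.Inv y ⊆ R.Inv z ∧
      ∀ u, R.Inv u ⊆ R.Inv ω → R.Inv x ⊆ R.Inv u → R.Inv y ⊆ R.Inv u → R.Inv z ⊆ R.Inv u := by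
  suffices H : ∀ n, ∀ z x y : W, cs.length ω - cs.length z = n → R.Inv x ⊆ R.Inv ω →
      R.Inv y ⊆ R.Inv ω → R.Inv z ⊆ R.Inv x → R.Inv z ⊆ R.Inv y →
      ∃ t, R.Inv t ⊆ R.Inv ω ∧ R.Inv x ⊆ R.Inv t ∧ R.Inv y ⊆ R.Inv t ∧
      ∀ u, R.Inv u ⊆ R.Inv ω → R.Inv x ⊆ R.Inv u → R.Inv y ⊆ R.Inv u → R.Inv t ⊆ R.Inv u by
    exact H _ 1 x y rfl hx hy (by rw [Inv_one]; exact Set.empty_subset _)
      (by rw [Inv_one]; exact Set.empty_subset _)
  intro n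
  induction n using Nat.strong_induction_on with
  | _ n ih =>
    intro z x y hn hx hy hzx hzy
    by_cases hx' : z = x
    · subst hx'
      exact ⟨y, hy, hzy, Set.Subset.rfl, fun u _ _ h => h⟩
    by_cases hy' : z = y
    · subst hy'
      exact ⟨x, hx, Set.Subset.rfl, hzx, fun u _ h _ => h⟩
    obtain ⟨i, hi1, hi2, hi3⟩ := R.exists_up hzx hx'
    obtain ⟨j, hj1, hj2, hj3⟩ := R.exists_up hzy hy'
    have hli := R.length_of_pos hi1
    have hlj := R.length_of_pos hj1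
    have hωi := R.length_le_of_Inv_subset (hi3.trans hx)
    have hωj := R.length_le_of_Inv_subset (hj3.trans hy)
    by_cases hij : i = j
    · subst hij
      exact ih _ (by omega) (z * cs.simple i) x y rfl hx hy hi3 hj3
    obtain ⟨u₀, hu1, hu2, hu3, hu4⟩ := R.pair_lub hij hi1 hj1 (hzx.trans hx) (hx hi2) (hy hj2)
    have hu₀ω : R.Inv u₀ ⊆ R.Inv ω := hu4 ω (hzx.trans hx) (hx hi2) (hy hj2)
    have hiu : R.Inv (z * cs.simple i) ⊆ R.Inv u₀ := by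
      rw [R.Inv_mul_simple hi1]; exact Set.insert_subset hu2 hu1
    have hju : R.Inv (z * cs.simple j) ⊆ R.Inv u₀ := by
      rw [R.Inv_mul_simple hj1]; exact Set.insert_subset hu3 hu1
    obtain ⟨x₁, hx1, hx2, hx3, hx4⟩ := ih _ (by omega) (z * cs.simple i) x u₀ rfl hx hu₀ω hi3 hiu
    obtain ⟨w, hw1, hw2, hw3, hw4⟩ := ih (cs.length ω - cs.length (z * cs.simple j)) (by omega)
      (z * cs.simple j) x₁ y rfl hx1 hy (hju.trans hx3) hj3
    refine ⟨w, hw1, hx2.trans hw2, hw3, fun u hu hxu hyu => ?_⟩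
    have h1 : R.Inv u₀ ⊆ R.Inv u := hu4 u (hzx.trans hxu) (hxu hi2) (hyu hj2)
    exact hw4 u hu (hx4 u hu hxu h1) hyu

end RootSystemOf

end Pool.Agent.SubwordFlip
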