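import Pool.Agent.SubwordFlip.Basic

open scoped InnerProductSpace

set_option linter.unusedSectionVars false

namespace Pool.Agent.SubwordFlip

variable {B W V : Type*} [Fintype B] [Group W] {M : CoxeterMatrix B} {cs : CoxeterSystem M W}
  [NormedAddCommGroup V] [InnerProductSpace ℝ V]

/-- positions before `n` outside `I` -/
def posn {m : ℕ} (I : Finset (Fin m)) (n : ℕ) : Finset (Fin m) :=
  Finset.univ.filter (fun l => l.val < n ∧ l ∉ I)

/-- product of the letters at positions before `n` outside `I` -/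
def pre (cs : CoxeterSystem M W) {m : ℕ} (Q : Fin m → B) (I : Finset (Fin m)) (n : ℕ) : W :=
  cs.wordProd (subword Q (posn I n))

theorem filter_finRange_succ {m : ℕ} (I : Finset (Fin m)) (n : ℕ) (h : n < m) :
    (List.finRange m).filter (fun k => k ∈ posn I (n+1))
      = (List.finRange m).filter (fun k => k ∈ posn I n)
        ++ (if (⟨n, h⟩ : Fin m) ∈ I then [] else [⟨n, h⟩]) := by
  have hsplit : List.finRange m = (List.finRange m).take n ++ (⟨n, h⟩ : Fin m) ::
      (List.finRange m).drop (n+1) := by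
    conv_lhs => rw [← List.take_append_drop n (List.finRange m)]
    congr 1
    rw [List.drop_eq_getElem_cons (by simpa using h)]
    simp
  have hA : ∀ k ∈ (List.finRange m).take n, k.val < n := by
    intro k hk
    rw [List.mem_take_iff_getElem] at hk
    obtain ⟨j, hj, rfl⟩ := hk
    simp only [List.getElem_finRange, Fin.val_cast]
    omega
  have hD : ∀ k ∈ (List.finRange m).drop (n+1), n < k.val := by
    intro k hk
    rw [List.mem_drop_iff_getElem] at hk
    obtain ⟨j, hj, rfl⟩ := hk
    simp only [List.getElem_finRange, Fin.val_cast]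
    omega
  rw [hsplit]
  simp only [List.filter_append, List.filter_cons]
  have e1 : ((List.finRange m).drop (n+1)).filter (fun k => decide (k ∈ posn I (n+1))) = [] := by
    rw [List.filter_eq_nil_iff]
    intro k hk
    have := hD k hk
    simp only [posn, Finset.mem_filter, Finset.mem_univ, true_and, decide_eq_true_eq, not_and]
    omega
  have e2 : ((List.finRange m).drop (n+1)).filter (fun k => decide (k ∈ posn I n)) = [] := by
    rw [List.filter_eq_nil_iff]
    intro k hk
    have := hD k hk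
    simp only [posn, Finset.mem_filter, Finset.mem_univ, true_and, decide_eq_true_eq, not_and]
    omega
  have e3 : ((List.finRange m).take n).filter (fun k => decide (k ∈ posn I (n+1)))
      = ((List.finRange m).take n).filter (fun k => decide (k ∈ posn I n)) := by
    apply List.filter_congr
    intro k hk
    have := hA k hk
    simp only [posn, Finset.mem_filter, Finset.mem_univ, true_and, decide_eq_decide]
    constructor
    · rintro ⟨_, h2⟩; exact ⟨this, h2⟩
    · rintro ⟨_, h2⟩; exact ⟨by omega, h2⟩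
  rw [e1, e2, e3]
  by_cases hI : (⟨n, h⟩ : Fin m) ∈ I
  · simp [posn, hI]
  · simp [posn, hI]

theorem subword_succ {m : ℕ} (Q : Fin m → B) (I : Finset (Fin m)) (k : Fin m) :
    subword Q (posn I (k.val+1)) = subword Q (posn I k.val) ++ (if k ∈ I then [] else [Q k]) := by
  unfold subword
  rw [filter_finRange_succ I k.val k.isLt, List.map_append]
  congr 1
  simp only [Fin.eta]
  split_ifs <;> simp

theorem posn_zero {m : ℕ} (I : Finset (Fin m)) : posn I 0 = ∅ := by
  ext; simp [posn]

theorem posn_last {m : ℕ} (I : Finset (Fin m)) : posn I m = Iᶜ := by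
  ext k; simp [posn]

theorem pre_zero {m : ℕ} (Q : Fin m → B) (I : Finset (Fin m)) : pre cs Q I 0 = 1 := by
  simp [pre, posn_zero, subword]

theorem pre_succ_mem {m : ℕ} (Q : Fin m → B) {I : Finset (Fin m)} {k : Fin m} (h : k ∈ I) :
    pre cs Q I (k.val+1) = pre cs Q I k.val := by
  unfold pre
  rw [subword_succ, if_pos h, List.append_nil]

theorem pre_succ_not_mem {m : ℕ} (Q : Fin m → B) {I : Finset (Fin m)} {k : Fin m} (h : k ∉ I) :
    pre cs Q I (k.val+1) = pre cs Q I k.val * cs.simple (Q k) := by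
  unfold pre
  rw [subword_succ, if_neg h, cs.wordProd_append]
  simp

theorem length_subword {m : ℕ} (Q : Fin m → B) (A : Finset (Fin m)) :
    (subword Q A).length = A.card := by
  unfold subword
  rw [List.length_map]
  have h1 : ((List.finRange m).filter (fun k => k ∈ A)).Nodup :=
    (List.nodup_finRange m).filter _
  have h2 : ((List.finRange m).filter (fun k => k ∈ A)).toFinset = A := by
    ext k; simp
  rw [← List.toFinset_card_of_nodup h1, h2]

namespace RootSystemOf

variable (R : RootSystemOf cs V)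

theorem rootFn_eq {m : ℕ} (Q : Fin m → B) (I : Finset (Fin m)) (k : Fin m) :
    R.rootFn Q I k = R.ρ (pre cs Q I k.val) (R.α (Q k)) := rfl

theorem rootFn_mem {m : ℕ} (Q : Fin m → B) (I : Finset (Fin m)) (k : Fin m) :
    R.rootFn Q I k ∈ R.roots := ⟨_, _, rfl⟩

theorem isFacet_iff {m : ℕ} {Q : Fin m → B} {ω : W} {I : Finset (Fin m)} :
    IsFacet cs Q ω I ↔ pre cs Q I m = ω ∧ (subword Q (posn I m)).length = cs.length ω := by
  unfold IsFacet pre
  rw [← posn_last]
  constructor
  · rintro ⟨h1, h2⟩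
    exact ⟨h1, by rw [← h1]; exact h2.symm⟩
  · rintro ⟨h1, h2⟩
    refine ⟨h1, ?_⟩
    unfold CoxeterSystem.IsReduced
    rw [h1, h2]

theorem length_pre_of_facet {m : ℕ} {Q : Fin m → B} {ω : W} {I : Finset (Fin m)}
    (h : IsFacet cs Q ω I) (n : ℕ) (hn : n ≤ m) :
    cs.length (pre cs Q I n) = (subword Q (posn I n)).length := by
  rw [isFacet_iff] at h
  induction hn using Nat.decreasingInduction with
  | self => rw [h.1, h.2]
  | of_succ n hn ih =>
    have h1 : cs.length (pre cs Q I n) ≤ (subword Q (posn I n)).length :=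
      cs.length_wordProd_le _
    have ih' := ih
    have e := subword_succ Q I ⟨n, hn⟩
    simp only at e
    rw [e] at ih'
    by_cases hI : (⟨n, hn⟩ : Fin m) ∈ I
    · have e2 := pre_succ_mem (cs := cs) Q hI
      simp only at e2
      rw [e2, if_pos hI, List.append_nil] at ih'
      exact ih'
    · have e2 := pre_succ_not_mem (cs := cs) Q hI
      simp only at e2
      rw [e2, if_neg hI, List.length_append, List.length_singleton] at ih'
      rcases cs.length_mul_simple (pre cs Q I n) (Q ⟨n, hn⟩) with h3 | h3 <;> omega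

theorem rootFn_pos_of_facet {m : ℕ} {Q : Fin m → B} {ω : W} {I : Finset (Fin m)}
    (h : IsFacet cs Q ω I) {k : Fin m} (hk : k ∉ I) : R.rootFn Q I k ∈ R.posRoots := by
  rw [rootFn_eq]
  apply R.pos_of_length
  rw [← pre_succ_not_mem Q hk, length_pre_of_facet h _ k.isLt, length_pre_of_facet h _ k.isLt.le,
    subword_succ, if_neg hk, List.length_append, List.length_singleton]
  omega

/-- the inversion sets of the initial products grow -/
theorem Inv_pre_succ {m : ℕ} {Q : Fin m → B} {ω : W} {I : Finset (Fin m)}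
    (h : IsFacet cs Q ω I) (k : Fin m) :
    R.Inv (pre cs Q I (k.val+1)) =
      if k ∈ I then R.Inv (pre cs Q I k.val)
      else insert (R.rootFn Q I k) (R.Inv (pre cs Q I k.val)) := by
  split_ifs with hk
  · rw [pre_succ_mem Q hk]
  · rw [pre_succ_not_mem Q hk, R.Inv_mul_simple, rootFn_eq]
    have := R.rootFn_pos_of_facet h hk
    rwa [rootFn_eq] at this

theorem Inv_pre_mono {m : ℕ} {Q : Fin m → B} {ω : W} {I : Finset (Fin m)}
    (h : IsFacet cs Q ω I) {a b : ℕ} (hab : a ≤ b) (hb : b ≤ m) :
    R.Inv (pre cs Q I a) ⊆ R.Inv (pre cs Q I b) := by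
  induction b, hab using Nat.le_induction with
  | base => exact subset_rfl
  | succ b hab ih =>
    refine (ih (by omega)).trans ?_
    have := R.Inv_pre_succ h ⟨b, hb⟩
    simp only at this
    rw [this]
    split_ifs
    · exact subset_rfl
    · exact Set.subset_insert _ _

theorem exists_crossing {m : ℕ} {Q : Fin m → B} {ω : W} {I : Finset (Fin m)}
    (h : IsFacet cs Q ω I) {n : ℕ} (hn : n ≤ m) {v : V} (hv : v ∈ R.Inv (pre cs Q I n)) :
    ∃ k : Fin m, k.val < n ∧ k ∉ I ∧ R.rootFn Q I k = v := by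
  induction n with
  | zero => rw [pre_zero, Inv_one] at hv; exact absurd hv (Set.notMem_empty _)
  | succ n ih =>
    have := R.Inv_pre_succ h ⟨n, hn⟩
    simp only at this
    rw [this] at hv
    split_ifs at hv with hI
    · obtain ⟨k, h1, h2, h3⟩ := ih (by omega) hv
      exact ⟨k, by omega, h2, h3⟩
    · rw [Set.mem_insert_iff] at hv
      rcases hv with hv | hv
      · exact ⟨⟨n, hn⟩, by simp, hI, hv.symm⟩
      · obtain ⟨k, h1, h2, h3⟩ := ih (by omega) hv
        exact ⟨k, by omega, h2, h3⟩

theorem exists_crossing' {m : ℕ} {Q : Fin m → B} {ω : W} {I : Finset (Fin m)}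
    (h : IsFacet cs Q ω I) {v : V} (hv : v ∈ R.Inv ω) :
    ∃ k : Fin m, k ∉ I ∧ R.rootFn Q I k = v := by
  have h0 := (isFacet_iff.mp h).1
  rw [← h0] at hv
  obtain ⟨k, _, h2, h3⟩ := R.exists_crossing h le_rfl hv
  exact ⟨k, h2, h3⟩

theorem rootFn_mem_Inv {m : ℕ} {Q : Fin m → B} {ω : W} {I : Finset (Fin m)}
    (h : IsFacet cs Q ω I) {k : Fin m} (hk : k ∉ I) {n : ℕ} (hkn : k.val < n) (hn : n ≤ m) :
    R.rootFn Q I k ∈ R.Inv (pre cs Q I n) := by
  apply R.Inv_pre_mono h (a := k.val + 1) (by omega) hn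
  rw [R.Inv_pre_succ h k, if_neg hk]
  exact Set.mem_insert _ _

theorem rootFn_mem_Inv' {m : ℕ} {Q : Fin m → B} {ω : W} {I : Finset (Fin m)}
    (h : IsFacet cs Q ω I) {k : Fin m} (hk : k ∉ I) : R.rootFn Q I k ∈ R.Inv ω := by
  have h0 := (isFacet_iff.mp h).1
  rw [← h0]
  exact R.rootFn_mem_Inv h hk k.isLt le_rfl

/-- if a contact root at `l` equals a crossing root at `k`, the contact is before the crossing -/
theorem lt_of_contact_eq {m : ℕ} {Q : Fin m → B} {ω : W} {I : Finset (Fin m)}
    (h : IsFacet cs Q ω I) {k l : Fin m} (hk : k ∉ I) (heq : R.rootFn Q I l = R.rootFn Q I k) :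
    l ≤ k := by
  by_contra hlt
  have h1 := R.rootFn_mem_Inv h hk (n := l.val) (by omega) l.isLt.le
  rw [← heq, rootFn_eq] at h1
  exact R.rho_alpha_not_mem_Inv h1

theorem lt_of_contact_eq_neg {m : ℕ} {Q : Fin m → B} {ω : W} {I : Finset (Fin m)}
    (h : IsFacet cs Q ω I) {k l : Fin m} (hk : k ∉ I) (heq : R.rootFn Q I l = - R.rootFn Q I k) :
    k < l := by
  by_contra hlt
  have hp := R.rootFn_pos_of_facet h hk
  have h1 : R.rootFn Q I k ∈ R.Inv (pre cs Q I l.val) := by
    have h2 := R.neg_rho_alpha_mem_Inv (w := pre cs Q I l.val) (i := Q l)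
      (by rw [← rootFn_eq, heq, neg_neg]; exact hp)
    rwa [← rootFn_eq, heq, neg_neg] at h2
  have h2 := R.Inv_pre_mono h (a := l.val) (b := k.val) (by omega) k.isLt.le h1
  rw [rootFn_eq] at h2
  exact R.rho_alpha_not_mem_Inv h2

theorem crossing_inj {m : ℕ} {Q : Fin m → B} {ω : W} {I : Finset (Fin m)}
    (h : IsFacet cs Q ω I) {k l : Fin m} (hk : k ∉ I) (hl : l ∉ I)
    (heq : R.rootFn Q I l = R.rootFn Q I k) : l = k :=
  le_antisymm (R.lt_of_contact_eq h hk heq) (R.lt_of_contact_eq h hl heq.symm)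

end RootSystemOf

/-! ### swapping two positions -/

/-- the data of a swap of the positions `a < b` -/
structure IsSwap {m : ℕ} (I J : Finset (Fin m)) (a b : Fin m) : Prop where
  lt : a < b
  other : ∀ k, k ≠ a → k ≠ b → (k ∈ J ↔ k ∈ I)
  ha : a ∈ J ↔ a ∉ I
  hb : b ∈ J ↔ b ∉ I

theorem IsSwap.symm {m : ℕ} {I J : Finset (Fin m)} {a b : Fin m} (h : IsSwap I J a b) :
    IsSwap J I a b :=
  ⟨h.lt, fun k h1 h2 => (h.other k h1 h2).symm, by have := h.ha; tauto, by have := h.hb; tauto⟩

theorem IsSwap.pre_le {m : ℕ} {Q : Fin m → B} {I J : Finset (Fin m)} {a b : Fin m}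
    (h : IsSwap I J a b) {n : ℕ} (hn : n ≤ a.val) : pre cs Q J n = pre cs Q I n := by
  induction n with
  | zero => rw [pre_zero, pre_zero]
  | succ n ih =>
    have hlt := h.lt
    have hnm : n < m := by have := a.isLt; omega
    have h1 : (⟨n, hnm⟩ : Fin m) ≠ a := by
      intro e; have := congrArg Fin.val e; simp only at this; omega
    have h2 : (⟨n, hnm⟩ : Fin m) ≠ b := by
      intro e; have := congrArg Fin.val e; simp only at this
      rw [Fin.lt_def] at hlt; omega
    have h3 := h.other _ h1 h2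
    have ih' := ih (by omega)
    by_cases hI : (⟨n, hnm⟩ : Fin m) ∈ I
    · have e1 := pre_succ_mem (cs := cs) Q hI
      have e2 := pre_succ_mem (cs := cs) Q (h3.mpr hI)
      simp only at e1 e2
      rw [e1, e2, ih']
    · have e1 := pre_succ_not_mem (cs := cs) Q hI
      have e2 := pre_succ_not_mem (cs := cs) Q (fun hJ => hI (h3.mp hJ))
      simp only at e1 e2
      rw [e1, e2, ih']

/-- the reflection attached to a position -/
def reflAt (cs : CoxeterSystem M W) {m : ℕ} (Q : Fin m → B) (I : Finset (Fin m)) (a : Fin m) : W :=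
  pre cs Q I a.val * cs.simple (Q a) * (pre cs Q I a.val)⁻¹

theorem reflAt_sq {m : ℕ} (Q : Fin m → B) (I : Finset (Fin m)) (a : Fin m) :
    reflAt cs Q I a * reflAt cs Q I a = 1 := by
  unfold reflAt
  have : pre cs Q I a.val * cs.simple (Q a) * (pre cs Q I a.val)⁻¹ *
      (pre cs Q I a.val * cs.simple (Q a) * (pre cs Q I a.val)⁻¹)
      = pre cs Q I a.val * (cs.simple (Q a) * cs.simple (Q a)) * (pre cs Q I a.val)⁻¹ := by group
  rw [this, cs.simple_mul_simple_self]; group

theorem reflAt_mul_pre {m : ℕ} (Q : Fin m → B) (I : Finset (Fin m)) (a : Fin m) :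
    reflAt cs Q I a * pre cs Q I a.val = pre cs Q I a.val * cs.simple (Q a) := by
  unfold reflAt; group

theorem IsSwap.pre_mid {m : ℕ} {Q : Fin m → B} {I J : Finset (Fin m)} {a b : Fin m}
    (h : IsSwap I J a b) {n : ℕ} (hn : a.val < n) (hnb : n ≤ b.val) :
    pre cs Q J n = reflAt cs Q I a * pre cs Q I n := by
  induction n, hn using Nat.le_induction with
  | base =>
    by_cases hI : a ∈ I
    · have hJ : a ∉ J := fun hJ => (h.ha.mp hJ) hI
      rw [show a.val.succ = a.val + 1 from rfl, pre_succ_not_mem Q hJ, pre_succ_mem Q hI,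
        h.pre_le le_rfl, reflAt_mul_pre]
    · have hJ : a ∈ J := h.ha.mpr hI
      rw [show a.val.succ = a.val + 1 from rfl, pre_succ_mem Q hJ, pre_succ_not_mem Q hI,
        h.pre_le le_rfl, ← reflAt_mul_pre, ← mul_assoc, reflAt_sq, one_mul]
  | succ n hn ih =>
    have hnm : n < m := by have := b.isLt; omega
    have h1 : (⟨n, hnm⟩ : Fin m) ≠ a := by
      intro e; have := congrArg Fin.val e; simp only at this; omega
    have h2 : (⟨n, hnm⟩ : Fin m) ≠ b := by
      intro e; have := congrArg Fin.val e; simp only at this; omega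
    have h3 := h.other _ h1 h2
    have ih' := ih (by omega)
    by_cases hI : (⟨n, hnm⟩ : Fin m) ∈ I
    · have e1 := pre_succ_mem (cs := cs) Q hI
      have e2 := pre_succ_mem (cs := cs) Q (h3.mpr hI)
      simp only at e1 e2
      rw [e1, e2, ih']
    · have e1 := pre_succ_not_mem (cs := cs) Q hI
      have e2 := pre_succ_not_mem (cs := cs) Q (fun hJ => hI (h3.mp hJ))
      simp only at e1 e2
      rw [e1, e2, ih', mul_assoc]

theorem IsSwap.pre_gt {m : ℕ} {Q : Fin m → B} {I J : Finset (Fin m)} {a b : Fin m}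
    (h : IsSwap I J a b) (ht : reflAt cs Q I a = reflAt cs Q I b)
    {n : ℕ} (hn : b.val < n) (hnm : n ≤ m) :
    pre cs Q J n = pre cs Q I n := by
  have hlt : a.val < b.val := h.lt
  induction n, hn using Nat.le_induction with
  | base =>
    have hb := h.pre_mid (cs := cs) (Q := Q) (n := b.val) hlt le_rfl
    by_cases hI : b ∈ I
    · have hJ : b ∉ J := fun hJ => (h.hb.mp hJ) hI
      rw [show b.val.succ = b.val + 1 from rfl, pre_succ_not_mem Q hJ, pre_succ_mem Q hI, hb, ht,
        reflAt_mul_pre, mul_assoc, cs.simple_mul_simple_self, mul_one]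
    · have hJ : b ∈ J := h.hb.mpr hI
      rw [show b.val.succ = b.val + 1 from rfl, pre_succ_mem Q hJ, pre_succ_not_mem Q hI, hb, ht,
        reflAt_mul_pre]
  | succ n hn ih =>
    have h1 : (⟨n, hnm⟩ : Fin m) ≠ a := by
      intro e; have := congrArg Fin.val e; simp only at this; omega
    have h2 : (⟨n, hnm⟩ : Fin m) ≠ b := by
      intro e; have := congrArg Fin.val e; simp only at this; omega
    have h3 := h.other _ h1 h2
    have ih' := ih (by omega)
    by_cases hI : (⟨n, hnm⟩ : Fin m) ∈ I
    · have e1 := pre_succ_mem (cs := cs) Q hI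
      have e2 := pre_succ_mem (cs := cs) Q (h3.mpr hI)
      simp only at e1 e2
      rw [e1, e2, ih']
    · have e1 := pre_succ_not_mem (cs := cs) Q hI
      have e2 := pre_succ_not_mem (cs := cs) Q (fun hJ => hI (h3.mp hJ))
      simp only at e1 e2
      rw [e1, e2, ih']

end Pool.Agent.SubwordFlip
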